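import Mathlib

/-!
# Counting integers with given prime factors (for MP_e72373_nt)
-/

set_option autoImplicit false

namespace Pool.Agent.MD50

open Finset

/-- the integers in `[1, W]` all of whose prime factors divide `m` -/
def FN (W m : ℕ) : Finset ℕ := (Icc 1 W).filter fun n => n.primeFactors ⊆ m.primeFactors

/-- the radical -/
def rad (n : ℕ) : ℕ := ∏ p ∈ n.primeFactors, p

/-- the integers in `[1, W]` with small radical -/
def S1 (W : ℕ) : Finset ℕ := (Icc 1 W).filter fun n => rad n ^ 2 ≤ W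

theorem rad_dvd (n : ℕ) : rad n ∣ n := Nat.prod_primeFactors_dvd n

theorem rad_pos (n : ℕ) : 0 < rad n :=
  Finset.prod_pos fun _ hp => (Nat.prime_of_mem_primeFactors hp).pos

theorem rad_le (n : ℕ) (hn : 1 ≤ n) : rad n ≤ n := Nat.le_of_dvd (by omega) (rad_dvd n)

theorem pf_rad (n : ℕ) : (rad n).primeFactors = n.primeFactors :=
  Nat.primeFactors_prod fun _ hp => Nat.prime_of_mem_primeFactors hp

theorem rad_dvd_rad {m n : ℕ} (h : m.primeFactors ⊆ n.primeFactors) : rad m ∣ rad n :=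
  Finset.prod_dvd_prod_of_subset _ _ _ h

/-- `n ↦ n^(-ε)` -/
noncomputable def fe (ε : ℝ) : ℕ →* ℝ where
  toFun n := (n : ℝ) ^ (-ε)
  map_one' := by simp
  map_mul' a b := by
    push_cast
    exact Real.mul_rpow (Nat.cast_nonneg a) (Nat.cast_nonneg b)

theorem fe_apply (ε : ℝ) (n : ℕ) : fe ε n = (n : ℝ) ^ (-ε) := rfl

theorem fe_lt (ε : ℝ) (hε : 0 < ε) {p : ℕ} (hp : p.Prime) : ‖fe ε p‖ < 1 := by
  rw [fe_apply, Real.norm_of_nonneg (Real.rpow_nonneg (Nat.cast_nonneg p) _)]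
  exact Real.rpow_lt_one_of_one_lt_of_neg (by exact_mod_cast hp.one_lt) (by linarith)

theorem FN_card (ε : ℝ) (hε : 0 < ε) (W m : ℕ) :
    ((FN W m).card : ℝ) ≤ (W : ℝ) ^ ε * ∏ p ∈ m.primeFactors, (1 - (p : ℝ) ^ (-ε))⁻¹ := by
  classical
  obtain ⟨-, h2⟩ := EulerProduct.summable_and_hasSum_factoredNumbers_prod_filter_prime_geometric
    (f := fe ε) (fun {p} hp => fe_lt ε hε hp) m.primeFactors
  have h3 : ∑ n ∈ FN W m, fe ε n ≤ ∏ p ∈ m.primeFactors with p.Prime, (1 - fe ε p)⁻¹ := by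
    have hmem : ∀ x ∈ FN W m, x ∈ Nat.factoredNumbers m.primeFactors := by
      intro x hx
      rw [FN, mem_filter, mem_Icc] at hx
      exact Nat.mem_factoredNumbers_of_primeFactors_subset (by omega) hx.2
    have h4 := sum_le_hasSum ((FN W m).subtype (· ∈ Nat.factoredNumbers m.primeFactors))
      (fun i _ => (Real.rpow_nonneg (Nat.cast_nonneg _) _ : (0 : ℝ) ≤ fe ε (i : ℕ))) h2
    have h6 : ∑ i ∈ (FN W m).subtype (fun x => x ∈ Nat.factoredNumbers m.primeFactors),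
        (fun n : ℕ => fe ε n) (i : ℕ) = ∑ n ∈ FN W m, (fun n : ℕ => fe ε n) n :=
      Finset.sum_subtype_of_mem (fun n : ℕ => fe ε n) hmem
    calc ∑ n ∈ FN W m, fe ε n = ∑ n ∈ FN W m, (fun n : ℕ => fe ε n) n := rfl
      _ = _ := h6.symm
      _ ≤ _ := h4
  have h5 : ∏ p ∈ m.primeFactors with p.Prime, (1 - fe ε p)⁻¹ =
      ∏ p ∈ m.primeFactors, (1 - (p : ℝ) ^ (-ε))⁻¹ := by
    rw [Finset.filter_true_of_mem (fun p hp => Nat.prime_of_mem_primeFactors hp)]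
    rfl
  rw [h5] at h3
  have hW : (0 : ℝ) ≤ (W : ℝ) ^ ε := Real.rpow_nonneg (Nat.cast_nonneg W) _
  refine le_trans ?_ (mul_le_mul_of_nonneg_left h3 hW)
  rw [Finset.mul_sum, ← nsmul_one (FN W m).card, ← Finset.sum_const]
  refine Finset.sum_le_sum fun n hn => ?_
  rw [FN, mem_filter, mem_Icc] at hn
  have hn1 : (0 : ℝ) < n := by exact_mod_cast hn.1.1
  rw [fe_apply, Real.rpow_neg hn1.le, ← div_eq_mul_inv, le_div_iff₀ (Real.rpow_pos_of_pos hn1 _), one_mul]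
  exact Real.rpow_le_rpow hn1.le (by exact_mod_cast hn.1.2) hε.le

theorem prod_bd (ε δ : ℝ) (hε : 0 < ε) (hδ : 0 < δ) : ∃ K : ℝ, 0 < K ∧ ∀ m : ℕ, 1 ≤ m →
    ∏ p ∈ m.primeFactors, (1 - (p : ℝ) ^ (-ε))⁻¹ ≤ K * (m : ℝ) ^ δ := by
  classical
  set p0 : ℕ := ⌈(2 : ℝ) ^ (1 / ε)⌉₊ + ⌈(2 : ℝ) ^ (1 / δ)⌉₊ with hp0
  have h2e : (2 : ℝ) ^ (-ε) < 1 := Real.rpow_lt_one_of_one_lt_of_neg (by norm_num) (by linarith)
  have h2e0 : (0 : ℝ) < (2 : ℝ) ^ (-ε) := Real.rpow_pos_of_pos (by norm_num) _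
  set A : ℝ := (1 - (2 : ℝ) ^ (-ε))⁻¹ with hA
  have hA1 : 1 ≤ A := by
    rw [hA]
    exact (one_le_inv₀ (by linarith)).2 (by linarith)
  refine ⟨A ^ p0, by positivity, ?_⟩
  intro m hm
  have hpt : ∀ p ∈ m.primeFactors, (1 - (p : ℝ) ^ (-ε))⁻¹ ≤ (if p < p0 then A else 1) * (p : ℝ) ^ δ := by
    intro p hp
    have hpp := Nat.prime_of_mem_primeFactors hp
    have hp2 : (2 : ℝ) ≤ p := by exact_mod_cast hpp.two_le
    have hp1 : (1 : ℝ) ≤ (p : ℝ) ^ δ := Real.one_le_rpow (by linarith) hδ.le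
    split_ifs with hlt
    · have h1 : (p : ℝ) ^ (-ε) ≤ (2 : ℝ) ^ (-ε) :=
        Real.rpow_le_rpow_of_nonpos (by norm_num) hp2 (by linarith)
      have h2 : (1 - (p : ℝ) ^ (-ε))⁻¹ ≤ A := by
        rw [hA]
        exact inv_anti₀ (by linarith) (by linarith)
      nlinarith
    · have hge : (p0 : ℝ) ≤ p := by exact_mod_cast (not_lt.1 hlt)
      have hc1 : (2 : ℝ) ^ (1 / ε) ≤ p := by
        refine le_trans (Nat.le_ceil _) (le_trans ?_ hge)
        rw [hp0]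
        push_cast
        linarith [Nat.cast_nonneg (α := ℝ) ⌈(2 : ℝ) ^ (1 / δ)⌉₊]
      have hc2 : (2 : ℝ) ^ (1 / δ) ≤ p := by
        refine le_trans (Nat.le_ceil _) (le_trans ?_ hge)
        rw [hp0]
        push_cast
        linarith [Nat.cast_nonneg (α := ℝ) ⌈(2 : ℝ) ^ (1 / ε)⌉₊]
      have hd1 : (2 : ℝ) ≤ (p : ℝ) ^ ε := by
        have := Real.rpow_le_rpow (Real.rpow_nonneg (by norm_num) _) hc1 hε.le
        rwa [← Real.rpow_mul (by norm_num), one_div_mul_cancel hε.ne', Real.rpow_one] at this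
      have hd2 : (2 : ℝ) ≤ (p : ℝ) ^ δ := by
        have := Real.rpow_le_rpow (Real.rpow_nonneg (by norm_num) _) hc2 hδ.le
        rwa [← Real.rpow_mul (by norm_num), one_div_mul_cancel hδ.ne', Real.rpow_one] at this
      have hd3 : (p : ℝ) ^ (-ε) ≤ 1 / 2 := by
        rw [Real.rpow_neg (by linarith), one_div]
        exact inv_anti₀ (by norm_num) hd1
      rw [one_mul]
      refine le_trans ?_ hd2
      rw [inv_le_comm₀ (by linarith) (by norm_num)]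
      linarith
  calc ∏ p ∈ m.primeFactors, (1 - (p : ℝ) ^ (-ε))⁻¹
      ≤ ∏ p ∈ m.primeFactors, ((if p < p0 then A else 1) * (p : ℝ) ^ δ) := by
        refine Finset.prod_le_prod (fun p hp => ?_) hpt
        have := fe_lt ε hε (Nat.prime_of_mem_primeFactors hp)
        rw [fe_apply, Real.norm_of_nonneg (Real.rpow_nonneg (Nat.cast_nonneg p) _)] at this
        exact inv_nonneg.2 (by linarith)
    _ = (∏ p ∈ m.primeFactors, (if p < p0 then A else 1)) * ∏ p ∈ m.primeFactors, (p : ℝ) ^ δ :=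
        Finset.prod_mul_distrib
    _ ≤ A ^ p0 * (m : ℝ) ^ δ := by
        refine mul_le_mul ?_ ?_ (Finset.prod_nonneg fun p _ => Real.rpow_nonneg (Nat.cast_nonneg p) _)
          (by positivity)
        · rw [Finset.prod_ite, Finset.prod_const, Finset.prod_const_one, mul_one]
          refine pow_le_pow_right₀ hA1 ?_
          have : (m.primeFactors.filter fun p => p < p0) ⊆ range p0 := by
            intro p hp
            rw [mem_filter] at hp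
            exact mem_range.2 hp.2
          simpa using Finset.card_le_card this
        · rw [Real.finsetProd_rpow _ _ (fun p _ => Nat.cast_nonneg p)]
          refine Real.rpow_le_rpow (Finset.prod_nonneg fun p _ => Nat.cast_nonneg p) ?_ hδ.le
          have h7 : ((∏ p ∈ m.primeFactors, p : ℕ) : ℝ) ≤ (m : ℝ) := by
            exact_mod_cast rad_le m hm
          rw [Nat.cast_prod] at h7
          exact h7

/-- **Rankin's bound.** -/
theorem FN_le (ε δ : ℝ) (hε : 0 < ε) (hδ : 0 < δ) : ∃ K : ℝ, 0 < K ∧ ∀ W m : ℕ, 1 ≤ m →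
    ((FN W m).card : ℝ) ≤ K * (W : ℝ) ^ ε * (m : ℝ) ^ δ := by
  obtain ⟨K, hK, h⟩ := prod_bd ε δ hε hδ
  refine ⟨K, hK, fun W m hm => ?_⟩
  calc ((FN W m).card : ℝ) ≤ (W : ℝ) ^ ε * ∏ p ∈ m.primeFactors, (1 - (p : ℝ) ^ (-ε))⁻¹ := FN_card ε hε W m
    _ ≤ (W : ℝ) ^ ε * (K * (m : ℝ) ^ δ) :=
        mul_le_mul_of_nonneg_left (h m hm) (Real.rpow_nonneg (Nat.cast_nonneg W) _)
    _ = K * (W : ℝ) ^ ε * (m : ℝ) ^ δ := by ring

/-- The form used: `m ≤ W^D`. -/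
theorem FN_le' (ε : ℝ) (hε : 0 < ε) (D : ℕ) : ∃ K : ℝ, 1 ≤ K ∧ ∀ W m : ℕ, 1 ≤ W → 1 ≤ m → m ≤ W ^ D →
    ((FN W m).card : ℝ) ≤ K * (W : ℝ) ^ ε := by
  have hD : (0 : ℝ) < (D : ℝ) + 1 := by positivity
  obtain ⟨K, hK, h⟩ := FN_le (ε / 2) (ε / (2 * ((D : ℝ) + 1))) (by linarith) (by positivity)
  refine ⟨max K 1, le_max_right _ _, fun W m hW hm hmD => ?_⟩
  have hW1 : (1 : ℝ) ≤ W := by exact_mod_cast hW
  have hW0 : (0 : ℝ) ≤ W := by linarith
  have h1 : (m : ℝ) ^ (ε / (2 * ((D : ℝ) + 1))) ≤ (W : ℝ) ^ (ε / 2) := by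
    have h2 : (m : ℝ) ≤ (W : ℝ) ^ ((D : ℝ) + 1) := by
      have h3 : (m : ℝ) ≤ (W : ℝ) ^ D := by exact_mod_cast hmD
      refine h3.trans ?_
      rw [← Real.rpow_natCast]
      exact Real.rpow_le_rpow_of_exponent_le hW1 (by linarith)
    refine (Real.rpow_le_rpow (Nat.cast_nonneg m) h2 (by positivity)).trans ?_
    rw [← Real.rpow_mul hW0]
    refine Real.rpow_le_rpow_of_exponent_le hW1 (le_of_eq ?_)
    field_simp
  calc ((FN W m).card : ℝ) ≤ K * (W : ℝ) ^ (ε / 2) * (m : ℝ) ^ (ε / (2 * ((D : ℝ) + 1))) := h W m hm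
    _ ≤ K * (W : ℝ) ^ (ε / 2) * (W : ℝ) ^ (ε / 2) := by
        refine mul_le_mul_of_nonneg_left h1 (by positivity)
    _ = K * (W : ℝ) ^ ε := by
        rw [mul_assoc, ← Real.rpow_add (by linarith)]
        congr 2
        ring
    _ ≤ max K 1 * (W : ℝ) ^ ε := mul_le_mul_of_nonneg_right (le_max_left _ _) (Real.rpow_nonneg hW0 _)

/-- Few integers have a small radical. -/
theorem S1_le (ε : ℝ) (hε : 0 < ε) : ∃ K : ℝ, 1 ≤ K ∧ ∀ W : ℕ, 1 ≤ W →
    ((S1 W).card : ℝ) ≤ K * (W : ℝ) ^ (1 / 2 + ε) := by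
  classical
  obtain ⟨K, hK, h⟩ := FN_le' ε hε 1
  refine ⟨K, hK, fun W hW => ?_⟩
  have hW1 : (1 : ℝ) ≤ W := by exact_mod_cast hW
  have hsub : S1 W ⊆ (Icc 1 (Nat.sqrt W)).biUnion fun r => FN W r := by
    intro n hn
    rw [S1, mem_filter, mem_Icc] at hn
    rw [mem_biUnion]
    refine ⟨rad n, ?_, ?_⟩
    · rw [mem_Icc]
      refine ⟨rad_pos n, ?_⟩
      rw [Nat.le_sqrt, ← pow_two]
      exact hn.2
    · rw [FN, mem_filter, mem_Icc, pf_rad]
      exact ⟨hn.1, subset_rfl⟩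
  have h1 : ((S1 W).card : ℝ) ≤ ∑ r ∈ Icc 1 (Nat.sqrt W), ((FN W r).card : ℝ) := by
    exact_mod_cast (Finset.card_le_card hsub).trans Finset.card_biUnion_le
  have h2 : ∑ r ∈ Icc 1 (Nat.sqrt W), ((FN W r).card : ℝ) ≤
      ∑ _r ∈ Icc 1 (Nat.sqrt W), K * (W : ℝ) ^ ε := by
    refine Finset.sum_le_sum fun r hr => ?_
    rw [mem_Icc] at hr
    refine h W r hW hr.1 ?_
    rw [pow_one]
    exact hr.2.trans (Nat.sqrt_le_self W)
  have h3 : (Nat.sqrt W : ℝ) ≤ (W : ℝ) ^ (1 / 2 : ℝ) := by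
    rw [← Real.sqrt_eq_rpow]
    exact Real.nat_sqrt_le_real_sqrt
  rw [Finset.sum_const, Nat.card_Icc, Nat.add_sub_cancel, nsmul_eq_mul] at h2
  calc ((S1 W).card : ℝ) ≤ (Nat.sqrt W : ℝ) * (K * (W : ℝ) ^ ε) := h1.trans h2
    _ ≤ (W : ℝ) ^ (1 / 2 : ℝ) * (K * (W : ℝ) ^ ε) := mul_le_mul_of_nonneg_right h3 (by positivity)
    _ = K * (W : ℝ) ^ (1 / 2 + ε) := by
        rw [Real.rpow_add (by linarith)]
        ring

end Pool.Agent.MD50
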