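import Mathlib
import Pool.Agent.helper50.MD.Supp

/-!
# Counting triples `x^α = y^β z^γ`, `(x+1)^α' = (y+1)^β' (z+1)^γ'` with a small exponent
-/

set_option autoImplicit false

namespace Pool.Agent.MD50

open Finset

/-- Two coprime divisors of a small nonzero difference. -/
theorem dd {N X Y R1 R2 : ℕ} (hX : X ≤ N) (hY : Y ≤ N) (hne : X ≠ Y) (hc : Nat.Coprime R1 R2)
    (h1 : (R1 : ℤ) ∣ (X : ℤ) - Y) (h2 : (R2 : ℤ) ∣ (X : ℤ) - Y) : R1 ^ 2 ≤ N ∨ R2 ^ 2 ≤ N := by
  have h3 : ((R1 * R2 : ℕ) : ℤ) ∣ (X : ℤ) - Y := by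
    push_cast
    exact IsCoprime.mul_dvd (Nat.isCoprime_iff_coprime.2 hc) h1 h2
  have h4 : R1 * R2 ∣ ((X : ℤ) - Y).natAbs := Int.natCast_dvd.1 h3
  have h5 : 0 < ((X : ℤ) - Y).natAbs := by
    rw [Int.natAbs_pos]
    intro h
    apply hne
    omega
  have h6 : R1 * R2 ≤ N := (Nat.le_of_dvd h5 h4).trans (by omega)
  by_contra hcon
  push Not at hcon
  rcases le_total R1 R2 with hle | hle
  · have := Nat.mul_le_mul_left R1 hle
    nlinarith
  · have := Nat.mul_le_mul_right R2 hle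
    nlinarith

/-- counting through three coordinates -/
theorem cnt {T : Finset (ℕ × ℕ × ℕ)} (f g h : ℕ × ℕ × ℕ → ℕ) (S : Finset ℕ) (A : ℕ → Finset ℕ)
    (F : ℕ → ℕ → Finset ℕ) (a b : ℝ) (hb0 : 0 ≤ b) (ha : ∀ s ∈ S, ((A s).card : ℝ) ≤ a)
    (hb : ∀ t ∈ T, ((F (f t) (g t)).card : ℝ) ≤ b)
    (hinj : ∀ t ∈ T, ∀ t' ∈ T, f t = f t' → g t = g t' → h t = h t' → t = t')
    (h1 : ∀ t ∈ T, f t ∈ S) (h2 : ∀ t ∈ T, g t ∈ A (f t)) (h3 : ∀ t ∈ T, h t ∈ F (f t) (g t)) :
    (T.card : ℝ) ≤ S.card * a * b := by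
  classical
  set T1 : Finset (ℕ × ℕ) := T.image fun t => (f t, g t) with hT1
  have e1 : T1 ⊆ S.biUnion fun s => (A s).image fun r => (s, r) := by
    intro q hq
    rw [hT1, mem_image] at hq
    obtain ⟨t, ht, rfl⟩ := hq
    rw [mem_biUnion]
    exact ⟨f t, h1 t ht, mem_image.2 ⟨g t, h2 t ht, rfl⟩⟩
  have e2 : (T1.card : ℝ) ≤ S.card * a := by
    calc (T1.card : ℝ) ≤ ∑ s ∈ S, (((A s).image fun r => (s, r)).card : ℝ) := by
          exact_mod_cast (Finset.card_le_card e1).trans Finset.card_biUnion_le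
      _ ≤ ∑ _s ∈ S, a := by
          refine Finset.sum_le_sum fun s hs => ?_
          refine le_trans ?_ (ha s hs)
          exact_mod_cast Finset.card_image_le
      _ = S.card * a := by rw [Finset.sum_const, nsmul_eq_mul]
  have e3 : T.card = ∑ q ∈ T1, (T.filter fun t => (f t, g t) = q).card :=
    Finset.card_eq_sum_card_image _ _
  have e4 : ∀ q ∈ T1, ((T.filter fun t => (f t, g t) = q).card : ℝ) ≤ b := by
    intro q hq
    rw [hT1, mem_image] at hq
    obtain ⟨t0, ht0, rfl⟩ := hq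
    refine le_trans ?_ (hb t0 ht0)
    have : (T.filter fun t => (f t, g t) = (f t0, g t0)).card ≤ (F (f t0) (g t0)).card := by
      refine Finset.card_le_card_of_injOn h ?_ ?_
      · intro t ht
        rw [mem_coe, mem_filter] at ht
        have e5 := h3 t ht.1
        have e6 := Prod.ext_iff.1 ht.2
        rw [mem_coe]
        simp only at e6
        rwa [e6.1, e6.2] at e5
      · intro t ht t' ht' hh
        rw [mem_coe, mem_filter] at ht ht'
        have e6 := Prod.ext_iff.1 ht.2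
        have e7 := Prod.ext_iff.1 ht'.2
        simp only at e6 e7
        exact hinj t ht.1 t' ht'.1 (e6.1.trans e7.1.symm) (e6.2.trans e7.2.symm) hh
    exact_mod_cast this
  calc (T.card : ℝ) = ∑ q ∈ T1, ((T.filter fun t => (f t, g t) = q).card : ℝ) := by
        rw [e3]; push_cast; rfl
    _ ≤ ∑ _q ∈ T1, b := Finset.sum_le_sum e4
    _ = T1.card * b := by rw [Finset.sum_const, nsmul_eq_mul]
    _ ≤ S.card * a * b := mul_le_mul_of_nonneg_right e2 hb0

/-- the supports in a relation `x^α = y^β z^γ` -/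
theorem pf_eq {x y z α β γ : ℕ} (hy : y ≠ 0) (hz : z ≠ 0) (hα : α ≠ 0) (hβ : β ≠ 0) (hγ : γ ≠ 0)
    (h : x ^ α = y ^ β * z ^ γ) : x.primeFactors = y.primeFactors ∪ z.primeFactors := by
  rw [← Nat.primeFactors_pow x hα, h, Nat.primeFactors_mul (pow_ne_zero _ hy) (pow_ne_zero _ hz),
    Nat.primeFactors_pow _ hβ, Nat.primeFactors_pow _ hγ]

/-- the third number, from a small exponent of the second -/
theorem key {x y z α β γ b p : ℕ} (hy : 1 ≤ y) (hβ : 1 ≤ β) (hβb : β ≤ b) (h : x ^ α = y ^ β * z ^ γ)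
    (hx2 : (x : ZMod p) ^ 2 = 1) (hz2 : (z : ZMod p) ^ 2 = 1) :
    p ∣ y ^ (2 * b.factorial) - 1 := by
  have h1 : ((x : ZMod p) ^ α) ^ 2 = 1 := by rw [← pow_mul, mul_comm, pow_mul, hx2, one_pow]
  have h2 : ((z : ZMod p) ^ γ) ^ 2 = 1 := by rw [← pow_mul, mul_comm, pow_mul, hz2, one_pow]
  have h3 : (x : ZMod p) ^ α = (y : ZMod p) ^ β * (z : ZMod p) ^ γ := by exact_mod_cast congrArg (Nat.cast (R := ZMod p)) h
  have h4 : ((y : ZMod p) ^ β) ^ 2 = 1 := by
    have : ((x : ZMod p) ^ α) ^ 2 = ((y : ZMod p) ^ β) ^ 2 * ((z : ZMod p) ^ γ) ^ 2 := by rw [h3]; ring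
    rw [h1, h2, mul_one] at this
    exact this.symm
  obtain ⟨k, hk⟩ := Nat.dvd_factorial hβ hβb
  have h5 : (y : ZMod p) ^ (2 * b.factorial) = 1 := by
    rw [hk, show 2 * (β * k) = (β * 2) * k by ring, pow_mul, pow_mul, h4, one_pow]
  have h6 : ((y ^ (2 * b.factorial) - 1 : ℕ) : ZMod p) = 0 := by
    rw [Nat.cast_sub (Nat.one_le_pow _ _ hy)]
    push_cast
    rw [h5, sub_self]
  exact (ZMod.natCast_eq_zero_iff _ _).1 h6

/-- if the exponents of `y` and `z` are at least twice that of `x`, then `x` is full of squares -/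
theorem full {x y z α β γ : ℕ} (hx : 1 ≤ x) (hy : y ≠ 0) (hz : z ≠ 0) (hα : 1 ≤ α) (hβ : 2 * α ≤ β) (hγ : 2 * α ≤ γ)
    (h : x ^ α = y ^ β * z ^ γ) : rad x ^ 2 ≤ x := by
  have h1 : rad x ^ 2 ∣ x := by
    unfold rad
    rw [← Finset.prod_pow]
    refine Finset.prod_dvd_of_isRelPrime ?_ ?_
    · intro p hp q hq hpq
      have hp' := Nat.prime_of_mem_primeFactors hp
      have hq' := Nat.prime_of_mem_primeFactors hq
      have hcop : Nat.Coprime (p ^ 2) (q ^ 2) := Nat.Coprime.pow 2 2 ((Nat.coprime_primes hp' hq').2 hpq)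
      exact Nat.coprime_iff_isRelPrime.1 hcop
    · intro p hp
      have hp' := Nat.prime_of_mem_primeFactors hp
      rw [hp'.pow_dvd_iff_le_factorization (by omega)]
      have h2 : α * x.factorization p = β * y.factorization p + γ * z.factorization p := by
        have := congrArg (fun n => n.factorization p) h
        simpa [Nat.factorization_mul (pow_ne_zero β hy) (pow_ne_zero γ hz), Nat.factorization_pow] using this
      have h3 : p ∈ y.primeFactors ∪ z.primeFactors := by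
        rw [← pf_eq hy hz (by omega) (by omega) (by omega) h]
        exact hp
      rw [mem_union] at h3
      rcases h3 with h3 | h3
      · have h4 : 1 ≤ y.factorization p :=
          (hp'.factorization_pos_of_dvd hy (Nat.dvd_of_mem_primeFactors h3))
        by_contra hcon
        push Not at hcon
        have h5 : x.factorization p ≤ 1 := by omega
        nlinarith [Nat.zero_le (γ * z.factorization p), Nat.mul_le_mul hβ h4, Nat.mul_le_mul_left α h5]
      · have h4 : 1 ≤ z.factorization p :=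
          (hp'.factorization_pos_of_dvd hz (Nat.dvd_of_mem_primeFactors h3))
        by_contra hcon
        push Not at hcon
        have h5 : x.factorization p ≤ 1 := by omega
        nlinarith [Nat.zero_le (β * y.factorization p), Nat.mul_le_mul hγ h4, Nat.mul_le_mul_left α h5]
  exact Nat.le_of_dvd (by omega) h1

end Pool.Agent.MD50
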