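import Mathlib
import Pool.Agent.helper50.MD.Count

/-!
# The six cases
-/

set_option autoImplicit false

namespace Pool.Agent.MD50

open Finset

theorem mem_FN {W m n : ℕ} : n ∈ FN W m ↔ (1 ≤ n ∧ n ≤ W) ∧ n.primeFactors ⊆ m.primeFactors := by
  rw [FN, mem_filter, mem_Icc]

/-- integers `n < W` such that `n` or `n + 1` has a small radical -/
def SS (W : ℕ) : Finset ℕ := (Icc 1 W).filter fun n => n + 1 ≤ W ∧ (rad n ^ 2 ≤ W ∨ rad (n + 1) ^ 2 ≤ W)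

theorem SS_card (W : ℕ) : (SS W).card ≤ 2 * (S1 W).card := by
  classical
  have h : SS W ⊆ S1 W ∪ (S1 W).image fun n => n - 1 := by
    intro n hn
    rw [SS, mem_filter, mem_Icc] at hn
    rw [mem_union, mem_image]
    rcases hn.2.2 with h1 | h1
    · left
      rw [S1, mem_filter, mem_Icc]
      exact ⟨hn.1, h1⟩
    · right
      refine ⟨n + 1, ?_, rfl⟩
      rw [S1, mem_filter, mem_Icc]
      exact ⟨⟨by omega, hn.2.1⟩, h1⟩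
  calc (SS W).card ≤ (S1 W ∪ (S1 W).image fun n => n - 1).card := Finset.card_le_card h
    _ ≤ (S1 W).card + ((S1 W).image fun n => n - 1).card := Finset.card_union_le _ _
    _ ≤ (S1 W).card + (S1 W).card := Nat.add_le_add_left Finset.card_image_le _
    _ = 2 * (S1 W).card := by ring

/-- a relation `x^α = y^β z^γ` with positive exponents -/
def Rel (x y z : ℕ) : Prop := ∃ α β γ : ℕ, 1 ≤ α ∧ 1 ≤ β ∧ 1 ≤ γ ∧ x ^ α = y ^ β * z ^ γ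

/-- a relation `x^α = y^β z^γ` with positive exponents, one of which is at most `B` -/
def SRel (B x y z : ℕ) : Prop :=
  ∃ α β γ : ℕ, 1 ≤ α ∧ 1 ≤ β ∧ 1 ≤ γ ∧ (α ≤ B ∨ β ≤ B ∨ γ ≤ B) ∧ x ^ α = y ^ β * z ^ γ

theorem SRel.rel {B x y z : ℕ} (h : SRel B x y z) : Rel x y z := by
  obtain ⟨α, β, γ, h1, h2, h3, -, h4⟩ := h
  exact ⟨α, β, γ, h1, h2, h3, h4⟩

theorem Rel.symm {x y z : ℕ} (h : Rel x y z) : Rel x z y := by
  obtain ⟨α, β, γ, h1, h2, h3, h4⟩ := h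
  exact ⟨α, γ, β, h1, h3, h2, by rw [h4, mul_comm]⟩

theorem Rel.pf {x y z : ℕ} (hy : y ≠ 0) (hz : z ≠ 0) (h : Rel x y z) :
    x.primeFactors = y.primeFactors ∪ z.primeFactors := by
  obtain ⟨α, β, γ, h1, h2, h3, h4⟩ := h
  exact pf_eq hy hz (by omega) (by omega) (by omega) h4

theorem rad_dvd_of_sub {x y : ℕ} (h : y.primeFactors ⊆ x.primeFactors) : rad y ∣ x :=
  (rad_dvd_rad h).trans (rad_dvd x)

/-- the product side members lie in `SS` -/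
theorem mem_SS {N X Y : ℕ} (hX : X ≤ N) (hY : Y ≤ N) (hY1 : 1 ≤ Y) (hne : X ≠ Y)
    (h1 : Y.primeFactors ⊆ X.primeFactors) (h2 : (Y + 1).primeFactors ⊆ (X + 1).primeFactors) :
    Y ∈ SS (N + 1) := by
  have hcop : Nat.Coprime (rad Y) (rad (Y + 1)) :=
    Nat.Coprime.of_dvd (rad_dvd Y) (rad_dvd (Y + 1)) (by simp)
  have d1 : ((rad Y : ℕ) : ℤ) ∣ (X : ℤ) - Y :=
    dvd_sub (Int.natCast_dvd_natCast.2 (rad_dvd_of_sub h1)) (Int.natCast_dvd_natCast.2 (rad_dvd Y))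
  have d2 : ((rad (Y + 1) : ℕ) : ℤ) ∣ (X : ℤ) - Y := by
    have := dvd_sub (Int.natCast_dvd_natCast.2 (rad_dvd_of_sub h2))
      (Int.natCast_dvd_natCast.2 (rad_dvd (Y + 1)))
    push_cast at this
    rwa [add_sub_add_right_eq_sub] at this
  rw [SS, mem_filter, mem_Icc]
  refine ⟨⟨hY1, by omega⟩, by omega, ?_⟩
  rcases dd hX hY hne hcop d1 d2 with h | h
  · left; omega
  · right; omega

/-- the third number: prime factors -/
theorem third {x y z z' b : ℕ} {α β γ : ℕ} (hy : 2 ≤ y) (hβ : 1 ≤ β) (hβb : β ≤ b)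
    (h : x ^ α = y ^ β * z ^ γ)
    (hsq : ∀ p ∈ z'.primeFactors, (x : ZMod p) ^ 2 = 1 ∧ (z : ZMod p) ^ 2 = 1) :
    z'.primeFactors ⊆ (y ^ (2 * b.factorial) - 1).primeFactors := by
  intro p hp
  have h1 := key (p := p) (by omega) hβ hβb h (hsq p hp).1 (hsq p hp).2
  refine Nat.mem_primeFactors.2 ⟨Nat.prime_of_mem_primeFactors hp, h1, ?_⟩
  have h2 : 2 ≤ y ^ (2 * b.factorial) := by
    have : 1 ≤ 2 * b.factorial := by have := Nat.factorial_pos b; omega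
    calc 2 ≤ y := hy
      _ = y ^ 1 := (pow_one y).symm
      _ ≤ y ^ (2 * b.factorial) := Nat.pow_le_pow_right (by omega) this
  omega

theorem sq_succ {p n : ℕ} (h : p ∣ n + 1) : (n : ZMod p) ^ 2 = 1 := by
  have h1 : ((n + 1 : ℕ) : ZMod p) = 0 := (ZMod.natCast_eq_zero_iff _ _).2 h
  push_cast at h1
  have h2 : (n : ZMod p) = -1 := eq_neg_of_add_eq_zero_left h1
  rw [h2]
  ring

theorem sq_pred {p n : ℕ} (h : p ∣ n) : ((n + 1 : ℕ) : ZMod p) ^ 2 = 1 := by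
  have h1 : ((n : ℕ) : ZMod p) = 0 := (ZMod.natCast_eq_zero_iff _ _).2 h
  push_cast
  rw [h1]
  ring

/-- `Y` is chosen first -/
def CaseA (N M : ℕ) (t : ℕ × ℕ × ℕ) : Prop :=
  t.2.1 ∈ SS (N + 1) ∧ t.2.2 + 1 ∈ FN (N + 1) (t.2.1 ^ M - 1) ∧ t.1 ∈ FN (N + 1) (t.2.1 * t.2.2)

/-- `Z` is chosen first -/
def CaseB (N M : ℕ) (t : ℕ × ℕ × ℕ) : Prop :=
  t.2.2 ∈ SS (N + 1) ∧ t.2.1 + 1 ∈ FN (N + 1) (t.2.2 ^ M - 1) ∧ t.1 ∈ FN (N + 1) (t.2.1 * t.2.2)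

/-- `X` is chosen first -/
def CaseC (N : ℕ) (t : ℕ × ℕ × ℕ) : Prop :=
  t.1 ∈ S1 (N + 1) ∧ t.2.1 ∈ FN (N + 1) t.1 ∧ t.2.2 ∈ FN (N + 1) t.1

/-- `Y` is chosen first, shifted relation -/
def CaseD (N M : ℕ) (t : ℕ × ℕ × ℕ) : Prop :=
  t.2.1 ∈ SS (N + 1) ∧ t.2.2 ∈ FN (N + 1) ((t.2.1 + 1) ^ M - 1) ∧
    t.1 + 1 ∈ FN (N + 1) ((t.2.1 + 1) * (t.2.2 + 1))

/-- `Z` is chosen first, shifted relation -/
def CaseE (N M : ℕ) (t : ℕ × ℕ × ℕ) : Prop :=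
  t.2.2 ∈ SS (N + 1) ∧ t.2.1 ∈ FN (N + 1) ((t.2.2 + 1) ^ M - 1) ∧
    t.1 + 1 ∈ FN (N + 1) ((t.2.1 + 1) * (t.2.2 + 1))

/-- `X` is chosen first, shifted relation -/
def CaseF (N : ℕ) (t : ℕ × ℕ × ℕ) : Prop :=
  t.1 + 1 ∈ S1 (N + 1) ∧ t.2.1 + 1 ∈ FN (N + 1) (t.1 + 1) ∧ t.2.2 + 1 ∈ FN (N + 1) (t.1 + 1)

/-- **Every triple falls in one of the six cases.** -/
theorem six {N B X Y Z : ℕ} (hX : 2 ≤ X) (hXN : X ≤ N) (hY : 2 ≤ Y) (hYN : Y ≤ N) (hZ : 2 ≤ Z) (hZN : Z ≤ N)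
    (hXY : X ≠ Y) (hXZ : X ≠ Z) (h1 : Rel X Y Z) (h2 : Rel (X + 1) (Y + 1) (Z + 1))
    (hs : SRel B X Y Z ∨ SRel B (X + 1) (Y + 1) (Z + 1)) :
    CaseA N (2 * (2 * B).factorial) (X, Y, Z) ∨ CaseB N (2 * (2 * B).factorial) (X, Y, Z) ∨
      CaseC N (X, Y, Z) ∨ CaseD N (2 * (2 * B).factorial) (X, Y, Z) ∨
      CaseE N (2 * (2 * B).factorial) (X, Y, Z) ∨ CaseF N (X, Y, Z) := by
  have p1 := h1.pf (by omega) (by omega)
  have p2 := h2.pf (by omega) (by omega)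
  have sY : Y.primeFactors ⊆ X.primeFactors := by rw [p1]; exact subset_union_left
  have sZ : Z.primeFactors ⊆ X.primeFactors := by rw [p1]; exact subset_union_right
  have sY' : (Y + 1).primeFactors ⊆ (X + 1).primeFactors := by rw [p2]; exact subset_union_left
  have sZ' : (Z + 1).primeFactors ⊆ (X + 1).primeFactors := by rw [p2]; exact subset_union_right
  have mY := mem_SS hXN hYN (by omega) hXY sY sY'
  have mZ := mem_SS hXN hZN (by omega) hXZ sZ sZ'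
  have mX : X ∈ FN (N + 1) (Y * Z) :=
    mem_FN.2 ⟨⟨by omega, by omega⟩, by rw [Nat.primeFactors_mul (by omega) (by omega), p1]⟩
  have mX' : X + 1 ∈ FN (N + 1) ((Y + 1) * (Z + 1)) :=
    mem_FN.2 ⟨⟨by omega, by omega⟩, by rw [Nat.primeFactors_mul (by omega) (by omega), p2]⟩
  -- squares
  have q1 : ∀ p ∈ (Z + 1).primeFactors, (X : ZMod p) ^ 2 = 1 ∧ (Z : ZMod p) ^ 2 = 1 := fun p hp =>
    ⟨sq_succ (Nat.dvd_of_mem_primeFactors (sZ' hp)), sq_succ (Nat.dvd_of_mem_primeFactors hp)⟩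
  have q2 : ∀ p ∈ (Y + 1).primeFactors, (X : ZMod p) ^ 2 = 1 ∧ (Y : ZMod p) ^ 2 = 1 := fun p hp =>
    ⟨sq_succ (Nat.dvd_of_mem_primeFactors (sY' hp)), sq_succ (Nat.dvd_of_mem_primeFactors hp)⟩
  have q3 : ∀ p ∈ Z.primeFactors, ((X + 1 : ℕ) : ZMod p) ^ 2 = 1 ∧ ((Z + 1 : ℕ) : ZMod p) ^ 2 = 1 :=
    fun p hp => ⟨sq_pred (Nat.dvd_of_mem_primeFactors (sZ hp)), sq_pred (Nat.dvd_of_mem_primeFactors hp)⟩
  have q4 : ∀ p ∈ Y.primeFactors, ((X + 1 : ℕ) : ZMod p) ^ 2 = 1 ∧ ((Y + 1 : ℕ) : ZMod p) ^ 2 = 1 :=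
    fun p hp => ⟨sq_pred (Nat.dvd_of_mem_primeFactors (sY hp)), sq_pred (Nat.dvd_of_mem_primeFactors hp)⟩
  rcases hs with ⟨α, β, γ, hα, hβ, hγ, hm, he⟩ | ⟨α, β, γ, hα, hβ, hγ, hm, he⟩
  · by_cases hb : β ≤ 2 * B
    · have m1 : Z + 1 ∈ FN (N + 1) (Y ^ (2 * (2 * B).factorial) - 1) :=
        mem_FN.2 ⟨⟨by omega, by omega⟩, third hY hβ hb he q1⟩
      exact Or.inl ⟨mY, m1, mX⟩
    · by_cases hc : γ ≤ 2 * B
      · have he' : X ^ α = Z ^ γ * Y ^ β := by rw [he, mul_comm]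
        have m1 : Y + 1 ∈ FN (N + 1) (Z ^ (2 * (2 * B).factorial) - 1) :=
          mem_FN.2 ⟨⟨by omega, by omega⟩, third hZ hγ hc he' q2⟩
        exact Or.inr (Or.inl ⟨mZ, m1, mX⟩)
      · have hα' : α ≤ B := by omega
        have hf := full (by omega) (by omega) (by omega) hα (by omega) (by omega) he
        have m1 : X ∈ S1 (N + 1) := by
          rw [S1, mem_filter, mem_Icc]
          exact ⟨⟨by omega, by omega⟩, by omega⟩
        have m2 : Y ∈ FN (N + 1) X := mem_FN.2 ⟨⟨by omega, by omega⟩, sY⟩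
        have m3 : Z ∈ FN (N + 1) X := mem_FN.2 ⟨⟨by omega, by omega⟩, sZ⟩
        exact Or.inr (Or.inr (Or.inl ⟨m1, m2, m3⟩))
  · by_cases hb : β ≤ 2 * B
    · have m1 : Z ∈ FN (N + 1) ((Y + 1) ^ (2 * (2 * B).factorial) - 1) :=
        mem_FN.2 ⟨⟨by omega, by omega⟩, third (by omega) hβ hb he q3⟩
      exact Or.inr (Or.inr (Or.inr (Or.inl ⟨mY, m1, mX'⟩)))
    · by_cases hc : γ ≤ 2 * B
      · have he' : (X + 1) ^ α = (Z + 1) ^ γ * (Y + 1) ^ β := by rw [he, mul_comm]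
        have m1 : Y ∈ FN (N + 1) ((Z + 1) ^ (2 * (2 * B).factorial) - 1) :=
          mem_FN.2 ⟨⟨by omega, by omega⟩, third (by omega) hγ hc he' q4⟩
        exact Or.inr (Or.inr (Or.inr (Or.inr (Or.inl ⟨mZ, m1, mX'⟩))))
      · have hα' : α ≤ B := by omega
        have hf := full (by omega) (by omega) (by omega) hα (by omega) (by omega) he
        have m1 : X + 1 ∈ S1 (N + 1) := by
          rw [S1, mem_filter, mem_Icc]
          exact ⟨⟨by omega, by omega⟩, by omega⟩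
        have m2 : Y + 1 ∈ FN (N + 1) (X + 1) := mem_FN.2 ⟨⟨by omega, by omega⟩, sY'⟩
        have m3 : Z + 1 ∈ FN (N + 1) (X + 1) := mem_FN.2 ⟨⟨by omega, by omega⟩, sZ'⟩
        exact Or.inr (Or.inr (Or.inr (Or.inr (Or.inr ⟨m1, m2, m3⟩))))

end Pool.Agent.MD50
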