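import Mathlib
import Pool.Agent.helper50.MD.Six

/-!
# The bound for one arrangement `(X, Y, Z)`
-/

set_option autoImplicit false

namespace Pool.Agent.MD50

open Finset

/-- the box `[2, N]³` -/
def box (N : ℕ) : Finset (ℕ × ℕ × ℕ) := Icc 2 N ×ˢ Icc 2 N ×ˢ Icc 2 N

theorem mem_box {N : ℕ} {t : ℕ × ℕ × ℕ} :
    t ∈ box N ↔ (2 ≤ t.1 ∧ t.1 ≤ N) ∧ (2 ≤ t.2.1 ∧ t.2.1 ≤ N) ∧ 2 ≤ t.2.2 ∧ t.2.2 ≤ N := by
  rw [box, mem_product, mem_product, mem_Icc, mem_Icc, mem_Icc]

/-- different isolated entries, first case -/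
def CaseG (N : ℕ) (t : ℕ × ℕ × ℕ) : Prop :=
  t.2.1 ∈ S1 (N + 1) ∧ t.1 + 1 ∈ FN (N + 1) (t.2.1 + 1) ∧ t.2.2 + 1 ∈ FN (N + 1) (t.2.1 + 1)

/-- different isolated entries, second case -/
def CaseH (N : ℕ) (t : ℕ × ℕ × ℕ) : Prop :=
  t.1 + 1 ∈ S1 (N + 1) ∧ t.2.1 ∈ FN (N + 1) t.1 ∧ t.2.2 ∈ FN (N + 1) t.1

/-- `x` isolated in the first relation and `y + 1` in the second -/
theorem mixed {N X Y Z : ℕ} (hX : 2 ≤ X) (hXN : X ≤ N) (hY : 2 ≤ Y) (hYN : Y ≤ N) (hZ : 2 ≤ Z) (hZN : Z ≤ N)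
    (hXY : X ≠ Y) (h1 : Rel X Y Z) (h2 : Rel (Y + 1) (X + 1) (Z + 1)) :
    CaseG N (X, Y, Z) ∨ CaseH N (X, Y, Z) := by
  have p1 := h1.pf (by omega) (by omega)
  have p2 := h2.pf (by omega) (by omega)
  have sY : Y.primeFactors ⊆ X.primeFactors := by rw [p1]; exact subset_union_left
  have sZ : Z.primeFactors ⊆ X.primeFactors := by rw [p1]; exact subset_union_right
  have sX' : (X + 1).primeFactors ⊆ (Y + 1).primeFactors := by rw [p2]; exact subset_union_left
  have sZ' : (Z + 1).primeFactors ⊆ (Y + 1).primeFactors := by rw [p2]; exact subset_union_right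
  have hcop : Nat.Coprime (rad Y) (rad (X + 1)) :=
    Nat.Coprime.of_dvd (rad_dvd_of_sub sY) (rad_dvd (X + 1)) (by simp)
  have d1 : ((rad Y : ℕ) : ℤ) ∣ (X : ℤ) - Y :=
    dvd_sub (Int.natCast_dvd_natCast.2 (rad_dvd_of_sub sY)) (Int.natCast_dvd_natCast.2 (rad_dvd Y))
  have d2 : ((rad (X + 1) : ℕ) : ℤ) ∣ (X : ℤ) - Y := by
    have := dvd_sub (Int.natCast_dvd_natCast.2 (rad_dvd (X + 1)))
      (Int.natCast_dvd_natCast.2 (rad_dvd_of_sub sX'))
    push_cast at this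
    rwa [add_sub_add_right_eq_sub] at this
  rcases dd hXN hYN hXY hcop d1 d2 with h | h
  · left
    have m1 : Y ∈ S1 (N + 1) := by
      rw [S1, mem_filter, mem_Icc]
      exact ⟨⟨by omega, by omega⟩, by omega⟩
    have m2 : X + 1 ∈ FN (N + 1) (Y + 1) := mem_FN.2 ⟨⟨by omega, by omega⟩, sX'⟩
    have m3 : Z + 1 ∈ FN (N + 1) (Y + 1) := mem_FN.2 ⟨⟨by omega, by omega⟩, sZ'⟩
    exact ⟨m1, m2, m3⟩
  · right
    have m1 : X + 1 ∈ S1 (N + 1) := by
      rw [S1, mem_filter, mem_Icc]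
      exact ⟨⟨by omega, by omega⟩, by omega⟩
    have m2 : Y ∈ FN (N + 1) X := mem_FN.2 ⟨⟨by omega, by omega⟩, sY⟩
    have m3 : Z ∈ FN (N + 1) X := mem_FN.2 ⟨⟨by omega, by omega⟩, sZ⟩
    exact ⟨m1, m2, m3⟩

theorem pow_sub_bd {N M y : ℕ} (hy : 2 ≤ y) (hM : 1 ≤ M) (hyN : y ≤ N + 1) :
    1 ≤ y ^ M - 1 ∧ y ^ M - 1 ≤ (N + 1) ^ (M + 2) := by
  have h1 : 2 ≤ y ^ M := by
    calc 2 ≤ y := hy
      _ = y ^ 1 := (pow_one y).symm
      _ ≤ y ^ M := Nat.pow_le_pow_right (by omega) hM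
  have h2 : y ^ M ≤ (N + 1) ^ M := Nat.pow_le_pow_left hyN M
  have h3 : (N + 1) ^ M ≤ (N + 1) ^ (M + 2) := Nat.pow_le_pow_right (by omega) (by omega)
  omega

theorem mul_bd {N M y z : ℕ} (hy : 1 ≤ y) (hz : 1 ≤ z) (hyN : y ≤ N + 1) (hzN : z ≤ N + 1) :
    1 ≤ y * z ∧ y * z ≤ (N + 1) ^ (M + 2) := by
  refine ⟨Nat.mul_pos hy hz, ?_⟩
  calc y * z ≤ (N + 1) * (N + 1) := Nat.mul_le_mul hyN hzN
    _ = (N + 1) ^ 2 := (pow_two _).symm
    _ ≤ (N + 1) ^ (M + 2) := Nat.pow_le_pow_right (by omega) (by omega)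

theorem one_bd {N M y : ℕ} (hy : 1 ≤ y) (hyN : y ≤ N + 1) :
    1 ≤ y ∧ y ≤ (N + 1) ^ (M + 2) := by
  refine ⟨hy, hyN.trans ?_⟩
  calc N + 1 = (N + 1) ^ 1 := (pow_one _).symm
    _ ≤ (N + 1) ^ (M + 2) := Nat.pow_le_pow_right (by omega) (by omega)

/-- the arrangement count: `P t` is any property which forces one of the eight cases -/
theorem arr (M : ℕ) (hM : 1 ≤ M) (ε : ℝ) (hε : 0 < ε) : ∃ C : ℝ, 0 < C ∧ ∀ (N : ℕ) (T : Finset (ℕ × ℕ × ℕ)),
    T ⊆ box N → (∀ t ∈ T, CaseA N M t ∨ CaseB N M t ∨ CaseC N t ∨ CaseD N M t ∨ CaseE N M t ∨ CaseF N t ∨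
      CaseG N t ∨ CaseH N t) → (T.card : ℝ) ≤ C * ((N + 1 : ℕ) : ℝ) ^ (1 / 2 + ε) := by
  classical
  obtain ⟨K1, hK1, hF⟩ := FN_le' (ε / 3) (by linarith) (M + 2)
  obtain ⟨K2, hK2, hS⟩ := S1_le (ε / 3) (by linarith)
  refine ⟨8 * (2 * K2 * K1 * K1), by positivity, fun N T hT hcase => ?_⟩
  set W : ℕ := N + 1 with hW
  have hW1 : 1 ≤ W := by omega
  have hWr : (1 : ℝ) ≤ W := by exact_mod_cast hW1
  set a : ℝ := K1 * (W : ℝ) ^ (ε / 3) with ha
  have ha0 : 0 ≤ a := by positivity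
  set s : ℝ := 2 * (K2 * (W : ℝ) ^ (1 / 2 + ε / 3)) with hs
  have hs0 : 0 ≤ s := by positivity
  have hS1 : ((S1 W).card : ℝ) ≤ s := by
    have := hS W hW1
    have h0 : 0 ≤ K2 * (W : ℝ) ^ (1 / 2 + ε / 3) := by positivity
    linarith
  have hSS : ((SS W).card : ℝ) ≤ s := by
    have h1 : ((SS W).card : ℝ) ≤ 2 * ((S1 W).card : ℝ) := by exact_mod_cast SS_card W
    have := hS W hW1
    linarith
  -- one case
  have one : ∀ (Q : ℕ × ℕ × ℕ → Prop) (f g h : ℕ × ℕ × ℕ → ℕ) (S : Finset ℕ) (A : ℕ → Finset ℕ)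
      (F : ℕ → ℕ → Finset ℕ), (S.card : ℝ) ≤ s →
      (∀ t ∈ T, Q t → ((A (f t)).card : ℝ) ≤ a) →
      (∀ t ∈ T, Q t → ((F (f t) (g t)).card : ℝ) ≤ a) →
      (∀ t t' : ℕ × ℕ × ℕ, f t = f t' → g t = g t' → h t = h t' → t = t') →
      (∀ t ∈ T, Q t → f t ∈ S ∧ g t ∈ A (f t) ∧ h t ∈ F (f t) (g t)) →
      ((T.filter Q).card : ℝ) ≤ s * a * a := by
    intro Q f g h S A F hSc hA hFc hinj hmem
    have key := cnt (T := T.filter Q) f g h (S.filter fun x => ∃ t ∈ T, Q t ∧ f t = x) A F a a ha0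
      (by
        intro x hx
        rw [mem_filter] at hx
        obtain ⟨-, t, ht, hq, rfl⟩ := hx
        exact hA t ht hq)
      (by
        intro t ht
        rw [mem_filter] at ht
        exact hFc t ht.1 ht.2)
      (fun t _ t' _ h1 h2 h3 => hinj t t' h1 h2 h3)
      (by
        intro t ht
        rw [mem_filter] at ht ⊢
        exact ⟨(hmem t ht.1 ht.2).1, t, ht.1, ht.2, rfl⟩)
      (by
        intro t ht
        rw [mem_filter] at ht
        exact (hmem t ht.1 ht.2).2.1)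
      (by
        intro t ht
        rw [mem_filter] at ht
        exact (hmem t ht.1 ht.2).2.2)
    refine key.trans ?_
    have h1 : ((S.filter fun x => ∃ t ∈ T, Q t ∧ f t = x).card : ℝ) ≤ s :=
      le_trans (by exact_mod_cast Finset.card_le_card (Finset.filter_subset _ _)) hSc
    exact mul_le_mul_of_nonneg_right (mul_le_mul_of_nonneg_right h1 ha0) ha0
  have bx : ∀ t ∈ T, (2 ≤ t.1 ∧ t.1 ≤ N) ∧ (2 ≤ t.2.1 ∧ t.2.1 ≤ N) ∧ 2 ≤ t.2.2 ∧ t.2.2 ≤ N :=
    fun t ht => mem_box.1 (hT ht)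
  have hFN : ∀ m : ℕ, (1 ≤ m ∧ m ≤ (N + 1) ^ (M + 2)) → ((FN W m).card : ℝ) ≤ a :=
    fun m hm => hF W m hW1 hm.1 hm.2
  have cA : ((T.filter fun t => CaseA N M t).card : ℝ) ≤ s * a * a := by
    refine one _ (fun t => t.2.1) (fun t => t.2.2 + 1) (fun t => t.1) (SS W) (fun y => FN W (y ^ M - 1))
      (fun y z => FN W (y * (z - 1))) hSS ?_ ?_ ?_ ?_
    · intro t ht _
      obtain ⟨-, h2, -⟩ := bx t ht
      exact hFN _ (pow_sub_bd h2.1 hM (by omega))
    · intro t ht _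
      obtain ⟨-, h2, h3⟩ := bx t ht
      exact hFN _ (mul_bd (by omega) (by omega) (by omega) (by omega))
    · rintro ⟨x, y, z⟩ ⟨x', y', z'⟩ e1 e2 e3
      simp only at e1 e2 e3
      have e4 : z = z' := by omega
      rw [e1, e3, e4]
    · intro t _ hq
      exact hq
  have cB : ((T.filter fun t => CaseB N M t).card : ℝ) ≤ s * a * a := by
    refine one _ (fun t => t.2.2) (fun t => t.2.1 + 1) (fun t => t.1) (SS W) (fun y => FN W (y ^ M - 1))
      (fun z y => FN W ((y - 1) * z)) hSS ?_ ?_ ?_ ?_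
    · intro t ht _
      obtain ⟨-, -, h3⟩ := bx t ht
      exact hFN _ (pow_sub_bd h3.1 hM (by omega))
    · intro t ht _
      obtain ⟨-, h2, h3⟩ := bx t ht
      exact hFN _ (mul_bd (by omega) (by omega) (by omega) (by omega))
    · rintro ⟨x, y, z⟩ ⟨x', y', z'⟩ e1 e2 e3
      simp only at e1 e2 e3
      have e4 : y = y' := by omega
      rw [e1, e3, e4]
    · intro t _ hq
      exact hq
  have cC : ((T.filter fun t => CaseC N t).card : ℝ) ≤ s * a * a := by
    refine one _ (fun t => t.1) (fun t => t.2.1) (fun t => t.2.2) (S1 W) (fun x => FN W x)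
      (fun x _ => FN W x) hS1 ?_ ?_ ?_ ?_
    · intro t ht _
      obtain ⟨h1, -, -⟩ := bx t ht
      exact hFN _ (one_bd (by omega) (by omega))
    · intro t ht _
      obtain ⟨h1, -, -⟩ := bx t ht
      exact hFN _ (one_bd (by omega) (by omega))
    · rintro ⟨x, y, z⟩ ⟨x', y', z'⟩ e1 e2 e3
      simp only at e1 e2 e3
      rw [e1, e3, e2]
    · intro t _ hq
      exact hq
  have cD : ((T.filter fun t => CaseD N M t).card : ℝ) ≤ s * a * a := by
    refine one _ (fun t => t.2.1) (fun t => t.2.2) (fun t => t.1 + 1) (SS W)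
      (fun y => FN W ((y + 1) ^ M - 1)) (fun y z => FN W ((y + 1) * (z + 1))) hSS ?_ ?_ ?_ ?_
    · intro t ht _
      obtain ⟨-, h2, -⟩ := bx t ht
      exact hFN _ (pow_sub_bd (by omega) hM (by omega))
    · intro t ht _
      obtain ⟨-, h2, h3⟩ := bx t ht
      exact hFN _ (mul_bd (by omega) (by omega) (by omega) (by omega))
    · rintro ⟨x, y, z⟩ ⟨x', y', z'⟩ e1 e2 e3
      simp only at e1 e2 e3
      have e4 : x = x' := by omega
      rw [e1, e2, e4]
    · intro t _ hq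
      exact hq
  have cE : ((T.filter fun t => CaseE N M t).card : ℝ) ≤ s * a * a := by
    refine one _ (fun t => t.2.2) (fun t => t.2.1) (fun t => t.1 + 1) (SS W)
      (fun y => FN W ((y + 1) ^ M - 1)) (fun z y => FN W ((y + 1) * (z + 1))) hSS ?_ ?_ ?_ ?_
    · intro t ht _
      obtain ⟨-, -, h3⟩ := bx t ht
      exact hFN _ (pow_sub_bd (by omega) hM (by omega))
    · intro t ht _
      obtain ⟨-, h2, h3⟩ := bx t ht
      exact hFN _ (mul_bd (by omega) (by omega) (by omega) (by omega))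
    · rintro ⟨x, y, z⟩ ⟨x', y', z'⟩ e1 e2 e3
      simp only at e1 e2 e3
      have e4 : x = x' := by omega
      rw [e1, e2, e4]
    · intro t _ hq
      exact hq
  have cF : ((T.filter fun t => CaseF N t).card : ℝ) ≤ s * a * a := by
    refine one _ (fun t => t.1 + 1) (fun t => t.2.1 + 1) (fun t => t.2.2 + 1) (S1 W) (fun x => FN W x)
      (fun x _ => FN W x) hS1 ?_ ?_ ?_ ?_
    · intro t ht _
      obtain ⟨h1, -, -⟩ := bx t ht
      exact hFN _ (one_bd (by omega) (by omega))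
    · intro t ht _
      obtain ⟨h1, -, -⟩ := bx t ht
      exact hFN _ (one_bd (by omega) (by omega))
    · rintro ⟨x, y, z⟩ ⟨x', y', z'⟩ e1 e2 e3
      simp only at e1 e2 e3
      have e4 : x = x' := by omega
      have e5 : y = y' := by omega
      have e6 : z = z' := by omega
      rw [e4, e5, e6]
    · intro t _ hq
      exact hq
  have cG : ((T.filter fun t => CaseG N t).card : ℝ) ≤ s * a * a := by
    refine one _ (fun t => t.2.1) (fun t => t.1 + 1) (fun t => t.2.2 + 1) (S1 W) (fun x => FN W (x + 1))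
      (fun x _ => FN W (x + 1)) hS1 ?_ ?_ ?_ ?_
    · intro t ht _
      obtain ⟨-, h2, -⟩ := bx t ht
      exact hFN _ (one_bd (by omega) (by omega))
    · intro t ht _
      obtain ⟨-, h2, -⟩ := bx t ht
      exact hFN _ (one_bd (by omega) (by omega))
    · rintro ⟨x, y, z⟩ ⟨x', y', z'⟩ e1 e2 e3
      simp only at e1 e2 e3
      have e4 : x = x' := by omega
      have e6 : z = z' := by omega
      rw [e4, e1, e6]
    · intro t _ hq
      exact hq
  have cH : ((T.filter fun t => CaseH N t).card : ℝ) ≤ s * a * a := by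
    refine one _ (fun t => t.1 + 1) (fun t => t.2.1) (fun t => t.2.2) (S1 W) (fun x => FN W (x - 1))
      (fun x _ => FN W (x - 1)) hS1 ?_ ?_ ?_ ?_
    · intro t ht _
      obtain ⟨h1, -, -⟩ := bx t ht
      exact hFN _ (one_bd (by omega) (by omega))
    · intro t ht _
      obtain ⟨h1, -, -⟩ := bx t ht
      exact hFN _ (one_bd (by omega) (by omega))
    · rintro ⟨x, y, z⟩ ⟨x', y', z'⟩ e1 e2 e3
      simp only at e1 e2 e3
      have e4 : x = x' := by omega
      rw [e4, e2, e3]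
    · intro t _ hq
      exact hq
  have hsub : T ⊆ (T.filter fun t => CaseA N M t) ∪ (T.filter fun t => CaseB N M t) ∪
      (T.filter fun t => CaseC N t) ∪ (T.filter fun t => CaseD N M t) ∪ (T.filter fun t => CaseE N M t) ∪
      (T.filter fun t => CaseF N t) ∪ (T.filter fun t => CaseG N t) ∪ (T.filter fun t => CaseH N t) := by
    intro t ht
    simp only [mem_union, mem_filter, ht, true_and]
    rcases hcase t ht with h | h | h | h | h | h | h | h
    · exact Or.inl (Or.inl (Or.inl (Or.inl (Or.inl (Or.inl (Or.inl h))))))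
    · exact Or.inl (Or.inl (Or.inl (Or.inl (Or.inl (Or.inl (Or.inr h))))))
    · exact Or.inl (Or.inl (Or.inl (Or.inl (Or.inl (Or.inr h)))))
    · exact Or.inl (Or.inl (Or.inl (Or.inl (Or.inr h))))
    · exact Or.inl (Or.inl (Or.inl (Or.inr h)))
    · exact Or.inl (Or.inl (Or.inr h))
    · exact Or.inl (Or.inr h)
    · exact Or.inr h
  have hnat : T.card ≤ (T.filter fun t => CaseA N M t).card + (T.filter fun t => CaseB N M t).card +
      (T.filter fun t => CaseC N t).card + (T.filter fun t => CaseD N M t).card +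
      (T.filter fun t => CaseE N M t).card + (T.filter fun t => CaseF N t).card +
      (T.filter fun t => CaseG N t).card + (T.filter fun t => CaseH N t).card := by
    refine (Finset.card_le_card hsub).trans ?_
    refine (Finset.card_union_le _ _).trans (Nat.add_le_add_right ?_ _)
    refine (Finset.card_union_le _ _).trans (Nat.add_le_add_right ?_ _)
    refine (Finset.card_union_le _ _).trans (Nat.add_le_add_right ?_ _)
    refine (Finset.card_union_le _ _).trans (Nat.add_le_add_right ?_ _)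
    refine (Finset.card_union_le _ _).trans (Nat.add_le_add_right ?_ _)
    refine (Finset.card_union_le _ _).trans (Nat.add_le_add_right ?_ _)
    exact Finset.card_union_le _ _
  have hreal : (T.card : ℝ) ≤ ((T.filter fun t => CaseA N M t).card : ℝ) + ((T.filter fun t => CaseB N M t).card : ℝ) +
      ((T.filter fun t => CaseC N t).card : ℝ) + ((T.filter fun t => CaseD N M t).card : ℝ) +
      ((T.filter fun t => CaseE N M t).card : ℝ) + ((T.filter fun t => CaseF N t).card : ℝ) +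
      ((T.filter fun t => CaseG N t).card : ℝ) + ((T.filter fun t => CaseH N t).card : ℝ) := by
    exact_mod_cast hnat
  have hfin : (T.card : ℝ) ≤ 8 * (s * a * a) := by linarith
  refine hfin.trans (le_of_eq ?_)
  have hpos : (0 : ℝ) < W := by linarith
  have hexp : (W : ℝ) ^ (1 / 2 + ε) = (W : ℝ) ^ (1 / 2 + ε / 3) * (W : ℝ) ^ (ε / 3) * (W : ℝ) ^ (ε / 3) := by
    rw [← Real.rpow_add hpos, ← Real.rpow_add hpos]
    congr 1
    ring
  rw [hs, ha, hexp]
  ring

end Pool.Agent.MD50
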