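import Mathlib
import Pool.Agent.helper50.MD.Bound

/-!
# From integer exponents to relations with positive exponents
-/

set_option autoImplicit false

namespace Pool.Agent.MD50

theorem one_le_natAbs {r : ℤ} (h : r ≠ 0) : 1 ≤ r.natAbs := Int.natAbs_pos.2 h

theorem g1 {A B C : ℚ} (hB : B ≠ 0) (hC : C ≠ 0) (h : A * B⁻¹ * C⁻¹ = 1) : A = B * C := by
  field_simp at h
  linarith

theorem g2 {A B C : ℚ} (hA : A ≠ 0) (h : A⁻¹ * B * C = 1) : A = B * C := by
  field_simp at h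
  linarith

theorem g3 {A B C : ℚ} (hB : B ≠ 0) (h : A * B⁻¹ * C = 1) : B = A * C := by
  field_simp at h
  linarith

theorem g4 {A B C : ℚ} (hA : A ≠ 0) (hC : C ≠ 0) (h : A⁻¹ * B * C⁻¹ = 1) : B = A * C := by
  field_simp at h
  linarith

theorem g5 {A B C : ℚ} (hC : C ≠ 0) (h : A * B * C⁻¹ = 1) : C = A * B := by
  field_simp at h
  linarith

theorem g6 {A B C : ℚ} (hA : A ≠ 0) (hB : B ≠ 0) (h : A⁻¹ * B⁻¹ * C = 1) : C = A * B := by
  field_simp at h
  linarith

/-- the three possibilities for the signs -/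
theorem signs {a b c : ℕ} (ha : 2 ≤ a) (hb : 2 ≤ b) (hc : 2 ≤ c) {r s t : ℤ} (hr : r ≠ 0) (hs : s ≠ 0)
    (ht : t ≠ 0) (h : (a : ℚ) ^ r * (b : ℚ) ^ s * (c : ℚ) ^ t = 1) :
    a ^ r.natAbs = b ^ s.natAbs * c ^ t.natAbs ∨ b ^ s.natAbs = a ^ r.natAbs * c ^ t.natAbs ∨
      c ^ t.natAbs = a ^ r.natAbs * b ^ s.natAbs := by
  obtain ⟨m, hm⟩ := Int.eq_nat_or_neg r
  obtain ⟨n, hn⟩ := Int.eq_nat_or_neg s
  obtain ⟨k, hk⟩ := Int.eq_nat_or_neg t
  have hm1 : r.natAbs = m := by rcases hm with rfl | rfl <;> simp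
  have hn1 : s.natAbs = n := by rcases hn with rfl | rfl <;> simp
  have hk1 : t.natAbs = k := by rcases hk with rfl | rfl <;> simp
  rw [hm1, hn1, hk1]
  have hm0 : m ≠ 0 := by rw [← hm1]; exact Int.natAbs_ne_zero.2 hr
  have hn0 : n ≠ 0 := by rw [← hn1]; exact Int.natAbs_ne_zero.2 hs
  have hk0 : k ≠ 0 := by rw [← hk1]; exact Int.natAbs_ne_zero.2 ht
  have ga : 2 ≤ a ^ m := by
    calc 2 ≤ a := ha
      _ = a ^ 1 := (pow_one a).symm
      _ ≤ a ^ m := Nat.pow_le_pow_right (by omega) (by omega)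
  have gb : 2 ≤ b ^ n := by
    calc 2 ≤ b := hb
      _ = b ^ 1 := (pow_one b).symm
      _ ≤ b ^ n := Nat.pow_le_pow_right (by omega) (by omega)
  have gc : 2 ≤ c ^ k := by
    calc 2 ≤ c := hc
      _ = c ^ 1 := (pow_one c).symm
      _ ≤ c ^ k := Nat.pow_le_pow_right (by omega) (by omega)
  have za : ((a : ℚ) ^ m) ≠ 0 := by
    have : (0 : ℚ) < (a : ℚ) ^ m := by positivity
    exact this.ne'
  have zb : ((b : ℚ) ^ n) ≠ 0 := by
    have : (0 : ℚ) < (b : ℚ) ^ n := by positivity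
    exact this.ne'
  have zc : ((c : ℚ) ^ k) ≠ 0 := by
    have : (0 : ℚ) < (c : ℚ) ^ k := by positivity
    exact this.ne'
  have npos : a ^ m * b ^ n * c ^ k ≠ 1 := by
    intro h1
    nlinarith [Nat.mul_le_mul ga gb, Nat.mul_le_mul (Nat.mul_le_mul ga gb) gc]
  rcases hm with rfl | rfl <;> rcases hn with rfl | rfl <;> rcases hk with rfl | rfl <;>
    simp only [zpow_neg, zpow_natCast] at h
  · exfalso
    apply npos
    exact_mod_cast h
  · right; right
    exact_mod_cast g5 zc h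
  · right; left
    exact_mod_cast g3 zb h
  · left
    exact_mod_cast g1 zb zc h
  · left
    exact_mod_cast g2 za h
  · right; left
    exact_mod_cast g4 za zc h
  · right; right
    exact_mod_cast g6 za zb h
  · exfalso
    apply npos
    have h1 : ((a : ℚ) ^ m * (b : ℚ) ^ n * (c : ℚ) ^ k)⁻¹ = 1 := by
      rw [mul_inv, mul_inv]
      exact h
    rw [inv_eq_one] at h1
    exact_mod_cast h1

end Pool.Agent.MD50
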