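import Mathlib
import Pool.Agent.helper50.MD.Sign

/-!
# The bound for all arrangements
-/

set_option autoImplicit false

namespace Pool.Agent.MD50

open Finset

/-- the arrangements counted -/
def Good (B : ℕ) (t : ℕ × ℕ × ℕ) : Prop :=
  t.1 ≠ t.2.1 ∧ t.1 ≠ t.2.2 ∧ Rel t.1 t.2.1 t.2.2 ∧
    ((Rel (t.1 + 1) (t.2.1 + 1) (t.2.2 + 1) ∧
      (SRel B t.1 t.2.1 t.2.2 ∨ SRel B (t.1 + 1) (t.2.1 + 1) (t.2.2 + 1))) ∨
      Rel (t.2.1 + 1) (t.1 + 1) (t.2.2 + 1))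

theorem good_cases {N B : ℕ} {t : ℕ × ℕ × ℕ} (ht : t ∈ box N) (hg : Good B t) :
    CaseA N (2 * (2 * B).factorial) t ∨ CaseB N (2 * (2 * B).factorial) t ∨ CaseC N t ∨
      CaseD N (2 * (2 * B).factorial) t ∨ CaseE N (2 * (2 * B).factorial) t ∨ CaseF N t ∨
      CaseG N t ∨ CaseH N t := by
  obtain ⟨X, Y, Z⟩ := t
  obtain ⟨⟨hX, hXN⟩, ⟨hY, hYN⟩, hZ, hZN⟩ := mem_box.1 ht
  obtain ⟨h1, h2, h3, h4⟩ := hg
  simp only at hX hXN hY hYN hZ hZN h1 h2 h3 h4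
  rcases h4 with ⟨h5, h6⟩ | h5
  · rcases six hX hXN hY hYN hZ hZN h1 h2 h3 h5 h6 with h | h | h | h | h | h
    · exact Or.inl h
    · exact Or.inr (Or.inl h)
    · exact Or.inr (Or.inr (Or.inl h))
    · exact Or.inr (Or.inr (Or.inr (Or.inl h)))
    · exact Or.inr (Or.inr (Or.inr (Or.inr (Or.inl h))))
    · exact Or.inr (Or.inr (Or.inr (Or.inr (Or.inr (Or.inl h)))))
  · rcases mixed hX hXN hY hYN hZ hZN h1 h3 h5 with h | h
    · exact Or.inr (Or.inr (Or.inr (Or.inr (Or.inr (Or.inr (Or.inl h))))))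
    · exact Or.inr (Or.inr (Or.inr (Or.inr (Or.inr (Or.inr (Or.inr h))))))

/-- three arrangements of a relation -/
def R3 (a b c : ℕ) : Prop := Rel a b c ∨ Rel b a c ∨ Rel c a b

/-- three arrangements of a relation with a small exponent -/
def S3 (B a b c : ℕ) : Prop := SRel B a b c ∨ SRel B b a c ∨ SRel B c a b

/-- the six permutations -/
def AnyGood (B a b c : ℕ) : Prop :=
  Good B (a, b, c) ∨ Good B (a, c, b) ∨ Good B (b, a, c) ∨ Good B (b, c, a) ∨ Good B (c, a, b) ∨ Good B (c, b, a)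

theorem arrange1 {B a b c : ℕ} (hab : a ≠ b) (hac : a ≠ c) (hbc : b ≠ c) (h1 : S3 B a b c)
    (h2 : R3 (a + 1) (b + 1) (c + 1)) : AnyGood B a b c := by
  rcases h1 with h1 | h1 | h1 <;> rcases h2 with h2 | h2 | h2
  · exact Or.inl ⟨hab, hac, h1.rel, Or.inl ⟨h2, Or.inl h1⟩⟩
  · exact Or.inl ⟨hab, hac, h1.rel, Or.inr h2⟩
  · exact Or.inr (Or.inl ⟨hac, hab, h1.rel.symm, Or.inr h2⟩)
  · exact Or.inr (Or.inr (Or.inl ⟨hab.symm, hbc, h1.rel, Or.inr h2⟩))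
  · exact Or.inr (Or.inr (Or.inl ⟨hab.symm, hbc, h1.rel, Or.inl ⟨h2, Or.inl h1⟩⟩))
  · exact Or.inr (Or.inr (Or.inr (Or.inl ⟨hbc, hab.symm, h1.rel.symm, Or.inr h2.symm⟩)))
  · exact Or.inr (Or.inr (Or.inr (Or.inr (Or.inl ⟨hac.symm, hbc.symm, h1.rel, Or.inr h2.symm⟩))))
  · exact Or.inr (Or.inr (Or.inr (Or.inr (Or.inr ⟨hbc.symm, hac.symm, h1.rel.symm, Or.inr h2.symm⟩))))
  · exact Or.inr (Or.inr (Or.inr (Or.inr (Or.inl ⟨hac.symm, hbc.symm, h1.rel, Or.inl ⟨h2, Or.inl h1⟩⟩))))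

theorem arrange2 {B a b c : ℕ} (hab : a ≠ b) (hac : a ≠ c) (hbc : b ≠ c) (h1 : R3 a b c)
    (h2 : S3 B (a + 1) (b + 1) (c + 1)) : AnyGood B a b c := by
  rcases h1 with h1 | h1 | h1 <;> rcases h2 with h2 | h2 | h2
  · exact Or.inl ⟨hab, hac, h1, Or.inl ⟨h2.rel, Or.inr h2⟩⟩
  · exact Or.inl ⟨hab, hac, h1, Or.inr h2.rel⟩
  · exact Or.inr (Or.inl ⟨hac, hab, h1.symm, Or.inr h2.rel⟩)
  · exact Or.inr (Or.inr (Or.inl ⟨hab.symm, hbc, h1, Or.inr h2.rel⟩))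
  · exact Or.inr (Or.inr (Or.inl ⟨hab.symm, hbc, h1, Or.inl ⟨h2.rel, Or.inr h2⟩⟩))
  · exact Or.inr (Or.inr (Or.inr (Or.inl ⟨hbc, hab.symm, h1.symm, Or.inr h2.rel.symm⟩)))
  · exact Or.inr (Or.inr (Or.inr (Or.inr (Or.inl ⟨hac.symm, hbc.symm, h1, Or.inr h2.rel.symm⟩))))
  · exact Or.inr (Or.inr (Or.inr (Or.inr (Or.inr ⟨hbc.symm, hac.symm, h1.symm, Or.inr h2.rel.symm⟩))))
  · exact Or.inr (Or.inr (Or.inr (Or.inr (Or.inl ⟨hac.symm, hbc.symm, h1, Or.inl ⟨h2.rel, Or.inr h2⟩⟩))))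

/-- **The count.** -/
theorem count (B : ℕ) (ε : ℝ) (hε : 0 < ε) : ∃ C : ℝ, 0 < C ∧ ∀ (N : ℕ) (T : Finset (ℕ × ℕ × ℕ)),
    T ⊆ box N → (∀ t ∈ T, AnyGood B t.1 t.2.1 t.2.2) → (T.card : ℝ) ≤ C * (N : ℝ) ^ (1 / 2 + ε) := by
  classical
  have hM : 1 ≤ 2 * (2 * B).factorial := by have := Nat.factorial_pos (2 * B); omega
  obtain ⟨C, hC, h⟩ := arr (2 * (2 * B).factorial) hM ε hε
  refine ⟨6 * (C * (2 : ℝ) ^ (1 / 2 + ε)), by positivity, fun N T hT hg => ?_⟩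
  rcases Nat.eq_zero_or_pos N with rfl | hN
  · have h0 : T = ∅ := by
      rw [← Finset.subset_empty]
      intro t ht
      have := (mem_box.1 (hT ht)).1
      omega
    rw [h0]
    simp only [Finset.card_empty, Nat.cast_zero]
    positivity
  set U : Finset (ℕ × ℕ × ℕ) := (box N).filter fun t => Good B t with hU
  have hUc : (U.card : ℝ) ≤ C * ((N + 1 : ℕ) : ℝ) ^ (1 / 2 + ε) := by
    refine h N U (Finset.filter_subset _ _) ?_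
    intro t ht
    rw [hU, mem_filter] at ht
    exact good_cases ht.1 ht.2
  have hsub : T ⊆ U.image (fun t => (t.1, t.2.1, t.2.2)) ∪ U.image (fun t => (t.1, t.2.2, t.2.1)) ∪
      U.image (fun t => (t.2.1, t.1, t.2.2)) ∪ U.image (fun t => (t.2.2, t.1, t.2.1)) ∪
      U.image (fun t => (t.2.1, t.2.2, t.1)) ∪ U.image (fun t => (t.2.2, t.2.1, t.1)) := by
    rintro ⟨a, b, c⟩ ht
    obtain ⟨ha, hb, hc⟩ := mem_box.1 (hT ht)
    simp only at ha hb hc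
    have hg' := hg _ ht
    simp only [mem_union, mem_image]
    rcases hg' with h | h | h | h | h | h
    · exact Or.inl (Or.inl (Or.inl (Or.inl (Or.inl ⟨(a, b, c), mem_filter.2 ⟨mem_box.2 ⟨ha, hb, hc⟩, h⟩, rfl⟩))))
    · exact Or.inl (Or.inl (Or.inl (Or.inl (Or.inr ⟨(a, c, b), mem_filter.2 ⟨mem_box.2 ⟨ha, hc, hb⟩, h⟩, rfl⟩))))
    · exact Or.inl (Or.inl (Or.inl (Or.inr ⟨(b, a, c), mem_filter.2 ⟨mem_box.2 ⟨hb, ha, hc⟩, h⟩, rfl⟩)))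
    · exact Or.inl (Or.inl (Or.inr ⟨(b, c, a), mem_filter.2 ⟨mem_box.2 ⟨hb, hc, ha⟩, h⟩, rfl⟩))
    · exact Or.inl (Or.inr ⟨(c, a, b), mem_filter.2 ⟨mem_box.2 ⟨hc, ha, hb⟩, h⟩, rfl⟩)
    · exact Or.inr ⟨(c, b, a), mem_filter.2 ⟨mem_box.2 ⟨hc, hb, ha⟩, h⟩, rfl⟩
  have hnat : T.card ≤ 6 * U.card := by
    refine (Finset.card_le_card hsub).trans ?_
    have e : ∀ f : ℕ × ℕ × ℕ → ℕ × ℕ × ℕ, (U.image f).card ≤ U.card := fun f => Finset.card_image_le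
    have e1 := e (fun t => (t.1, t.2.1, t.2.2))
    have e2 := e (fun t => (t.1, t.2.2, t.2.1))
    have e3 := e (fun t => (t.2.1, t.1, t.2.2))
    have e4 := e (fun t => (t.2.2, t.1, t.2.1))
    have e5 := e (fun t => (t.2.1, t.2.2, t.1))
    have e6 := e (fun t => (t.2.2, t.2.1, t.1))
    refine (Finset.card_union_le _ _).trans ?_
    have f5 := Finset.card_union_le (U.image (fun t => (t.1, t.2.1, t.2.2)) ∪ U.image (fun t => (t.1, t.2.2, t.2.1)) ∪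
      U.image (fun t => (t.2.1, t.1, t.2.2)) ∪ U.image (fun t => (t.2.2, t.1, t.2.1))) (U.image (fun t => (t.2.1, t.2.2, t.1)))
    have f4 := Finset.card_union_le (U.image (fun t => (t.1, t.2.1, t.2.2)) ∪ U.image (fun t => (t.1, t.2.2, t.2.1)) ∪
      U.image (fun t => (t.2.1, t.1, t.2.2))) (U.image (fun t => (t.2.2, t.1, t.2.1)))
    have f3 := Finset.card_union_le (U.image (fun t => (t.1, t.2.1, t.2.2)) ∪ U.image (fun t => (t.1, t.2.2, t.2.1)))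
      (U.image (fun t => (t.2.1, t.1, t.2.2)))
    have f2 := Finset.card_union_le (U.image (fun t => (t.1, t.2.1, t.2.2))) (U.image (fun t => (t.1, t.2.2, t.2.1)))
    omega
  have hreal : (T.card : ℝ) ≤ 6 * (U.card : ℝ) := by exact_mod_cast hnat
  have hpow : ((N + 1 : ℕ) : ℝ) ^ (1 / 2 + ε) ≤ (2 : ℝ) ^ (1 / 2 + ε) * (N : ℝ) ^ (1 / 2 + ε) := by
    rw [← Real.mul_rpow (by norm_num) (Nat.cast_nonneg N)]
    refine Real.rpow_le_rpow (Nat.cast_nonneg _) ?_ (by positivity)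
    have : (1 : ℝ) ≤ N := by exact_mod_cast hN
    push_cast
    linarith
  calc (T.card : ℝ) ≤ 6 * (U.card : ℝ) := hreal
    _ ≤ 6 * (C * ((N + 1 : ℕ) : ℝ) ^ (1 / 2 + ε)) := by linarith
    _ ≤ 6 * (C * ((2 : ℝ) ^ (1 / 2 + ε) * (N : ℝ) ^ (1 / 2 + ε))) := by
        have := mul_le_mul_of_nonneg_left hpow hC.le
        linarith
    _ = 6 * (C * (2 : ℝ) ^ (1 / 2 + ε)) * (N : ℝ) ^ (1 / 2 + ε) := by ring

end Pool.Agent.MD50
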