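import Mathlib
import Pool.Agent.helper50.MD.Final

/-!
# Relations with large exponents
-/

set_option autoImplicit false

namespace Pool.Agent.MD50

open Finset

/-- the primitive relation -/
theorem prim {x y z : ℕ} (h : Rel x y z) : ∃ α β γ : ℕ, 1 ≤ α ∧ 1 ≤ β ∧ 1 ≤ γ ∧
    Nat.gcd α (Nat.gcd β γ) = 1 ∧ x ^ α = y ^ β * z ^ γ := by
  obtain ⟨α, β, γ, h1, h2, h3, h4⟩ := h
  set g := Nat.gcd α (Nat.gcd β γ) with hg
  have hg0 : 0 < g := Nat.gcd_pos_of_pos_left _ (by omega)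
  obtain ⟨α', hα⟩ : g ∣ α := Nat.gcd_dvd_left _ _
  obtain ⟨β', hβ⟩ : g ∣ β := (Nat.gcd_dvd_right _ _).trans (Nat.gcd_dvd_left _ _)
  obtain ⟨γ', hγ⟩ : g ∣ γ := (Nat.gcd_dvd_right _ _).trans (Nat.gcd_dvd_right _ _)
  have p1 : 1 ≤ α' := by
    rcases Nat.eq_zero_or_pos α' with h | h
    · rw [h, mul_zero] at hα; omega
    · exact h
  have p2 : 1 ≤ β' := by
    rcases Nat.eq_zero_or_pos β' with h | h
    · rw [h, mul_zero] at hβ; omega
    · exact h
  have p3 : 1 ≤ γ' := by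
    rcases Nat.eq_zero_or_pos γ' with h | h
    · rw [h, mul_zero] at hγ; omega
    · exact h
  refine ⟨α', β', γ', p1, p2, p3, ?_, ?_⟩
  · have h5 : g = g * Nat.gcd α' (Nat.gcd β' γ') := by
      rw [← Nat.gcd_mul_left, ← Nat.gcd_mul_left, ← hα, ← hβ, ← hγ]
    have h6 : g * 1 = g * Nat.gcd α' (Nat.gcd β' γ') := by rw [mul_one]; exact h5
    exact (Nat.eq_of_mul_eq_mul_left hg0 h6).symm
  · have h5 : (x ^ α') ^ g = (y ^ β' * z ^ γ') ^ g := by
      rw [mul_pow, ← pow_mul, ← pow_mul, ← pow_mul, mul_comm α', mul_comm β', mul_comm γ', ← hα, ← hβ, ← hγ]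
      exact h4
    exact Nat.pow_left_injective (by omega : g ≠ 0) h5

/-- two small solutions are parallel -/
theorem parallel {α β γ K x y z x' y' z' : ℕ} (hg : Nat.gcd α (Nat.gcd β γ) = 1) (hα : K ^ 2 < α)
    (hy : y ≤ K) (hz : z ≤ K) (hy' : y' ≤ K) (hz' : z' ≤ K)
    (h : α * x = β * y + γ * z) (h' : α * x' = β * y' + γ * z') : x * y' = x' * y ∧ x * z' = x' * z := by
  have hz0 : (α : ℤ) * x = β * y + γ * z := by exact_mod_cast h
  have hz0' : (α : ℤ) * x' = β * y' + γ * z' := by exact_mod_cast h'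
  set D : ℤ := y * z' - y' * z with hD
  have e1 : (α : ℤ) * (x * y' - x' * y) = -(γ * D) := by
    rw [hD]
    linear_combination (y' : ℤ) * hz0 - (y : ℤ) * hz0'
  have e2 : (α : ℤ) * (x * z' - x' * z) = β * D := by
    rw [hD]
    linear_combination (z' : ℤ) * hz0 - (z : ℤ) * hz0'
  have d1 : α ∣ γ * D.natAbs := by
    have : (α : ℤ) ∣ γ * D := by
      rw [← dvd_neg, ← e1]
      exact dvd_mul_right _ _
    have h2 := Int.natCast_dvd.1 this
    rwa [Int.natAbs_mul, Int.natAbs_natCast] at h2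
  have d2 : α ∣ β * D.natAbs := by
    have : (α : ℤ) ∣ β * D := by
      rw [← e2]
      exact dvd_mul_right _ _
    have h2 := Int.natCast_dvd.1 this
    rwa [Int.natAbs_mul, Int.natAbs_natCast] at h2
  have d3 : α ∣ Nat.gcd β γ * D.natAbs := by
    rw [← Nat.gcd_mul_right]
    exact Nat.dvd_gcd d2 d1
  have d4 : α ∣ D.natAbs := Nat.Coprime.dvd_of_dvd_mul_left hg d3
  have hD1 : D.natAbs ≤ K ^ 2 := by
    have i1 : y * z' ≤ K ^ 2 := by rw [pow_two]; exact Nat.mul_le_mul hy hz'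
    have i2 : y' * z ≤ K ^ 2 := by rw [pow_two]; exact Nat.mul_le_mul hy' hz
    have j1 : ((y : ℤ) * z') ≤ ((K ^ 2 : ℕ) : ℤ) := by exact_mod_cast i1
    have j2 : ((y' : ℤ) * z) ≤ ((K ^ 2 : ℕ) : ℤ) := by exact_mod_cast i2
    have j3 : 0 ≤ (y : ℤ) * z' := by positivity
    have j4 : 0 ≤ (y' : ℤ) * z := by positivity
    omega
  have hD0 : D = 0 := by
    by_contra hne
    have := Nat.le_of_dvd (Int.natAbs_pos.2 hne) d4
    omega
  have hα0 : (α : ℤ) ≠ 0 := by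
    have : 0 < α := by omega
    exact_mod_cast this.ne'
  rw [hD0, mul_zero, neg_zero] at e1
  rw [hD0, mul_zero] at e2
  have f1 := (mul_eq_zero.1 e1).resolve_left hα0
  have f2 := (mul_eq_zero.1 e2).resolve_left hα0
  constructor
  · have : (x : ℤ) * y' = x' * y := by linarith
    exact_mod_cast this
  · have : (x : ℤ) * z' = x' * z := by linarith
    exact_mod_cast this

theorem val {x y z α β γ : ℕ} (hy : y ≠ 0) (hz : z ≠ 0) (h : x ^ α = y ^ β * z ^ γ) (p : ℕ) :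
    α * x.factorization p = β * y.factorization p + γ * z.factorization p := by
  have := congrArg (fun n => n.factorization p) h
  simpa [Nat.factorization_mul (pow_ne_zero β hy) (pow_ne_zero γ hz), Nat.factorization_pow] using this

/-- the possible products of primes with a large valuation -/
def RS (W K : ℕ) : Finset ℕ := (Icc 1 (W ^ 3)).filter fun R => R ^ (K + 1) ≤ W ^ 3

/-- integers with radical about the square root -/
def S2 (W K : ℕ) : Finset ℕ := (RS W K ×ˢ Icc 1 (Nat.sqrt W)).biUnion fun q => FN W (q.1 * q.2)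

/-- pairs of integers with few primes -/
def PQ (W K : ℕ) : Finset (ℕ × ℕ) := (RS W K).biUnion fun R => FN W R ×ˢ FN W R

/-- the prime product over a subset of the prime factors, to the power `k`, divides `n` if all
valuations are at least `k` -/
theorem prod_pow_dvd {n k : ℕ} (P : Finset ℕ) (hP : ∀ p ∈ P, p.Prime) (h : ∀ p ∈ P, p ^ k ∣ n) :
    (∏ p ∈ P, p) ^ k ∣ n := by
  rw [← Finset.prod_pow]
  refine Finset.prod_dvd_of_isRelPrime ?_ h
  intro p hp q hq hpq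
  have hcop : Nat.Coprime (p ^ k) (q ^ k) :=
    Nat.Coprime.pow k k ((Nat.coprime_primes (hP p hp) (hP q hq)).2 hpq)
  exact Nat.coprime_iff_isRelPrime.1 hcop

/-- first case of large exponents -/
def CaseL (N K : ℕ) (t : ℕ × ℕ × ℕ) : Prop :=
  t.1 ∈ S2 (N + 1) K ∧ t.2.1 ∈ FN (N + 1) t.1 ∧ t.2.2 ∈ FN (N + 1) t.1

/-- second case -/
def CaseP (N K : ℕ) (t : ℕ × ℕ × ℕ) : Prop :=
  ∃ q ∈ PQ (N + 1) K, 1 ≤ q.1 ∧ 1 ≤ q.2 ∧ q.1 ≤ N + 1 ∧ q.2 ≤ N + 1 ∧ q.1 ≠ q.2 ∧ t.1 * q.2 = t.2.1 * q.1 ∧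
    t.2.1 + 1 ∈ FN (N + 1) ((q.1 : ℤ) - q.2).natAbs ∧ t.2.2 ∈ FN (N + 1) t.1

/-- third case -/
def CaseQ (N K : ℕ) (t : ℕ × ℕ × ℕ) : Prop :=
  ∃ q ∈ PQ (N + 1) K, 1 ≤ q.1 ∧ 1 ≤ q.2 ∧ q.1 ≤ N + 1 ∧ q.2 ≤ N + 1 ∧ q.1 ≠ q.2 ∧ t.1 * q.2 = t.2.2 * q.1 ∧
    t.2.2 + 1 ∈ FN (N + 1) ((q.1 : ℤ) - q.2).natAbs ∧ t.2.1 ∈ FN (N + 1) t.1

/-- splitting off the primes with a large valuation: equal valuations at the other primes -/
theorem splitPQ {N K X Y : ℕ} (Pb Ps : Finset ℕ) (hX : 1 ≤ X) (hXN : X ≤ N) (hY : 1 ≤ Y) (hYN : Y ≤ N)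
    (hXY : X ≠ Y) (hdis : Disjoint Pb Ps) (hun : X.primeFactors = Pb ∪ Ps) (hsub : Y.primeFactors ⊆ X.primeFactors)
    (hsub' : (Y + 1).primeFactors ⊆ (X + 1).primeFactors) (hR : (∏ p ∈ Pb, p) ∈ RS (N + 1) K)
    (heq : ∀ p ∈ Ps, Y.factorization p = X.factorization p) :
    ∃ q ∈ PQ (N + 1) K, 1 ≤ q.1 ∧ 1 ≤ q.2 ∧ q.1 ≤ N + 1 ∧ q.2 ≤ N + 1 ∧ q.1 ≠ q.2 ∧ X * q.2 = Y * q.1 ∧
    Y + 1 ∈ FN (N + 1) ((q.1 : ℤ) - q.2).natAbs := by
  classical
  have hpr : ∀ p ∈ Pb, p.Prime := fun p hp =>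
    Nat.prime_of_mem_primeFactors (by rw [hun]; exact mem_union_left _ hp)
  have hprs : ∀ p ∈ Ps, p.Prime := fun p hp =>
    Nat.prime_of_mem_primeFactors (by rw [hun]; exact mem_union_right _ hp)
  set n : ℕ := ∏ p ∈ Ps, p ^ X.factorization p with hn
  set X2 : ℕ := ∏ p ∈ Pb, p ^ X.factorization p with hX2
  set Y2 : ℕ := ∏ p ∈ Pb, p ^ Y.factorization p with hY2
  have eX : X2 * n = X := by
    have := Nat.prod_factorization_pow_eq_self (n := X) (by omega)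
    rw [Finsupp.prod, Nat.support_factorization, hun, Finset.prod_union hdis] at this
    exact this
  have eY : Y2 * n = Y := by
    have h1 := Nat.prod_factorization_pow_eq_self (n := Y) (by omega)
    rw [Finsupp.prod, Nat.support_factorization] at h1
    have h2 : ∏ p ∈ Y.primeFactors, p ^ Y.factorization p = ∏ p ∈ X.primeFactors, p ^ Y.factorization p := by
      refine Finset.prod_subset hsub ?_
      intro p _ hp
      rw [← Nat.support_factorization, Finsupp.notMem_support_iff] at hp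
      rw [hp, pow_zero]
    rw [h2, hun, Finset.prod_union hdis] at h1
    have h3 : ∏ p ∈ Ps, p ^ Y.factorization p = n := by
      rw [hn]
      exact Finset.prod_congr rfl fun p hp => by rw [heq p hp]
    rw [h3] at h1
    exact h1
  have hn0 : 0 < n := Finset.prod_pos fun p hp => pow_pos (hprs p hp).pos _
  have hX20 : 0 < X2 := Finset.prod_pos fun p hp => pow_pos (hpr p hp).pos _
  have hY20 : 0 < Y2 := Finset.prod_pos fun p hp => pow_pos (hpr p hp).pos _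
  have hX2N : X2 ≤ N := (Nat.le_of_dvd (by omega) ⟨n, eX.symm⟩).trans hXN
  have hY2N : Y2 ≤ N := (Nat.le_of_dvd (by omega) ⟨n, eY.symm⟩).trans hYN
  have hne : X2 ≠ Y2 := by
    intro h
    apply hXY
    rw [← eX, ← eY, h]
  have pfR : (∏ p ∈ Pb, p).primeFactors = Pb := Nat.primeFactors_prod hpr
  have mem1 : ∀ f : ℕ → ℕ, (∏ p ∈ Pb, p ^ f p).primeFactors ⊆ (∏ p ∈ Pb, p).primeFactors := by
    intro f q hq
    rw [pfR]
    have hqp := Nat.prime_of_mem_primeFactors hq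
    have hd := Nat.dvd_of_mem_primeFactors hq
    obtain ⟨p, hp, hqd⟩ := (hqp.prime.dvd_finsetProd_iff _).1 hd
    have := (Nat.prime_dvd_prime_iff_eq hqp (hpr p hp)).1 (hqp.dvd_of_dvd_pow hqd)
    rw [this]
    exact hp
  refine ⟨(X2, Y2), ?_, hX20, hY20, by simp only; omega, by simp only; omega, hne, ?_, ?_⟩
  · rw [PQ, mem_biUnion]
    refine ⟨_, hR, ?_⟩
    rw [mem_product]
    exact ⟨mem_FN.2 ⟨⟨hX20, by simp only; omega⟩, mem1 _⟩, mem_FN.2 ⟨⟨hY20, by simp only; omega⟩, mem1 _⟩⟩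
  · simp only
    rw [← eX, ← eY]
    ring
  · simp only
    refine mem_FN.2 ⟨⟨by omega, by omega⟩, ?_⟩
    intro p hp
    have hpp := Nat.prime_of_mem_primeFactors hp
    refine Nat.mem_primeFactors.2 ⟨hpp, ?_, ?_⟩
    · have a1 : (p : ℤ) ∣ (Y : ℤ) + 1 := by exact_mod_cast Nat.dvd_of_mem_primeFactors hp
      have a2 : (p : ℤ) ∣ (X : ℤ) + 1 := by exact_mod_cast Nat.dvd_of_mem_primeFactors (hsub' hp)
      have a3 : (p : ℤ) ∣ (X2 : ℤ) - Y2 := by
        have e : (X2 : ℤ) - Y2 = X2 * (Y + 1) - Y2 * (X + 1) := by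
          have : (X2 : ℤ) * Y = Y2 * X := by
            have : X2 * Y = Y2 * X := by
              rw [← eX, ← eY]
              ring
            exact_mod_cast this
          linear_combination -this
        rw [e]
        exact dvd_sub (a1.mul_left _) (a2.mul_left _)
      exact Int.natCast_dvd.1 a3
    · intro h
      apply hne
      have : (X2 : ℤ) - Y2 = 0 := Int.natAbs_eq_zero.1 h
      omega

end Pool.Agent.MD50
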