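import Mathlib
import Pool.Agent.helper50.MD.Large

/-!
# Relations with large exponents: the dichotomy and the count
-/

set_option autoImplicit false

namespace Pool.Agent.MD50

open Finset

/-- the radical is small if all valuations at the primes outside `Pb` are at least two -/
theorem toS2 {N K X V : ℕ} (Pb Ps : Finset ℕ) (hX : 1 ≤ X) (hXN : X ≤ N) (hV : 1 ≤ V) (hVN : V ≤ N)
    (hdis : Disjoint Pb Ps) (hun : X.primeFactors = Pb ∪ Ps) (hR : (∏ p ∈ Pb, p) ∈ RS (N + 1) K)
    (h2 : ∀ p ∈ Ps, 2 ≤ V.factorization p) : X ∈ S2 (N + 1) K := by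
  classical
  have hprs : ∀ p ∈ Ps, p.Prime := fun p hp =>
    Nat.prime_of_mem_primeFactors (by rw [hun]; exact mem_union_right _ hp)
  have hs : (∏ p ∈ Ps, p) ^ 2 ∣ V :=
    prod_pow_dvd Ps hprs fun p hp => ((hprs p hp).pow_dvd_iff_le_factorization (by omega)).2 (h2 p hp)
  have hs1 : (∏ p ∈ Ps, p) ^ 2 ≤ N := (Nat.le_of_dvd (by omega) hs).trans hVN
  have hs0 : 0 < ∏ p ∈ Ps, p := Finset.prod_pos fun p hp => (hprs p hp).pos
  rw [S2, mem_biUnion]
  refine ⟨(∏ p ∈ Pb, p, ∏ p ∈ Ps, p), ?_, ?_⟩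
  · rw [mem_product, mem_Icc]
    refine ⟨hR, hs0, ?_⟩
    rw [Nat.le_sqrt, ← pow_two]
    exact le_trans hs1 (by omega)
  · have e : (∏ p ∈ Pb, p) * (∏ p ∈ Ps, p) = rad X := by
      rw [rad, hun, Finset.prod_union hdis]
    simp only
    rw [e]
    exact mem_FN.2 ⟨⟨hX, by omega⟩, by rw [pf_rad]⟩

/-- **The dichotomy for large exponents.** -/
theorem large {N K X Y Z α β γ : ℕ} (hX : 2 ≤ X) (hXN : X ≤ N) (hY : 2 ≤ Y) (hYN : Y ≤ N)
    (hZ : 2 ≤ Z) (hZN : Z ≤ N) (hXY : X ≠ Y) (hXZ : X ≠ Z) (hα : K ^ 2 < α) (hβ : 1 ≤ β) (hγ : 1 ≤ γ)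
    (hg : Nat.gcd α (Nat.gcd β γ) = 1) (he : X ^ α = Y ^ β * Z ^ γ)
    (h2 : Rel (X + 1) (Y + 1) (Z + 1)) :
    CaseL N K (X, Y, Z) ∨ CaseP N K (X, Y, Z) ∨ CaseQ N K (X, Y, Z) := by
  classical
  have p1 : X.primeFactors = Y.primeFactors ∪ Z.primeFactors :=
    pf_eq (by omega) (by omega) (by omega) (by omega) (by omega) he
  have p2 := h2.pf (by omega) (by omega)
  have sY : Y.primeFactors ⊆ X.primeFactors := by rw [p1]; exact subset_union_left
  have sZ : Z.primeFactors ⊆ X.primeFactors := by rw [p1]; exact subset_union_right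
  have sY' : (Y + 1).primeFactors ⊆ (X + 1).primeFactors := by rw [p2]; exact subset_union_left
  have sZ' : (Z + 1).primeFactors ⊆ (X + 1).primeFactors := by rw [p2]; exact subset_union_right
  have mY : Y ∈ FN (N + 1) X := mem_FN.2 ⟨⟨by omega, by omega⟩, sY⟩
  have mZ : Z ∈ FN (N + 1) X := mem_FN.2 ⟨⟨by omega, by omega⟩, sZ⟩
  set Pb : Finset ℕ := X.primeFactors.filter fun p =>
    K < X.factorization p ∨ K < Y.factorization p ∨ K < Z.factorization p with hPb
  set Ps : Finset ℕ := X.primeFactors.filter fun p =>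
    ¬ (K < X.factorization p ∨ K < Y.factorization p ∨ K < Z.factorization p) with hPs
  have hdis : Disjoint Pb Ps := Finset.disjoint_filter_filter_not _ _ _
  have hun : X.primeFactors = Pb ∪ Ps := (Finset.filter_union_filter_not_eq _ _).symm
  have hpr : ∀ p ∈ Pb, p.Prime := fun p hp => Nat.prime_of_mem_primeFactors (Finset.mem_filter.1 hp).1
  have hR : (∏ p ∈ Pb, p) ∈ RS (N + 1) K := by
    have hd : (∏ p ∈ Pb, p) ^ (K + 1) ∣ X * Y * Z := by
      refine prod_pow_dvd Pb hpr fun p hp => ?_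
      have hpp := hpr p hp
      rcases (Finset.mem_filter.1 hp).2 with h | h | h
      · have : p ^ (K + 1) ∣ X := (hpp.pow_dvd_iff_le_factorization (by omega)).2 h
        exact (this.mul_right Y).mul_right Z
      · have : p ^ (K + 1) ∣ Y := (hpp.pow_dvd_iff_le_factorization (by omega)).2 h
        exact (this.mul_left X).mul_right Z
      · have : p ^ (K + 1) ∣ Z := (hpp.pow_dvd_iff_le_factorization (by omega)).2 h
        exact this.mul_left (X * Y)
    have hpos : 0 < X * Y * Z := by positivity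
    have hle : X * Y * Z ≤ (N + 1) ^ 3 := by
      calc X * Y * Z ≤ (N + 1) * (N + 1) * (N + 1) :=
            Nat.mul_le_mul (Nat.mul_le_mul (by omega) (by omega)) (by omega)
        _ = (N + 1) ^ 3 := by ring
    have hR1 : (∏ p ∈ Pb, p) ^ (K + 1) ≤ (N + 1) ^ 3 := (Nat.le_of_dvd hpos hd).trans hle
    have hR0 : 0 < ∏ p ∈ Pb, p := Finset.prod_pos fun p hp => (hpr p hp).pos
    rw [RS, mem_filter, mem_Icc]
    refine ⟨⟨hR0, le_trans ?_ hR1⟩, hR1⟩
    exact Nat.le_self_pow (by omega) _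
  -- the small primes
  have hps : ∀ p ∈ Ps, X.factorization p ≤ K ∧ Y.factorization p ≤ K ∧ Z.factorization p ≤ K := by
    intro p hp
    have := (Finset.mem_filter.1 hp).2
    push Not at this
    exact this
  have hps1 : ∀ p ∈ Ps, 1 ≤ X.factorization p := by
    intro p hp
    have hp1 := (Finset.mem_filter.1 hp).1
    exact (Nat.prime_of_mem_primeFactors hp1).factorization_pos_of_dvd (by omega) (Nat.dvd_of_mem_primeFactors hp1)
  have hv := fun p => val (α := α) (β := β) (γ := γ) (by omega) (by omega) he p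
  by_cases hall : ∀ p ∈ Ps, 2 ≤ X.factorization p
  · exact Or.inl ⟨toS2 Pb Ps (by omega) hXN (by omega) hXN hdis hun hR hall, mY, mZ⟩
  · push Not at hall
    obtain ⟨p0, hp0, hlt⟩ := hall
    have hx0 : X.factorization p0 = 1 := by
      have := hps1 p0 hp0
      omega
    have hpar : ∀ q ∈ Ps, Y.factorization q = X.factorization q * Y.factorization p0 ∧
        Z.factorization q = X.factorization q * Z.factorization p0 := by
      intro q hq
      have hh := parallel hg hα (hps p0 hp0).2.1 (hps p0 hp0).2.2 (hps q hq).2.1 (hps q hq).2.2 (hv p0) (hv q)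
      rw [hx0, one_mul, one_mul] at hh
      exact hh
    by_cases hy2 : 2 ≤ Y.factorization p0
    · refine Or.inl ⟨toS2 Pb Ps (by omega) hXN (by omega) hYN hdis hun hR ?_, mY, mZ⟩
      intro q hq
      rw [(hpar q hq).1]
      exact (hy2).trans (Nat.le_mul_of_pos_left _ (hps1 q hq))
    · by_cases hz2 : 2 ≤ Z.factorization p0
      · refine Or.inl ⟨toS2 Pb Ps (by omega) hXN (by omega) hZN hdis hun hR ?_, mY, mZ⟩
        intro q hq
        rw [(hpar q hq).2]
        exact (hz2).trans (Nat.le_mul_of_pos_left _ (hps1 q hq))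
      · have hv0 := hv p0
        rw [hx0, mul_one] at hv0
        by_cases hy1 : Y.factorization p0 = 1
        · right; left
          obtain ⟨q, q1, q2, q3, q4, q5, q6, q7, q8⟩ := splitPQ Pb Ps (by omega) hXN (by omega) hYN hXY hdis hun sY sY' hR
            (fun p hp => by rw [(hpar p hp).1, hy1, mul_one])
          exact ⟨q, q1, q2, q3, q4, q5, q6, q7, q8, mZ⟩
        · have hy0 : Y.factorization p0 = 0 := by omega
          have hz1 : Z.factorization p0 = 1 := by
            rcases Nat.eq_zero_or_pos (Z.factorization p0) with h | h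
            · rw [hy0, h] at hv0
              omega
            · omega
          right; right
          obtain ⟨q, q1, q2, q3, q4, q5, q6, q7, q8⟩ := splitPQ Pb Ps (by omega) hXN (by omega) hZN hXZ hdis hun sZ sZ' hR
            (fun p hp => by rw [(hpar p hp).2, hz1, mul_one])
          exact ⟨q, q1, q2, q3, q4, q5, q6, q7, q8, mY⟩

/-- counting through three coordinates, general form -/
theorem cnt2 {σ : Type} [DecidableEq σ] {T : Finset (ℕ × ℕ × ℕ)} (f : ℕ × ℕ × ℕ → σ) (g h : ℕ × ℕ × ℕ → ℕ)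
    (S : Finset σ) (A : σ → Finset ℕ) (F : σ → ℕ → Finset ℕ) (a b : ℝ) (ha0 : 0 ≤ a) (hb0 : 0 ≤ b)
    (ha : ∀ t ∈ T, ((A (f t)).card : ℝ) ≤ a)
    (hb : ∀ t ∈ T, ((F (f t) (g t)).card : ℝ) ≤ b)
    (hinj : ∀ t ∈ T, ∀ t' ∈ T, f t = f t' → g t = g t' → h t = h t' → t = t')
    (h1 : ∀ t ∈ T, f t ∈ S) (h2 : ∀ t ∈ T, g t ∈ A (f t)) (h3 : ∀ t ∈ T, h t ∈ F (f t) (g t)) :
    (T.card : ℝ) ≤ S.card * a * b := by
  classical
  set T1 : Finset (σ × ℕ) := T.image fun t => (f t, g t) with hT1
  set T0 : Finset σ := T.image f with hT0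
  have e1 : T1 ⊆ T0.biUnion fun s => (A s).image fun r => (s, r) := by
    intro q hq
    rw [hT1, mem_image] at hq
    obtain ⟨t, ht, rfl⟩ := hq
    rw [mem_biUnion]
    exact ⟨f t, mem_image_of_mem f ht, mem_image.2 ⟨g t, h2 t ht, rfl⟩⟩
  have e0 : (T0.card : ℝ) ≤ S.card := by
    have : T0 ⊆ S := by
      intro s hs
      rw [hT0, mem_image] at hs
      obtain ⟨t, ht, rfl⟩ := hs
      exact h1 t ht
    exact_mod_cast Finset.card_le_card this
  have e2 : (T1.card : ℝ) ≤ S.card * a := by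
    calc (T1.card : ℝ) ≤ ∑ s ∈ T0, (((A s).image fun r => (s, r)).card : ℝ) := by
          exact_mod_cast (Finset.card_le_card e1).trans Finset.card_biUnion_le
      _ ≤ ∑ _s ∈ T0, a := by
          refine Finset.sum_le_sum fun s hs => ?_
          rw [hT0, mem_image] at hs
          obtain ⟨t, ht, rfl⟩ := hs
          refine le_trans ?_ (ha t ht)
          exact_mod_cast Finset.card_image_le
      _ = T0.card * a := by rw [Finset.sum_const, nsmul_eq_mul]
      _ ≤ S.card * a := mul_le_mul_of_nonneg_right e0 ha0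
  have e3 : T.card = ∑ q ∈ T1, (T.filter fun t => (f t, g t) = q).card :=
    Finset.card_eq_sum_card_image _ _
  have e4 : ∀ q ∈ T1, ((T.filter fun t => (f t, g t) = q).card : ℝ) ≤ b := by
    intro q hq
    rw [hT1, mem_image] at hq
    obtain ⟨t0, ht0, rfl⟩ := hq
    refine le_trans ?_ (hb t0 ht0)
    have : (T.filter fun t => (f t, g t) = (f t0, g t0)).card ≤ (F (f t0) (g t0)).card := by
      refine Finset.card_le_card_of_injOn h ?_ ?_
      · intro t ht
        rw [mem_coe, mem_filter] at ht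
        have e5 := h3 t ht.1
        have e6 := Prod.ext_iff.1 ht.2
        rw [mem_coe]
        simp only at e6
        rwa [e6.1, e6.2] at e5
      · intro t ht t' ht' hh
        rw [mem_coe, mem_filter] at ht ht'
        have e6 := Prod.ext_iff.1 ht.2
        have e7 := Prod.ext_iff.1 ht'.2
        simp only at e6 e7
        exact hinj t ht.1 t' ht'.1 (e6.1.trans e7.1.symm) (e6.2.trans e7.2.symm) hh
    exact_mod_cast this
  calc (T.card : ℝ) = ∑ q ∈ T1, ((T.filter fun t => (f t, g t) = q).card : ℝ) := by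
        rw [e3]; push_cast; rfl
    _ ≤ ∑ _q ∈ T1, b := Finset.sum_le_sum e4
    _ = T1.card * b := by rw [Finset.sum_const, nsmul_eq_mul]
    _ ≤ S.card * a * b := mul_le_mul_of_nonneg_right e2 hb0

end Pool.Agent.MD50
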