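import Mathlib
import Pool.Agent.helper50.MD.Large2

/-!
# The bound for all triples
-/

set_option autoImplicit false

namespace Pool.Agent.MD50

open Finset

theorem RS_card (W K : ℕ) (hW : 1 ≤ W) : ((RS W K).card : ℝ) ≤ (W : ℝ) ^ ((3 : ℝ) / ((K : ℝ) + 1)) := by
  have hK : (0 : ℝ) < (K : ℝ) + 1 := by positivity
  have hW0 : (0 : ℝ) ≤ W := Nat.cast_nonneg W
  have hsub : RS W K ⊆ Icc 1 ⌊(W : ℝ) ^ ((3 : ℝ) / ((K : ℝ) + 1))⌋₊ := by
    intro R hR
    rw [RS, mem_filter, mem_Icc] at hR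
    rw [mem_Icc]
    refine ⟨hR.1.1, ?_⟩
    rw [Nat.le_floor_iff (by positivity)]
    have h1 : ((R : ℝ)) ^ ((K : ℝ) + 1) ≤ (W : ℝ) ^ (3 : ℝ) := by
      have h2 : ((R ^ (K + 1) : ℕ) : ℝ) ≤ ((W ^ 3 : ℕ) : ℝ) := by exact_mod_cast hR.2
      push_cast at h2
      have h3 : ((R : ℝ)) ^ ((K : ℝ) + 1) = (R : ℝ) ^ (K + 1) := by
        rw [← Real.rpow_natCast]
        push_cast
        rfl
      have h4 : (W : ℝ) ^ (3 : ℝ) = (W : ℝ) ^ 3 := by
        rw [← Real.rpow_natCast]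
        norm_num
      rw [h3, h4]
      exact h2
    have h5 := Real.rpow_le_rpow (Real.rpow_nonneg (Nat.cast_nonneg R) _) h1 (by positivity : 0 ≤ 1 / ((K : ℝ) + 1))
    rw [← Real.rpow_mul (Nat.cast_nonneg R), ← Real.rpow_mul hW0, mul_one_div_cancel hK.ne', Real.rpow_one,
      mul_one_div] at h5
    exact h5
  calc ((RS W K).card : ℝ) ≤ ((Icc 1 ⌊(W : ℝ) ^ ((3 : ℝ) / ((K : ℝ) + 1))⌋₊).card : ℝ) := by
        exact_mod_cast Finset.card_le_card hsub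
    _ = (⌊(W : ℝ) ^ ((3 : ℝ) / ((K : ℝ) + 1))⌋₊ : ℝ) := by rw [Nat.card_Icc, Nat.add_sub_cancel]
    _ ≤ (W : ℝ) ^ ((3 : ℝ) / ((K : ℝ) + 1)) := Nat.floor_le (by positivity)

theorem S2_card (W K : ℕ) (hW : 1 ≤ W) (a : ℝ)
    (ha : ∀ m : ℕ, 1 ≤ m → m ≤ W ^ 4 → ((FN W m).card : ℝ) ≤ a) :
    ((S2 W K).card : ℝ) ≤ (W : ℝ) ^ ((3 : ℝ) / ((K : ℝ) + 1)) * (W : ℝ) ^ (1 / 2 : ℝ) * a := by
  have ha0 : 0 ≤ a := le_trans (Nat.cast_nonneg _) (ha 1 le_rfl (Nat.one_le_pow _ _ hW))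
  have h3 : (Nat.sqrt W : ℝ) ≤ (W : ℝ) ^ (1 / 2 : ℝ) := by
    rw [← Real.sqrt_eq_rpow]
    exact Real.nat_sqrt_le_real_sqrt
  calc ((S2 W K).card : ℝ) ≤ ∑ q ∈ RS W K ×ˢ Icc 1 (Nat.sqrt W), ((FN W (q.1 * q.2)).card : ℝ) := by
        exact_mod_cast Finset.card_biUnion_le
    _ ≤ ∑ _q ∈ RS W K ×ˢ Icc 1 (Nat.sqrt W), a := by
        refine Finset.sum_le_sum fun q hq => ?_
        rw [mem_product, RS, mem_filter, mem_Icc, mem_Icc] at hq
        refine ha _ (Nat.mul_pos hq.1.1.1 hq.2.1) ?_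
        calc q.1 * q.2 ≤ W ^ 3 * W := Nat.mul_le_mul hq.1.1.2 (hq.2.2.trans (Nat.sqrt_le_self W))
          _ = W ^ 4 := by ring
    _ = ((RS W K).card : ℝ) * (Nat.sqrt W : ℝ) * a := by
        rw [Finset.sum_const, Finset.card_product, Nat.card_Icc, Nat.add_sub_cancel, nsmul_eq_mul]
        push_cast
        ring
    _ ≤ (W : ℝ) ^ ((3 : ℝ) / ((K : ℝ) + 1)) * (W : ℝ) ^ (1 / 2 : ℝ) * a := by
        refine mul_le_mul_of_nonneg_right ?_ ha0
        exact mul_le_mul (RS_card W K hW) h3 (Nat.cast_nonneg _) (by positivity)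

theorem PQ_card (W K : ℕ) (hW : 1 ≤ W) (a : ℝ)
    (ha : ∀ m : ℕ, 1 ≤ m → m ≤ W ^ 4 → ((FN W m).card : ℝ) ≤ a) :
    ((PQ W K).card : ℝ) ≤ (W : ℝ) ^ ((3 : ℝ) / ((K : ℝ) + 1)) * (a * a) := by
  have ha0 : 0 ≤ a := le_trans (Nat.cast_nonneg _) (ha 1 le_rfl (Nat.one_le_pow _ _ hW))
  calc ((PQ W K).card : ℝ) ≤ ∑ R ∈ RS W K, (((FN W R) ×ˢ (FN W R)).card : ℝ) := by
        exact_mod_cast Finset.card_biUnion_le
    _ ≤ ∑ _R ∈ RS W K, a * a := by
        refine Finset.sum_le_sum fun R hR => ?_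
        rw [RS, mem_filter, mem_Icc] at hR
        have h1 := ha R hR.1.1 (hR.1.2.trans (Nat.pow_le_pow_right hW (by norm_num)))
        rw [Finset.card_product]
        push_cast
        exact mul_le_mul h1 h1 (Nat.cast_nonneg _) ha0
    _ = ((RS W K).card : ℝ) * (a * a) := by rw [Finset.sum_const, nsmul_eq_mul]
    _ ≤ (W : ℝ) ^ ((3 : ℝ) / ((K : ℝ) + 1)) * (a * a) :=
        mul_le_mul_of_nonneg_right (RS_card W K hW) (mul_nonneg ha0 ha0)

/-- the count for large exponents -/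
theorem arrL (K : ℕ) (ε : ℝ) (hε : 0 < ε) : ∃ C : ℝ, 0 < C ∧ ∀ (N : ℕ) (T : Finset (ℕ × ℕ × ℕ)),
    T ⊆ box N → (∀ t ∈ T, CaseL N K t ∨ CaseP N K t ∨ CaseQ N K t) →
    (T.card : ℝ) ≤ C * ((N + 1 : ℕ) : ℝ) ^ (1 / 2 + ((3 : ℝ) / ((K : ℝ) + 1)) + ε) := by
  classical
  obtain ⟨K1, hK1, hF⟩ := FN_le' (ε / 4) (by linarith) 4
  refine ⟨3 * K1 ^ 4, by positivity, fun N T hT hcase => ?_⟩
  set W : ℕ := N + 1 with hW
  have hW1 : 1 ≤ W := by omega
  have hWr : (1 : ℝ) ≤ W := by exact_mod_cast hW1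
  set a : ℝ := K1 * (W : ℝ) ^ (ε / 4) with ha
  have ha0 : 0 ≤ a := by positivity
  have ha1 : 1 ≤ a := by
    have h1 : (1 : ℝ) ≤ (W : ℝ) ^ (ε / 4) := Real.one_le_rpow hWr (by linarith)
    nlinarith
  have hFa : ∀ m : ℕ, 1 ≤ m → m ≤ W ^ 4 → ((FN W m).card : ℝ) ≤ a := fun m h1 h2 => hF W m hW1 h1 h2
  set k : ℝ := (3 : ℝ) / ((K : ℝ) + 1) with hk
  have hS2 := S2_card W K hW1 a hFa
  have hPQ := PQ_card W K hW1 a hFa
  rw [← hk] at hS2 hPQ
  set w : ℝ := (W : ℝ) ^ k * (W : ℝ) ^ (1 / 2 : ℝ) with hw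
  have hhalf : (1 : ℝ) ≤ (W : ℝ) ^ (1 / 2 : ℝ) := Real.one_le_rpow hWr (by norm_num)
  have hk0 : (0 : ℝ) ≤ (W : ℝ) ^ k := by positivity
  have hw0 : 0 ≤ w := by positivity
  have hle1 : (W : ℝ) ^ k ≤ w := by
    rw [hw]
    nlinarith
  have bx : ∀ t ∈ T, (2 ≤ t.1 ∧ t.1 ≤ N) ∧ (2 ≤ t.2.1 ∧ t.2.1 ≤ N) ∧ 2 ≤ t.2.2 ∧ t.2.2 ≤ N :=
    fun t ht => mem_box.1 (hT ht)
  have b4 : ∀ m : ℕ, m ≤ W → m ≤ W ^ 4 := fun m hm => hm.trans (Nat.le_self_pow (by norm_num) W)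
  have cL : ((T.filter fun t => CaseL N K t).card : ℝ) ≤ w * a ^ 4 := by
    have h1 := cnt2 (T := T.filter fun t => CaseL N K t) (fun t => t.1) (fun t => t.2.1) (fun t => t.2.2)
      (S2 W K) (fun x => FN W x) (fun x _ => FN W x) a a ha0 ha0
      (by
        intro t ht
        rw [mem_filter] at ht
        obtain ⟨h1, -, -⟩ := bx t ht.1
        exact hFa _ (by omega) (b4 _ (by omega)))
      (by
        intro t ht
        rw [mem_filter] at ht
        obtain ⟨h1, -, -⟩ := bx t ht.1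
        exact hFa _ (by omega) (b4 _ (by omega)))
      (by
        rintro ⟨x, y, z⟩ _ ⟨x', y', z'⟩ _ e1 e2 e3
        simp only at e1 e2 e3
        rw [e1, e2, e3])
      (fun t ht => (mem_filter.1 ht).2.1)
      (fun t ht => (mem_filter.1 ht).2.2.1)
      (fun t ht => (mem_filter.1 ht).2.2.2)
    calc ((T.filter fun t => CaseL N K t).card : ℝ) ≤ (S2 W K).card * a * a := h1
      _ ≤ (w * a) * a * a := by
          refine mul_le_mul_of_nonneg_right (mul_le_mul_of_nonneg_right hS2 ha0) ha0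
      _ = w * a ^ 3 := by ring
      _ ≤ w * a ^ 4 := mul_le_mul_of_nonneg_left (pow_le_pow_right₀ ha1 (by norm_num)) hw0
  have cP : ((T.filter fun t => CaseP N K t).card : ℝ) ≤ w * a ^ 4 := by
    have hch : ∀ t : ℕ × ℕ × ℕ, ∃ q : ℕ × ℕ, CaseP N K t → (q ∈ PQ (N + 1) K ∧ 1 ≤ q.1 ∧ 1 ≤ q.2 ∧ q.1 ≤ N + 1 ∧
        q.2 ≤ N + 1 ∧ q.1 ≠ q.2 ∧ t.1 * q.2 = t.2.1 * q.1 ∧
        t.2.1 + 1 ∈ FN (N + 1) ((q.1 : ℤ) - q.2).natAbs ∧ t.2.2 ∈ FN (N + 1) t.1) := by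
      intro t
      by_cases h : CaseP N K t
      · obtain ⟨q, h1, h2⟩ := h
        exact ⟨q, fun _ => ⟨h1, h2⟩⟩
      · exact ⟨(0, 0), fun h' => absurd h' h⟩
    choose f hf using hch
    have hX : ∀ t : ℕ × ℕ × ℕ, CaseP N K t → t.1 = (t.2.1 + 1 - 1) * (f t).1 / (f t).2 := by
      intro t ht
      obtain ⟨-, -, h2, -, -, -, h3, -, -⟩ := hf t ht
      rw [Nat.add_sub_cancel, ← h3, Nat.mul_div_cancel _ (by omega)]
    have h1 := cnt2 (T := T.filter fun t => CaseP N K t) f (fun t => t.2.1 + 1) (fun t => t.2.2)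
      (PQ W K) (fun q => FN W ((q.1 : ℤ) - q.2).natAbs) (fun q y => FN W ((y - 1) * q.1 / q.2)) a a ha0 ha0
      (by
        intro t ht
        rw [mem_filter] at ht
        obtain ⟨-, g1, g2, g3, g4, g5, -, -, -⟩ := hf t ht.2
        exact hFa _ (by omega) (b4 _ (by omega)))
      (by
        intro t ht
        rw [mem_filter] at ht
        obtain ⟨h1, -, -⟩ := bx t ht.1
        have e := hX t ht.2
        rw [← e]
        exact hFa _ (by omega) (b4 _ (by omega)))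
      (by
        intro t ht t' ht' e1 e2 e3
        have i1 := hX t (mem_filter.1 ht).2
        have i2 := hX t' (mem_filter.1 ht').2
        rw [e1, e2, ← i2] at i1
        exact Prod.ext i1 (Prod.ext (by omega) e3))
      (fun t ht => (hf t (mem_filter.1 ht).2).1)
      (fun t ht => (hf t (mem_filter.1 ht).2).2.2.2.2.2.2.2.1)
      (by
        intro t ht
        have e := hX t (mem_filter.1 ht).2
        rw [← e]
        exact (hf t (mem_filter.1 ht).2).2.2.2.2.2.2.2.2)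
    calc ((T.filter fun t => CaseP N K t).card : ℝ) ≤ (PQ W K).card * a * a := h1
      _ ≤ ((W : ℝ) ^ k * (a * a)) * a * a :=
          mul_le_mul_of_nonneg_right (mul_le_mul_of_nonneg_right hPQ ha0) ha0
      _ = (W : ℝ) ^ k * a ^ 4 := by ring
      _ ≤ w * a ^ 4 := mul_le_mul_of_nonneg_right hle1 (by positivity)
  have cQ : ((T.filter fun t => CaseQ N K t).card : ℝ) ≤ w * a ^ 4 := by
    have hch : ∀ t : ℕ × ℕ × ℕ, ∃ q : ℕ × ℕ, CaseQ N K t → (q ∈ PQ (N + 1) K ∧ 1 ≤ q.1 ∧ 1 ≤ q.2 ∧ q.1 ≤ N + 1 ∧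
        q.2 ≤ N + 1 ∧ q.1 ≠ q.2 ∧ t.1 * q.2 = t.2.2 * q.1 ∧
        t.2.2 + 1 ∈ FN (N + 1) ((q.1 : ℤ) - q.2).natAbs ∧ t.2.1 ∈ FN (N + 1) t.1) := by
      intro t
      by_cases h : CaseQ N K t
      · obtain ⟨q, h1, h2⟩ := h
        exact ⟨q, fun _ => ⟨h1, h2⟩⟩
      · exact ⟨(0, 0), fun h' => absurd h' h⟩
    choose f hf using hch
    have hX : ∀ t : ℕ × ℕ × ℕ, CaseQ N K t → t.1 = (t.2.2 + 1 - 1) * (f t).1 / (f t).2 := by
      intro t ht
      obtain ⟨-, -, h2, -, -, -, h3, -, -⟩ := hf t ht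
      rw [Nat.add_sub_cancel, ← h3, Nat.mul_div_cancel _ (by omega)]
    have h1 := cnt2 (T := T.filter fun t => CaseQ N K t) f (fun t => t.2.2 + 1) (fun t => t.2.1)
      (PQ W K) (fun q => FN W ((q.1 : ℤ) - q.2).natAbs) (fun q y => FN W ((y - 1) * q.1 / q.2)) a a ha0 ha0
      (by
        intro t ht
        rw [mem_filter] at ht
        obtain ⟨-, g1, g2, g3, g4, g5, -, -, -⟩ := hf t ht.2
        exact hFa _ (by omega) (b4 _ (by omega)))
      (by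
        intro t ht
        rw [mem_filter] at ht
        obtain ⟨h1, -, -⟩ := bx t ht.1
        have e := hX t ht.2
        rw [← e]
        exact hFa _ (by omega) (b4 _ (by omega)))
      (by
        intro t ht t' ht' e1 e2 e3
        have i1 := hX t (mem_filter.1 ht).2
        have i2 := hX t' (mem_filter.1 ht').2
        rw [e1, e2, ← i2] at i1
        exact Prod.ext i1 (Prod.ext e3 (by omega)))
      (fun t ht => (hf t (mem_filter.1 ht).2).1)
      (fun t ht => (hf t (mem_filter.1 ht).2).2.2.2.2.2.2.2.1)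
      (by
        intro t ht
        have e := hX t (mem_filter.1 ht).2
        rw [← e]
        exact (hf t (mem_filter.1 ht).2).2.2.2.2.2.2.2.2)
    calc ((T.filter fun t => CaseQ N K t).card : ℝ) ≤ (PQ W K).card * a * a := h1
      _ ≤ ((W : ℝ) ^ k * (a * a)) * a * a :=
          mul_le_mul_of_nonneg_right (mul_le_mul_of_nonneg_right hPQ ha0) ha0
      _ = (W : ℝ) ^ k * a ^ 4 := by ring
      _ ≤ w * a ^ 4 := mul_le_mul_of_nonneg_right hle1 (by positivity)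
  have hsub : T ⊆ (T.filter fun t => CaseL N K t) ∪ (T.filter fun t => CaseP N K t) ∪
      (T.filter fun t => CaseQ N K t) := by
    intro t ht
    simp only [mem_union, mem_filter, ht, true_and]
    rcases hcase t ht with h | h | h
    · exact Or.inl (Or.inl h)
    · exact Or.inl (Or.inr h)
    · exact Or.inr h
  have hnat : T.card ≤ (T.filter fun t => CaseL N K t).card + (T.filter fun t => CaseP N K t).card +
      (T.filter fun t => CaseQ N K t).card := by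
    refine (Finset.card_le_card hsub).trans ?_
    refine (Finset.card_union_le _ _).trans (Nat.add_le_add_right ?_ _)
    exact Finset.card_union_le _ _
  have hreal : (T.card : ℝ) ≤ ((T.filter fun t => CaseL N K t).card : ℝ) +
      ((T.filter fun t => CaseP N K t).card : ℝ) + ((T.filter fun t => CaseQ N K t).card : ℝ) := by
    exact_mod_cast hnat
  have hfin : (T.card : ℝ) ≤ 3 * (w * a ^ 4) := by linarith
  refine hfin.trans (le_of_eq ?_)
  have hpos : (0 : ℝ) < W := by linarith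
  have ha4 : a ^ 4 = K1 ^ 4 * (W : ℝ) ^ ε := by
    rw [ha, mul_pow, ← Real.rpow_natCast ((W : ℝ) ^ (ε / 4)), ← Real.rpow_mul hpos.le]
    congr 2
    push_cast
    ring
  rw [ha4, hw, Real.rpow_add hpos, Real.rpow_add hpos]
  ring

end Pool.Agent.MD50
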