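import Mathlib
import Pool.Agent.helper50.MD.All

/-!
# All arrangements
-/

set_option autoImplicit false

namespace Pool.Agent.MD50

open Finset

/-- the arrangements counted -/
def GoodA (t : ℕ × ℕ × ℕ) : Prop :=
  t.1 ≠ t.2.1 ∧ t.1 ≠ t.2.2 ∧ Rel t.1 t.2.1 t.2.2 ∧
    (Rel (t.1 + 1) (t.2.1 + 1) (t.2.2 + 1) ∨ Rel (t.2.1 + 1) (t.1 + 1) (t.2.2 + 1))

/-- either a small or a large exponent -/
theorem goodA_cases {N K : ℕ} {t : ℕ × ℕ × ℕ} (ht : t ∈ box N) (hg : GoodA t) :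
    (CaseA N (2 * (2 * (K ^ 2)).factorial) t ∨ CaseB N (2 * (2 * (K ^ 2)).factorial) t ∨ CaseC N t ∨
      CaseD N (2 * (2 * (K ^ 2)).factorial) t ∨ CaseE N (2 * (2 * (K ^ 2)).factorial) t ∨ CaseF N t ∨
      CaseG N t ∨ CaseH N t) ∨ (CaseL N K t ∨ CaseP N K t ∨ CaseQ N K t) := by
  obtain ⟨h1, h2, h3, h4⟩ := hg
  rcases h4 with h4 | h4
  · obtain ⟨α, β, γ, g1, g2, g3, g4, g5⟩ := prim h3
    by_cases hsm : α ≤ K ^ 2
    · left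
      exact good_cases (B := K ^ 2) ht
        ⟨h1, h2, h3, Or.inl ⟨h4, Or.inl ⟨α, β, γ, g1, g2, g3, Or.inl hsm, g5⟩⟩⟩
    · right
      obtain ⟨X, Y, Z⟩ := t
      obtain ⟨⟨hX, hXN⟩, ⟨hY, hYN⟩, hZ, hZN⟩ := mem_box.1 ht
      exact large hX hXN hY hYN hZ hZN h1 h2 (by omega) g2 g3 g4 g5 h4
  · left
    exact good_cases (B := K ^ 2) ht ⟨h1, h2, h3, Or.inr h4⟩

/-- the six permutations -/
def AnyGoodA (a b c : ℕ) : Prop :=
  GoodA (a, b, c) ∨ GoodA (a, c, b) ∨ GoodA (b, a, c) ∨ GoodA (b, c, a) ∨ GoodA (c, a, b) ∨ GoodA (c, b, a)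

theorem arrangeA {a b c : ℕ} (hab : a ≠ b) (hac : a ≠ c) (hbc : b ≠ c) (h1 : R3 a b c)
    (h2 : R3 (a + 1) (b + 1) (c + 1)) : AnyGoodA a b c := by
  rcases h1 with h1 | h1 | h1 <;> rcases h2 with h2 | h2 | h2
  · exact Or.inl ⟨hab, hac, h1, Or.inl h2⟩
  · exact Or.inl ⟨hab, hac, h1, Or.inr h2⟩
  · exact Or.inr (Or.inl ⟨hac, hab, h1.symm, Or.inr h2⟩)
  · exact Or.inr (Or.inr (Or.inl ⟨hab.symm, hbc, h1, Or.inr h2⟩))
  · exact Or.inr (Or.inr (Or.inl ⟨hab.symm, hbc, h1, Or.inl h2⟩))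
  · exact Or.inr (Or.inr (Or.inr (Or.inl ⟨hbc, hab.symm, h1.symm, Or.inr h2.symm⟩)))
  · exact Or.inr (Or.inr (Or.inr (Or.inr (Or.inl ⟨hac.symm, hbc.symm, h1, Or.inr h2.symm⟩))))
  · exact Or.inr (Or.inr (Or.inr (Or.inr (Or.inr ⟨hbc.symm, hac.symm, h1.symm, Or.inr h2.symm⟩))))
  · exact Or.inr (Or.inr (Or.inr (Or.inr (Or.inl ⟨hac.symm, hbc.symm, h1, Or.inl h2⟩))))

/-- the count for the arrangements -/
theorem arrA (ε : ℝ) (hε : 0 < ε) : ∃ C : ℝ, 0 < C ∧ ∀ (N : ℕ) (T : Finset (ℕ × ℕ × ℕ)),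
    T ⊆ box N → (∀ t ∈ T, GoodA t) → (T.card : ℝ) ≤ C * ((N + 1 : ℕ) : ℝ) ^ (1 / 2 + ε) := by
  classical
  set K : ℕ := ⌈6 / ε⌉₊ with hK
  have hKε : (3 : ℝ) / ((K : ℝ) + 1) ≤ ε / 2 := by
    have h1 : 6 / ε ≤ (K : ℝ) := Nat.le_ceil _
    have h2 : 6 / ε * ε = 6 := div_mul_cancel₀ _ hε.ne'
    rw [div_le_iff₀ (by positivity)]
    nlinarith
  have hM : 1 ≤ 2 * (2 * (K ^ 2)).factorial := by have := Nat.factorial_pos (2 * (K ^ 2)); omega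
  obtain ⟨C1, hC1, h1⟩ := arr (2 * (2 * (K ^ 2)).factorial) hM ε hε
  obtain ⟨C2, hC2, h2⟩ := arrL K (ε / 2) (by linarith)
  refine ⟨C1 + C2, by positivity, fun N T hT hg => ?_⟩
  have hN1 : (1 : ℝ) ≤ ((N + 1 : ℕ) : ℝ) := by exact_mod_cast (by omega : 1 ≤ N + 1)
  set T1 := T.filter fun t => CaseA N (2 * (2 * (K ^ 2)).factorial) t ∨
    CaseB N (2 * (2 * (K ^ 2)).factorial) t ∨ CaseC N t ∨
      CaseD N (2 * (2 * (K ^ 2)).factorial) t ∨ CaseE N (2 * (2 * (K ^ 2)).factorial) t ∨ CaseF N t ∨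
      CaseG N t ∨ CaseH N t with hT1
  set T2 := T.filter fun t => CaseL N K t ∨ CaseP N K t ∨ CaseQ N K t with hT2
  have e1 := h1 N T1 ((Finset.filter_subset _ _).trans hT) (fun t ht => (mem_filter.1 ht).2)
  have e2 := h2 N T2 ((Finset.filter_subset _ _).trans hT) (fun t ht => (mem_filter.1 ht).2)
  have hsub : T ⊆ T1 ∪ T2 := by
    intro t ht
    rw [mem_union, hT1, hT2, mem_filter, mem_filter]
    rcases goodA_cases (K := K) (hT ht) (hg t ht) with h | h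
    · exact Or.inl ⟨ht, h⟩
    · exact Or.inr ⟨ht, h⟩
  have hc : (T.card : ℝ) ≤ T1.card + T2.card := by
    exact_mod_cast (Finset.card_le_card hsub).trans (Finset.card_union_le _ _)
  have e3 : ((N + 1 : ℕ) : ℝ) ^ (1 / 2 + ((3 : ℝ) / ((K : ℝ) + 1)) + ε / 2) ≤ ((N + 1 : ℕ) : ℝ) ^ (1 / 2 + ε) :=
    Real.rpow_le_rpow_of_exponent_le hN1 (by linarith)
  have e4 := mul_le_mul_of_nonneg_left e3 hC2.le
  linarith [e4]

/-- **The count.** -/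
theorem countA (ε : ℝ) (hε : 0 < ε) : ∃ C : ℝ, 0 < C ∧ ∀ (N : ℕ) (T : Finset (ℕ × ℕ × ℕ)),
    T ⊆ box N → (∀ t ∈ T, AnyGoodA t.1 t.2.1 t.2.2) → (T.card : ℝ) ≤ C * (N : ℝ) ^ (1 / 2 + ε) := by
  classical
  obtain ⟨C, hC, h⟩ := arrA ε hε
  refine ⟨6 * (C * (2 : ℝ) ^ (1 / 2 + ε)), by positivity, fun N T hT hg => ?_⟩
  rcases Nat.eq_zero_or_pos N with rfl | hN
  · have h0 : T = ∅ := by
      rw [← Finset.subset_empty]
      intro t ht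
      have := (mem_box.1 (hT ht)).1
      omega
    rw [h0]
    simp only [Finset.card_empty, Nat.cast_zero]
    positivity
  set U : Finset (ℕ × ℕ × ℕ) := (box N).filter fun t => GoodA t with hU
  have hUc : (U.card : ℝ) ≤ C * ((N + 1 : ℕ) : ℝ) ^ (1 / 2 + ε) :=
    h N U (Finset.filter_subset _ _) (fun t ht => (mem_filter.1 ht).2)
  have hsub : T ⊆ U.image (fun t => (t.1, t.2.1, t.2.2)) ∪ U.image (fun t => (t.1, t.2.2, t.2.1)) ∪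
      U.image (fun t => (t.2.1, t.1, t.2.2)) ∪ U.image (fun t => (t.2.2, t.1, t.2.1)) ∪
      U.image (fun t => (t.2.1, t.2.2, t.1)) ∪ U.image (fun t => (t.2.2, t.2.1, t.1)) := by
    rintro ⟨a, b, c⟩ ht
    obtain ⟨ha, hb, hc⟩ := mem_box.1 (hT ht)
    simp only at ha hb hc
    have hg' := hg _ ht
    simp only [mem_union, mem_image]
    rcases hg' with h | h | h | h | h | h
    · exact Or.inl (Or.inl (Or.inl (Or.inl (Or.inl ⟨(a, b, c), mem_filter.2 ⟨mem_box.2 ⟨ha, hb, hc⟩, h⟩, rfl⟩))))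
    · exact Or.inl (Or.inl (Or.inl (Or.inl (Or.inr ⟨(a, c, b), mem_filter.2 ⟨mem_box.2 ⟨ha, hc, hb⟩, h⟩, rfl⟩))))
    · exact Or.inl (Or.inl (Or.inl (Or.inr ⟨(b, a, c), mem_filter.2 ⟨mem_box.2 ⟨hb, ha, hc⟩, h⟩, rfl⟩)))
    · exact Or.inl (Or.inl (Or.inr ⟨(b, c, a), mem_filter.2 ⟨mem_box.2 ⟨hb, hc, ha⟩, h⟩, rfl⟩))
    · exact Or.inl (Or.inr ⟨(c, a, b), mem_filter.2 ⟨mem_box.2 ⟨hc, ha, hb⟩, h⟩, rfl⟩)
    · exact Or.inr ⟨(c, b, a), mem_filter.2 ⟨mem_box.2 ⟨hc, hb, ha⟩, h⟩, rfl⟩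
  have hnat : T.card ≤ 6 * U.card := by
    refine (Finset.card_le_card hsub).trans ?_
    have e : ∀ f : ℕ × ℕ × ℕ → ℕ × ℕ × ℕ, (U.image f).card ≤ U.card := fun f => Finset.card_image_le
    have e1 := e (fun t => (t.1, t.2.1, t.2.2))
    have e2 := e (fun t => (t.1, t.2.2, t.2.1))
    have e3 := e (fun t => (t.2.1, t.1, t.2.2))
    have e4 := e (fun t => (t.2.2, t.1, t.2.1))
    have e5 := e (fun t => (t.2.1, t.2.2, t.1))
    have e6 := e (fun t => (t.2.2, t.2.1, t.1))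
    refine (Finset.card_union_le _ _).trans ?_
    have f5 := Finset.card_union_le (U.image (fun t => (t.1, t.2.1, t.2.2)) ∪ U.image (fun t => (t.1, t.2.2, t.2.1)) ∪
      U.image (fun t => (t.2.1, t.1, t.2.2)) ∪ U.image (fun t => (t.2.2, t.1, t.2.1))) (U.image (fun t => (t.2.1, t.2.2, t.1)))
    have f4 := Finset.card_union_le (U.image (fun t => (t.1, t.2.1, t.2.2)) ∪ U.image (fun t => (t.1, t.2.2, t.2.1)) ∪
      U.image (fun t => (t.2.1, t.1, t.2.2))) (U.image (fun t => (t.2.2, t.1, t.2.1)))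
    have f3 := Finset.card_union_le (U.image (fun t => (t.1, t.2.1, t.2.2)) ∪ U.image (fun t => (t.1, t.2.2, t.2.1)))
      (U.image (fun t => (t.2.1, t.1, t.2.2)))
    have f2 := Finset.card_union_le (U.image (fun t => (t.1, t.2.1, t.2.2))) (U.image (fun t => (t.1, t.2.2, t.2.1)))
    omega
  have hreal : (T.card : ℝ) ≤ 6 * (U.card : ℝ) := by exact_mod_cast hnat
  have hpow : ((N + 1 : ℕ) : ℝ) ^ (1 / 2 + ε) ≤ (2 : ℝ) ^ (1 / 2 + ε) * (N : ℝ) ^ (1 / 2 + ε) := by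
    rw [← Real.mul_rpow (by norm_num) (Nat.cast_nonneg N)]
    refine Real.rpow_le_rpow (Nat.cast_nonneg _) ?_ (by positivity)
    have : (1 : ℝ) ≤ N := by exact_mod_cast hN
    push_cast
    linarith
  calc (T.card : ℝ) ≤ 6 * (U.card : ℝ) := hreal
    _ ≤ 6 * (C * ((N + 1 : ℕ) : ℝ) ^ (1 / 2 + ε)) := by linarith
    _ ≤ 6 * (C * ((2 : ℝ) ^ (1 / 2 + ε) * (N : ℝ) ^ (1 / 2 + ε))) := by
        have := mul_le_mul_of_nonneg_left hpow hC.le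
        linarith
    _ = 6 * (C * (2 : ℝ) ^ (1 / 2 + ε)) * (N : ℝ) ^ (1 / 2 + ε) := by ring

end Pool.Agent.MD50
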