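import Mathlib
import Pool.Agent.helper50.MD.Main

/-!
# Relations with one large exponent: all triples but `N^ε`
-/

set_option autoImplicit false

namespace Pool.Agent.MD50

open Finset

theorem small_dvd {α K : ℕ} {D : ℤ} (h : K ^ 2 < α) (hD : D.natAbs ≤ K ^ 2) (hd : α ∣ D.natAbs) : D = 0 := by
  by_contra hne
  have := Nat.le_of_dvd (Int.natAbs_pos.2 hne) hd
  omega

theorem dvd_of_two {α β γ : ℕ} {D E F : ℤ} (hg : Nat.gcd α (Nat.gcd β γ) = 1) (h1 : (α : ℤ) * E = β * D)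
    (h2 : (α : ℤ) * F = -(γ * D)) : α ∣ D.natAbs := by
  have d1 : α ∣ γ * D.natAbs := by
    have : (α : ℤ) ∣ γ * D := by
      rw [← dvd_neg, ← h2]
      exact dvd_mul_right _ _
    have h3 := Int.natCast_dvd.1 this
    rwa [Int.natAbs_mul, Int.natAbs_natCast] at h3
  have d2 : α ∣ β * D.natAbs := by
    have : (α : ℤ) ∣ β * D := by
      rw [← h1]
      exact dvd_mul_right _ _
    have h3 := Int.natCast_dvd.1 this
    rwa [Int.natAbs_mul, Int.natAbs_natCast] at h3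
  have d3 : α ∣ Nat.gcd β γ * D.natAbs := by
    rw [← Nat.gcd_mul_right]
    exact Nat.dvd_gcd d2 d1
  exact Nat.Coprime.dvd_of_dvd_mul_left hg d3

theorem abs_bd {K a b c d : ℕ} (ha : a ≤ K) (hb : b ≤ K) (hc : c ≤ K) (hd : d ≤ K) :
    ((a : ℤ) * b - c * d).natAbs ≤ K ^ 2 := by
  have i1 : a * b ≤ K ^ 2 := by rw [pow_two]; exact Nat.mul_le_mul ha hb
  have i2 : c * d ≤ K ^ 2 := by rw [pow_two]; exact Nat.mul_le_mul hc hd
  have j1 : ((a : ℤ) * b) ≤ ((K ^ 2 : ℕ) : ℤ) := by exact_mod_cast i1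
  have j2 : ((c : ℤ) * d) ≤ ((K ^ 2 : ℕ) : ℤ) := by exact_mod_cast i2
  have j3 : 0 ≤ (a : ℤ) * b := by positivity
  have j4 : 0 ≤ (c : ℤ) * d := by positivity
  omega

/-- two small solutions are parallel, if one of the exponents is large -/
theorem parallel2 {α β γ K x y z x' y' z' : ℕ} (hα : 1 ≤ α) (hβ : 1 ≤ β) (hγ : 1 ≤ γ)
    (hg : Nat.gcd α (Nat.gcd β γ) = 1) (hbig : K ^ 2 < α ∨ K ^ 2 < β ∨ K ^ 2 < γ)
    (hx : x ≤ K) (hy : y ≤ K) (hz : z ≤ K) (hx' : x' ≤ K) (hy' : y' ≤ K) (hz' : z' ≤ K)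
    (h : α * x = β * y + γ * z) (h' : α * x' = β * y' + γ * z') : x * y' = x' * y ∧ x * z' = x' * z := by
  have hz0 : (α : ℤ) * x = β * y + γ * z := by exact_mod_cast h
  have hz0' : (α : ℤ) * x' = β * y' + γ * z' := by exact_mod_cast h'
  set D1 : ℤ := y * z' - y' * z with hD1
  set D2 : ℤ := x * z' - x' * z with hD2
  set D3 : ℤ := x * y' - x' * y with hD3
  have e1 : (α : ℤ) * D3 = -(γ * D1) := by
    rw [hD1, hD3]
    linear_combination (y' : ℤ) * hz0 - (y : ℤ) * hz0'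
  have e2 : (α : ℤ) * D2 = β * D1 := by
    rw [hD1, hD2]
    linear_combination (z' : ℤ) * hz0 - (z : ℤ) * hz0'
  have e3 : (β : ℤ) * D3 = -(γ * D2) := by
    rw [hD2, hD3]
    linear_combination (x' : ℤ) * hz0 - (x : ℤ) * hz0'
  have bD1 : D1.natAbs ≤ K ^ 2 := abs_bd hy hz' hy' hz
  have bD2 : D2.natAbs ≤ K ^ 2 := abs_bd hx hz' hx' hz
  have bD3 : D3.natAbs ≤ K ^ 2 := abs_bd hx hy' hx' hy
  have hα0 : (α : ℤ) ≠ 0 := by exact_mod_cast (by omega : α ≠ 0)
  have hβ0 : (β : ℤ) ≠ 0 := by exact_mod_cast (by omega : β ≠ 0)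
  have hγ0 : (γ : ℤ) ≠ 0 := by exact_mod_cast (by omega : γ ≠ 0)
  have hzero : D2 = 0 ∧ D3 = 0 := by
    rcases hbig with hb | hb | hb
    · have f1 : D1 = 0 := small_dvd hb bD1 (dvd_of_two hg e2 e1)
      rw [f1, mul_zero] at e2
      rw [f1, mul_zero, neg_zero] at e1
      exact ⟨(mul_eq_zero.1 e2).resolve_left hα0, (mul_eq_zero.1 e1).resolve_left hα0⟩
    · have hg2 : Nat.gcd β (Nat.gcd α γ) = 1 := by
        rw [← Nat.gcd_assoc, Nat.gcd_comm β α, Nat.gcd_assoc]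
        exact hg
      have f2 : D2 = 0 := small_dvd hb bD2 (dvd_of_two hg2 (E := D1) (F := D3) e2.symm e3)
      rw [f2, mul_zero] at e2
      have f1 : D1 = 0 := (mul_eq_zero.1 e2.symm).resolve_left hβ0
      rw [f1, mul_zero, neg_zero] at e1
      exact ⟨f2, (mul_eq_zero.1 e1).resolve_left hα0⟩
    · have hg3 : Nat.gcd γ (Nat.gcd α β) = 1 := by
        rw [Nat.gcd_comm γ, Nat.gcd_assoc]
        exact hg
      have e1' : (γ : ℤ) * (-D1) = α * D3 := by rw [e1]; ring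
      have e3' : (γ : ℤ) * D2 = -(β * D3) := by rw [e3]; ring
      have f3 : D3 = 0 := small_dvd hb bD3 (dvd_of_two hg3 e1' e3')
      rw [f3, mul_zero] at e1
      have f1 : D1 = 0 := by
        have : (γ : ℤ) * D1 = 0 := by linarith
        exact (mul_eq_zero.1 this).resolve_left hγ0
      rw [f1, mul_zero] at e2
      exact ⟨(mul_eq_zero.1 e2).resolve_left hα0, f3⟩
  obtain ⟨f2, f3⟩ := hzero
  constructor
  · have : (x : ℤ) * y' = x' * y := by linarith [hD3.symm.trans f3]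
    exact_mod_cast this
  · have : (x : ℤ) * z' = x' * z := by linarith [hD2.symm.trans f2]
    exact_mod_cast this

/-- the parameters: parts of `x, y, z` at the primes with a large valuation, and a direction -/
def PR (W K : ℕ) : Finset ((ℕ × ℕ × ℕ) × (ℕ × ℕ × ℕ)) :=
  ((RS W K).biUnion fun R => FN W R ×ˢ FN W R ×ˢ FN W R) ×ˢ
    (range (K + 1) ×ˢ range (K + 1) ×ˢ range (K + 1))

/-- the integer whose prime divisors are all possible prime divisors of the shifted number -/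
def DD (q : (ℕ × ℕ × ℕ) × (ℕ × ℕ × ℕ)) : ℕ :=
  ((q.1.2.1 : ℤ) ^ (2 * q.2.1) - (q.1.1 : ℤ) ^ (2 * q.2.2.1)).natAbs *
    ((q.1.2.2 : ℤ) ^ (2 * q.2.1) - (q.1.1 : ℤ) ^ (2 * q.2.2.2)).natAbs

/-- the identity between two of the numbers -/
theorem twoid {x y x0 y0 : ℕ} (Pb Ps : Finset ℕ) (hx : 1 ≤ x) (hy : 1 ≤ y) (hdis : Disjoint Pb Ps)
    (hun : x.primeFactors = Pb ∪ Ps) (hsub : y.primeFactors ⊆ x.primeFactors)
    (hpar : ∀ q ∈ Ps, x0 * y.factorization q = x.factorization q * y0) :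
    x ^ y0 * (∏ p ∈ Pb, p ^ y.factorization p) ^ x0 = y ^ x0 * (∏ p ∈ Pb, p ^ x.factorization p) ^ y0 := by
  classical
  have eX : (∏ p ∈ Pb, p ^ x.factorization p) * (∏ p ∈ Ps, p ^ x.factorization p) = x := by
    have := Nat.prod_factorization_pow_eq_self (n := x) (by omega)
    rw [Finsupp.prod, Nat.support_factorization, hun, Finset.prod_union hdis] at this
    exact this
  have eY : (∏ p ∈ Pb, p ^ y.factorization p) * (∏ p ∈ Ps, p ^ y.factorization p) = y := by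
    have h1 := Nat.prod_factorization_pow_eq_self (n := y) (by omega)
    rw [Finsupp.prod, Nat.support_factorization] at h1
    have h2 : ∏ p ∈ y.primeFactors, p ^ y.factorization p = ∏ p ∈ x.primeFactors, p ^ y.factorization p := by
      refine Finset.prod_subset hsub ?_
      intro p _ hp
      rw [← Nat.support_factorization, Finsupp.notMem_support_iff] at hp
      rw [hp, pow_zero]
    rw [h2, hun, Finset.prod_union hdis] at h1
    exact h1
  have eN : (∏ p ∈ Ps, p ^ x.factorization p) ^ y0 = (∏ p ∈ Ps, p ^ y.factorization p) ^ x0 := by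
    rw [← Finset.prod_pow, ← Finset.prod_pow]
    refine Finset.prod_congr rfl fun p hp => ?_
    rw [← pow_mul, ← pow_mul, ← hpar p hp, mul_comm]
  set A := ∏ p ∈ Pb, p ^ x.factorization p
  set B := ∏ p ∈ Pb, p ^ y.factorization p
  set n := ∏ p ∈ Ps, p ^ x.factorization p
  set m := ∏ p ∈ Ps, p ^ y.factorization p
  calc x ^ y0 * B ^ x0 = (A * n) ^ y0 * B ^ x0 := by rw [eX]
    _ = A ^ y0 * n ^ y0 * B ^ x0 := by rw [mul_pow]
    _ = A ^ y0 * m ^ x0 * B ^ x0 := by rw [eN]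
    _ = (B * m) ^ x0 * A ^ y0 := by rw [mul_pow]; ring
    _ = y ^ x0 * A ^ y0 := by rw [eY]

end Pool.Agent.MD50
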