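import Mathlib
import Pool.Agent.helper50.MD.Para

/-!
# The general lemma for a relation with a large exponent
-/

set_option autoImplicit false

namespace Pool.Agent.MD50

open Finset

theorem part_dvd (P : Finset ℕ) (hP : ∀ p ∈ P, p.Prime) (y : ℕ) :
    (∏ p ∈ P, p ^ y.factorization p) ∣ y := by
  refine Finset.prod_dvd_of_isRelPrime ?_ fun p _ => Nat.ordProj_dvd y p
  intro p hp q hq hpq
  have hcop : Nat.Coprime (p ^ y.factorization p) (q ^ y.factorization q) :=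
    Nat.Coprime.pow _ _ ((Nat.coprime_primes (hP p hp) (hP q hq)).2 hpq)
  exact Nat.coprime_iff_isRelPrime.1 hcop

theorem part_pf (P : Finset ℕ) (hP : ∀ p ∈ P, p.Prime) (f : ℕ → ℕ) :
    (∏ p ∈ P, p ^ f p).primeFactors ⊆ (∏ p ∈ P, p).primeFactors := by
  intro q hq
  rw [Nat.primeFactors_prod hP]
  have hqp := Nat.prime_of_mem_primeFactors hq
  have hd := Nat.dvd_of_mem_primeFactors hq
  obtain ⟨p, hp, hqd⟩ := (hqp.prime.dvd_finsetProd_iff _).1 hd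
  have := (Nat.prime_dvd_prime_iff_eq hqp (hP p hp)).1 (hqp.dvd_of_dvd_pow hqd)
  rw [this]
  exact hp

/-- one factor of `DD` -/
theorem factor {x y x0 y0 X2 Y2 : ℕ} (hid : x ^ y0 * Y2 ^ x0 = y ^ x0 * X2 ^ y0) (hX2 : 1 ≤ X2)
    (hxy : x ^ y0 ≠ y ^ x0) : ((Y2 : ℤ) ^ (2 * x0) - (X2 : ℤ) ^ (2 * y0)) ≠ 0 := by
  intro h
  have h1 : (Y2 : ℤ) ^ (2 * x0) = (X2 : ℤ) ^ (2 * y0) := sub_eq_zero.1 h
  have h2 : Y2 ^ (2 * x0) = X2 ^ (2 * y0) := by exact_mod_cast h1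
  have h3 : (Y2 ^ x0) ^ 2 = (X2 ^ y0) ^ 2 := by
    rw [← pow_mul, ← pow_mul, mul_comm x0, mul_comm y0]
    exact h2
  have h4 : Y2 ^ x0 = X2 ^ y0 := Nat.pow_left_injective (by norm_num : (2 : ℕ) ≠ 0) h3
  rw [h4] at hid
  exact hxy (Nat.eq_of_mul_eq_mul_right (pow_pos hX2 _) hid)

theorem factor_dvd {p x y x0 y0 X2 Y2 : ℕ} (hid : x ^ y0 * Y2 ^ x0 = y ^ x0 * X2 ^ y0)
    (hx : (x : ZMod p) ^ 2 = 1) (hy : (y : ZMod p) ^ 2 = 1) :
    p ∣ ((Y2 : ℤ) ^ (2 * x0) - (X2 : ℤ) ^ (2 * y0)).natAbs := by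
  have h1 : (x : ZMod p) ^ y0 * (Y2 : ZMod p) ^ x0 = (y : ZMod p) ^ x0 * (X2 : ZMod p) ^ y0 := by
    exact_mod_cast congrArg (Nat.cast (R := ZMod p)) hid
  have h2 : ((x : ZMod p) ^ y0) ^ 2 = 1 := by rw [← pow_mul, mul_comm, pow_mul, hx, one_pow]
  have h3 : ((y : ZMod p) ^ x0) ^ 2 = 1 := by rw [← pow_mul, mul_comm, pow_mul, hy, one_pow]
  have h4 : ((Y2 : ZMod p) ^ x0) ^ 2 = ((X2 : ZMod p) ^ y0) ^ 2 := by
    have : ((x : ZMod p) ^ y0) ^ 2 * ((Y2 : ZMod p) ^ x0) ^ 2 =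
        ((y : ZMod p) ^ x0) ^ 2 * ((X2 : ZMod p) ^ y0) ^ 2 := by
      rw [← mul_pow, h1, mul_pow]
    rwa [h2, h3, one_mul, one_mul] at this
  have h5 : (((Y2 : ℤ) ^ (2 * x0) - (X2 : ℤ) ^ (2 * y0) : ℤ) : ZMod p) = 0 := by
    push_cast
    rw [mul_comm 2 x0, mul_comm 2 y0, pow_mul, pow_mul, h4, sub_self]
  exact Int.natCast_dvd.1 ((ZMod.intCast_zmod_eq_zero_iff_dvd _ p).1 h5)

theorem factor_le {W K x0 y0 X2 Y2 : ℕ} (hW : 1 ≤ W) (hX : X2 ≤ W) (hY : Y2 ≤ W) (hx0 : x0 ≤ K) (hy0 : y0 ≤ K) :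
    ((Y2 : ℤ) ^ (2 * x0) - (X2 : ℤ) ^ (2 * y0)).natAbs ≤ W ^ (2 * K) := by
  have h1 : Y2 ^ (2 * x0) ≤ W ^ (2 * K) :=
    (Nat.pow_le_pow_left hY _).trans (Nat.pow_le_pow_right hW (by omega))
  have h2 : X2 ^ (2 * y0) ≤ W ^ (2 * K) :=
    (Nat.pow_le_pow_left hX _).trans (Nat.pow_le_pow_right hW (by omega))
  have h3 : ((Y2 : ℤ) ^ (2 * x0) - (X2 : ℤ) ^ (2 * y0)) =
      ((Y2 ^ (2 * x0) : ℕ) : ℤ) - ((X2 ^ (2 * y0) : ℕ) : ℤ) := by push_cast; rfl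
  rw [h3]
  omega

/-- **The general lemma.** -/
theorem largeG {W K x y z xs α β γ : ℕ} (hK : 1 ≤ K) (hx : 2 ≤ x) (hxW : x ≤ W) (hy : 2 ≤ y) (hyW : y ≤ W)
    (hz : 2 ≤ z) (hzW : z ≤ W) (hα : 1 ≤ α) (hβ : 1 ≤ β) (hγ : 1 ≤ γ)
    (hg : Nat.gcd α (Nat.gcd β γ) = 1) (hbig : K ^ 2 < α ∨ K ^ 2 < β ∨ K ^ 2 < γ)
    (he : x ^ α = y ^ β * z ^ γ) (hxy : ∀ i j : ℕ, 1 ≤ j → x ^ i ≠ y ^ j) (hxz : ∀ i j : ℕ, 1 ≤ j → x ^ i ≠ z ^ j)
    (hs1 : 1 ≤ xs) (hsW : xs ≤ W)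
    (hstar : ∀ p ∈ xs.primeFactors, (x : ZMod p) ^ 2 = 1 ∧ ((y : ZMod p) ^ 2 = 1 ∨ (z : ZMod p) ^ 2 = 1)) :
    ∃ q ∈ PR W K, 1 ≤ DD q ∧ DD q ≤ W ^ (4 * K) ∧ xs ∈ FN W (DD q) := by
  classical
  have p1 : x.primeFactors = y.primeFactors ∪ z.primeFactors :=
    pf_eq (by omega) (by omega) (by omega) (by omega) (by omega) he
  have sY : y.primeFactors ⊆ x.primeFactors := by rw [p1]; exact subset_union_left
  have sZ : z.primeFactors ⊆ x.primeFactors := by rw [p1]; exact subset_union_right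
  set Pb : Finset ℕ := x.primeFactors.filter fun p =>
    K < x.factorization p ∨ K < y.factorization p ∨ K < z.factorization p with hPb
  set Ps : Finset ℕ := x.primeFactors.filter fun p =>
    ¬ (K < x.factorization p ∨ K < y.factorization p ∨ K < z.factorization p) with hPs
  have hdis : Disjoint Pb Ps := Finset.disjoint_filter_filter_not _ _ _
  have hun : x.primeFactors = Pb ∪ Ps := (Finset.filter_union_filter_not_eq _ _).symm
  have hpr : ∀ p ∈ Pb, p.Prime := fun p hp => Nat.prime_of_mem_primeFactors (Finset.mem_filter.1 hp).1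
  have hR : (∏ p ∈ Pb, p) ∈ RS W K := by
    have hd : (∏ p ∈ Pb, p) ^ (K + 1) ∣ x * y * z := by
      refine prod_pow_dvd Pb hpr fun p hp => ?_
      have hpp := hpr p hp
      rcases (Finset.mem_filter.1 hp).2 with h | h | h
      · have : p ^ (K + 1) ∣ x := (hpp.pow_dvd_iff_le_factorization (by omega)).2 h
        exact (this.mul_right y).mul_right z
      · have : p ^ (K + 1) ∣ y := (hpp.pow_dvd_iff_le_factorization (by omega)).2 h
        exact (this.mul_left x).mul_right z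
      · have : p ^ (K + 1) ∣ z := (hpp.pow_dvd_iff_le_factorization (by omega)).2 h
        exact this.mul_left (x * y)
    have hpos : 0 < x * y * z := by positivity
    have hle : x * y * z ≤ W ^ 3 := by
      calc x * y * z ≤ W * W * W := Nat.mul_le_mul (Nat.mul_le_mul hxW hyW) hzW
        _ = W ^ 3 := by ring
    have hR1 : (∏ p ∈ Pb, p) ^ (K + 1) ≤ W ^ 3 := (Nat.le_of_dvd hpos hd).trans hle
    have hR0 : 0 < ∏ p ∈ Pb, p := Finset.prod_pos fun p hp => (hpr p hp).pos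
    rw [RS, mem_filter, mem_Icc]
    refine ⟨⟨hR0, le_trans ?_ hR1⟩, hR1⟩
    exact Nat.le_self_pow (by omega) _
  have hps : ∀ p ∈ Ps, x.factorization p ≤ K ∧ y.factorization p ≤ K ∧ z.factorization p ≤ K := by
    intro p hp
    have := (Finset.mem_filter.1 hp).2
    push Not at this
    exact this
  have hps1 : ∀ p ∈ Ps, 1 ≤ x.factorization p := by
    intro p hp
    have hp1 := (Finset.mem_filter.1 hp).1
    exact (Nat.prime_of_mem_primeFactors hp1).factorization_pos_of_dvd (by omega) (Nat.dvd_of_mem_primeFactors hp1)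
  have hv := fun p => val (α := α) (β := β) (γ := γ) (by omega) (by omega) he p
  -- the direction
  obtain ⟨x0, y0, z0, hx0, hx0K, hy0K, hz0K, hparY, hparZ⟩ : ∃ x0 y0 z0 : ℕ, 1 ≤ x0 ∧ x0 ≤ K ∧ y0 ≤ K ∧ z0 ≤ K ∧
      (∀ q ∈ Ps, x0 * y.factorization q = x.factorization q * y0) ∧
      (∀ q ∈ Ps, x0 * z.factorization q = x.factorization q * z0) := by
    rcases Finset.eq_empty_or_nonempty Ps with h | ⟨p0, hp0⟩
    · refine ⟨1, 0, 0, le_rfl, hK, by omega, by omega, ?_, ?_⟩ <;>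
      · intro q hq
        rw [h] at hq
        exact absurd hq (Finset.notMem_empty q)
    · refine ⟨x.factorization p0, y.factorization p0, z.factorization p0, hps1 p0 hp0, (hps p0 hp0).1,
        (hps p0 hp0).2.1, (hps p0 hp0).2.2, ?_, ?_⟩
      · intro q hq
        exact (parallel2 hα hβ hγ hg hbig (hps p0 hp0).1 (hps p0 hp0).2.1 (hps p0 hp0).2.2 (hps q hq).1
          (hps q hq).2.1 (hps q hq).2.2 (hv p0) (hv q)).1
      · intro q hq
        exact (parallel2 hα hβ hγ hg hbig (hps p0 hp0).1 (hps p0 hp0).2.1 (hps p0 hp0).2.2 (hps q hq).1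
          (hps q hq).2.1 (hps q hq).2.2 (hv p0) (hv q)).2
  have idY := twoid Pb Ps (by omega : 1 ≤ x) (by omega : 1 ≤ y) hdis hun sY hparY
  have idZ := twoid Pb Ps (by omega : 1 ≤ x) (by omega : 1 ≤ z) hdis hun sZ hparZ
  have dX := part_dvd Pb hpr x
  have dY := part_dvd Pb hpr y
  have dZ := part_dvd Pb hpr z
  have fX := part_pf Pb hpr (fun p => x.factorization p)
  have fY := part_pf Pb hpr (fun p => y.factorization p)
  have fZ := part_pf Pb hpr (fun p => z.factorization p)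
  set X2 : ℕ := ∏ p ∈ Pb, p ^ x.factorization p with hX2
  set Y2 : ℕ := ∏ p ∈ Pb, p ^ y.factorization p with hY2
  set Z2 : ℕ := ∏ p ∈ Pb, p ^ z.factorization p with hZ2
  have hX20 : 0 < X2 := Finset.prod_pos fun p hp => pow_pos (hpr p hp).pos _
  have hY20 : 0 < Y2 := Finset.prod_pos fun p hp => pow_pos (hpr p hp).pos _
  have hZ20 : 0 < Z2 := Finset.prod_pos fun p hp => pow_pos (hpr p hp).pos _
  have hX2W : X2 ≤ W := (Nat.le_of_dvd (by omega) dX).trans hxW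
  have hY2W : Y2 ≤ W := (Nat.le_of_dvd (by omega) dY).trans hyW
  have hZ2W : Z2 ≤ W := (Nat.le_of_dvd (by omega) dZ).trans hzW
  have hW : 1 ≤ W := by omega
  have nY := factor idY hX20 (hxy y0 x0 hx0)
  have nZ := factor idZ hX20 (hxz z0 x0 hx0)
  have lY := factor_le hW hX2W hY2W hx0K hy0K
  have lZ := factor_le hW hX2W hZ2W hx0K hz0K
  refine ⟨((X2, Y2, Z2), (x0, y0, z0)), ?_, ?_, ?_, ?_⟩
  · rw [PR, mem_product, mem_biUnion, mem_product, mem_product, mem_range, mem_range, mem_range]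
    refine ⟨⟨_, hR, ?_⟩, by simp only; omega, by simp only; omega, by simp only; omega⟩
    rw [mem_product, mem_product]
    exact ⟨mem_FN.2 ⟨⟨hX20, hX2W⟩, fX⟩, mem_FN.2 ⟨⟨hY20, hY2W⟩, fY⟩, mem_FN.2 ⟨⟨hZ20, hZ2W⟩, fZ⟩⟩
  · exact Nat.mul_pos (Int.natAbs_pos.2 nY) (Int.natAbs_pos.2 nZ)
  · calc DD ((X2, Y2, Z2), (x0, y0, z0)) ≤ W ^ (2 * K) * W ^ (2 * K) := Nat.mul_le_mul lY lZ
      _ = W ^ (4 * K) := by rw [← pow_add]; congr 1; ring
  · refine mem_FN.2 ⟨⟨hs1, hsW⟩, ?_⟩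
    intro p hp
    refine Nat.mem_primeFactors.2 ⟨Nat.prime_of_mem_primeFactors hp, ?_, ?_⟩
    · obtain ⟨h1, h2 | h2⟩ := hstar p hp
      · exact (factor_dvd idY h1 h2).mul_right _
      · exact (factor_dvd idZ h1 h2).mul_left _
    · exact (Nat.mul_pos (Int.natAbs_pos.2 nY) (Int.natAbs_pos.2 nZ)).ne'

end Pool.Agent.MD50
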