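import Mathlib
import Pool.Agent.helper50.MD.Gen

/-!
# The count for relations with a large exponent
-/

set_option autoImplicit false

namespace Pool.Agent.MD50

open Finset

/-- the possible values of the isolated number, shifted -/
def XU (W K : ℕ) : Finset ℕ :=
  ((PR W K).filter fun q => 1 ≤ DD q ∧ DD q ≤ W ^ (4 * K)).biUnion fun q => FN W (DD q)

theorem PR_card (W K : ℕ) (hW : 1 ≤ W) (a : ℝ)
    (ha : ∀ m : ℕ, 1 ≤ m → m ≤ W ^ (4 * K + 3) → ((FN W m).card : ℝ) ≤ a) :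
    ((PR W K).card : ℝ) ≤ (W : ℝ) ^ ((3 : ℝ) / ((K : ℝ) + 1)) * a ^ 3 * ((K : ℝ) + 1) ^ 3 := by
  have ha0 : 0 ≤ a := le_trans (Nat.cast_nonneg _) (ha 1 le_rfl (Nat.one_le_pow _ _ hW))
  have h1 : ((((RS W K).biUnion fun R => FN W R ×ˢ FN W R ×ˢ FN W R).card : ℕ) : ℝ) ≤
      (W : ℝ) ^ ((3 : ℝ) / ((K : ℝ) + 1)) * a ^ 3 := by
    calc ((((RS W K).biUnion fun R => FN W R ×ˢ FN W R ×ˢ FN W R).card : ℕ) : ℝ)
        ≤ ∑ R ∈ RS W K, ((FN W R ×ˢ FN W R ×ˢ FN W R).card : ℝ) := by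
          exact_mod_cast Finset.card_biUnion_le
      _ ≤ ∑ _R ∈ RS W K, a ^ 3 := by
          refine Finset.sum_le_sum fun R hR => ?_
          rw [RS, mem_filter, mem_Icc] at hR
          have h1 := ha R hR.1.1 (hR.1.2.trans (Nat.pow_le_pow_right hW (by omega)))
          have h0 : (0 : ℝ) ≤ ((FN W R).card : ℝ) := Nat.cast_nonneg _
          rw [Finset.card_product, Finset.card_product]
          push_cast
          calc ((FN W R).card : ℝ) * (((FN W R).card : ℝ) * ((FN W R).card : ℝ)) ≤ a * (a * a) :=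
                mul_le_mul h1 (mul_le_mul h1 h1 h0 ha0) (by positivity) ha0
            _ = a ^ 3 := by ring
      _ = ((RS W K).card : ℝ) * a ^ 3 := by rw [Finset.sum_const, nsmul_eq_mul]
      _ ≤ (W : ℝ) ^ ((3 : ℝ) / ((K : ℝ) + 1)) * a ^ 3 :=
          mul_le_mul_of_nonneg_right (RS_card W K hW) (by positivity)
  have h2 : ((PR W K).card : ℝ) =
      ((((RS W K).biUnion fun R => FN W R ×ˢ FN W R ×ˢ FN W R).card : ℕ) : ℝ) * ((K : ℝ) + 1) ^ 3 := by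
    rw [PR, Finset.card_product, Finset.card_product, Finset.card_product, Finset.card_range]
    push_cast
    ring
  rw [h2]
  exact mul_le_mul_of_nonneg_right h1 (by positivity)

theorem XU_card (W K : ℕ) (hW : 1 ≤ W) (a : ℝ)
    (ha : ∀ m : ℕ, 1 ≤ m → m ≤ W ^ (4 * K + 3) → ((FN W m).card : ℝ) ≤ a) :
    ((XU W K).card : ℝ) ≤ (W : ℝ) ^ ((3 : ℝ) / ((K : ℝ) + 1)) * a ^ 3 * ((K : ℝ) + 1) ^ 3 * a := by
  have ha0 : 0 ≤ a := le_trans (Nat.cast_nonneg _) (ha 1 le_rfl (Nat.one_le_pow _ _ hW))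
  calc ((XU W K).card : ℝ) ≤ ∑ q ∈ (PR W K).filter (fun q => 1 ≤ DD q ∧ DD q ≤ W ^ (4 * K)),
        ((FN W (DD q)).card : ℝ) := by
        exact_mod_cast Finset.card_biUnion_le
    _ ≤ ∑ _q ∈ (PR W K).filter (fun q => 1 ≤ DD q ∧ DD q ≤ W ^ (4 * K)), a := by
        refine Finset.sum_le_sum fun q hq => ?_
        have hq2 := (mem_filter.1 hq).2
        exact ha _ hq2.1 (hq2.2.trans (Nat.pow_le_pow_right hW (by omega)))
    _ = (((PR W K).filter (fun q => 1 ≤ DD q ∧ DD q ≤ W ^ (4 * K))).card : ℝ) * a := by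
        rw [Finset.sum_const, nsmul_eq_mul]
    _ ≤ ((PR W K).card : ℝ) * a := by
        refine mul_le_mul_of_nonneg_right ?_ ha0
        exact_mod_cast Finset.card_le_card (Finset.filter_subset _ _)
    _ ≤ (W : ℝ) ^ ((3 : ℝ) / ((K : ℝ) + 1)) * a ^ 3 * ((K : ℝ) + 1) ^ 3 * a :=
        mul_le_mul_of_nonneg_right (PR_card W K hW a ha) ha0

/-- large exponent in the relation of the triple -/
def CaseU (N K : ℕ) (t : ℕ × ℕ × ℕ) : Prop :=
  t.1 + 1 ∈ XU (N + 1) K ∧ t.2.1 ∈ FN (N + 1) t.1 ∧ t.2.2 ∈ FN (N + 1) t.1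

/-- large exponent in the relation of the shifted triple -/
def CaseV (N K : ℕ) (t : ℕ × ℕ × ℕ) : Prop :=
  t.1 ∈ XU (N + 1) K ∧ t.2.1 + 1 ∈ FN (N + 1) (t.1 + 1) ∧ t.2.2 + 1 ∈ FN (N + 1) (t.1 + 1)

theorem arrU (K : ℕ) (ε : ℝ) (hε : 0 < ε) : ∃ C : ℝ, 0 < C ∧ ∀ (N : ℕ) (T : Finset (ℕ × ℕ × ℕ)),
    T ⊆ box N → (∀ t ∈ T, CaseU N K t ∨ CaseV N K t) →
    (T.card : ℝ) ≤ C * ((N + 1 : ℕ) : ℝ) ^ (((3 : ℝ) / ((K : ℝ) + 1)) + ε) := by
  classical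
  obtain ⟨K1, hK1, hF⟩ := FN_le' (ε / 6) (by linarith) (4 * K + 3)
  refine ⟨2 * (K1 ^ 6 * ((K : ℝ) + 1) ^ 3), by positivity, fun N T hT hcase => ?_⟩
  set W : ℕ := N + 1 with hW
  have hW1 : 1 ≤ W := by omega
  have hWr : (1 : ℝ) ≤ W := by exact_mod_cast hW1
  set a : ℝ := K1 * (W : ℝ) ^ (ε / 6) with ha
  have ha0 : 0 ≤ a := by positivity
  have hFa : ∀ m : ℕ, 1 ≤ m → m ≤ W ^ (4 * K + 3) → ((FN W m).card : ℝ) ≤ a :=
    fun m h1 h2 => hF W m hW1 h1 h2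
  set k : ℝ := (3 : ℝ) / ((K : ℝ) + 1) with hk
  have hXU := XU_card W K hW1 a hFa
  rw [← hk] at hXU
  have bx : ∀ t ∈ T, (2 ≤ t.1 ∧ t.1 ≤ N) ∧ (2 ≤ t.2.1 ∧ t.2.1 ≤ N) ∧ 2 ≤ t.2.2 ∧ t.2.2 ≤ N :=
    fun t ht => mem_box.1 (hT ht)
  have b4 : ∀ m : ℕ, m ≤ W → m ≤ W ^ (4 * K + 3) := fun m hm => hm.trans (Nat.le_self_pow (by omega) W)
  have cU : ((T.filter fun t => CaseU N K t).card : ℝ) ≤ (XU W K).card * a * a := by
    refine cnt2 (T := T.filter fun t => CaseU N K t) (fun t => t.1 + 1) (fun t => t.2.1) (fun t => t.2.2)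
      (XU W K) (fun x => FN W (x - 1)) (fun x _ => FN W (x - 1)) a a ha0 ha0 ?_ ?_ ?_ ?_ ?_ ?_
    · intro t ht
      obtain ⟨h1, -, -⟩ := bx t (mem_filter.1 ht).1
      exact hFa _ (by omega) (b4 _ (by omega))
    · intro t ht
      obtain ⟨h1, -, -⟩ := bx t (mem_filter.1 ht).1
      exact hFa _ (by omega) (b4 _ (by omega))
    · rintro ⟨x, y, z⟩ _ ⟨x', y', z'⟩ _ e1 e2 e3
      simp only at e1 e2 e3
      have e4 : x = x' := by omega
      rw [e4, e2, e3]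
    · exact fun t ht => (mem_filter.1 ht).2.1
    · exact fun t ht => (mem_filter.1 ht).2.2.1
    · exact fun t ht => (mem_filter.1 ht).2.2.2
  have cV : ((T.filter fun t => CaseV N K t).card : ℝ) ≤ (XU W K).card * a * a := by
    refine cnt2 (T := T.filter fun t => CaseV N K t) (fun t => t.1) (fun t => t.2.1 + 1) (fun t => t.2.2 + 1)
      (XU W K) (fun x => FN W (x + 1)) (fun x _ => FN W (x + 1)) a a ha0 ha0 ?_ ?_ ?_ ?_ ?_ ?_
    · intro t ht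
      obtain ⟨h1, -, -⟩ := bx t (mem_filter.1 ht).1
      exact hFa _ (by omega) (b4 _ (by omega))
    · intro t ht
      obtain ⟨h1, -, -⟩ := bx t (mem_filter.1 ht).1
      exact hFa _ (by omega) (b4 _ (by omega))
    · rintro ⟨x, y, z⟩ _ ⟨x', y', z'⟩ _ e1 e2 e3
      simp only at e1 e2 e3
      have e4 : y = y' := by omega
      have e5 : z = z' := by omega
      rw [e1, e4, e5]
    · exact fun t ht => (mem_filter.1 ht).2.1
    · exact fun t ht => (mem_filter.1 ht).2.2.1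
    · exact fun t ht => (mem_filter.1 ht).2.2.2
  have hsub : T ⊆ (T.filter fun t => CaseU N K t) ∪ (T.filter fun t => CaseV N K t) := by
    intro t ht
    simp only [mem_union, mem_filter, ht, true_and]
    exact hcase t ht
  have hreal : (T.card : ℝ) ≤ ((T.filter fun t => CaseU N K t).card : ℝ) +
      ((T.filter fun t => CaseV N K t).card : ℝ) := by
    exact_mod_cast (Finset.card_le_card hsub).trans (Finset.card_union_le _ _)
  have hmul : ((XU W K).card : ℝ) * a * a ≤ (W : ℝ) ^ k * a ^ 3 * ((K : ℝ) + 1) ^ 3 * a * a * a :=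
    mul_le_mul_of_nonneg_right (mul_le_mul_of_nonneg_right hXU ha0) ha0
  have hfin : (T.card : ℝ) ≤ 2 * ((W : ℝ) ^ k * a ^ 3 * ((K : ℝ) + 1) ^ 3 * a * a * a) := by linarith
  refine hfin.trans (le_of_eq ?_)
  have hpos : (0 : ℝ) < W := by linarith
  have ha6 : a ^ 6 = K1 ^ 6 * (W : ℝ) ^ ε := by
    rw [ha, mul_pow, ← Real.rpow_natCast ((W : ℝ) ^ (ε / 6)), ← Real.rpow_mul hpos.le]
    congr 2
    push_cast
    ring
  calc 2 * ((W : ℝ) ^ k * a ^ 3 * ((K : ℝ) + 1) ^ 3 * a * a * a)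
      = 2 * ((W : ℝ) ^ k * ((K : ℝ) + 1) ^ 3 * a ^ 6) := by ring
    _ = 2 * (K1 ^ 6 * ((K : ℝ) + 1) ^ 3) * ((W : ℝ) ^ k * (W : ℝ) ^ ε) := by rw [ha6]; ring
    _ = 2 * (K1 ^ 6 * ((K : ℝ) + 1) ^ 3) * (W : ℝ) ^ (k + ε) := by rw [Real.rpow_add hpos]

/-- a primitive relation with a large exponent -/
def BigRel (B x y z : ℕ) : Prop := ∃ α β γ : ℕ, 1 ≤ α ∧ 1 ≤ β ∧ 1 ≤ γ ∧
  Nat.gcd α (Nat.gcd β γ) = 1 ∧ (B < α ∨ B < β ∨ B < γ) ∧ x ^ α = y ^ β * z ^ γ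

/-- no power of `x` is a positive power of `y` -/
def Indep (x y : ℕ) : Prop := ∀ i j : ℕ, 1 ≤ j → x ^ i ≠ y ^ j

/-- the arrangements counted -/
def GoodU (K : ℕ) (t : ℕ × ℕ × ℕ) : Prop :=
  (BigRel (K ^ 2) t.1 t.2.1 t.2.2 ∧ Indep t.1 t.2.1 ∧ Indep t.1 t.2.2 ∧
    (t.1 + 1).primeFactors ⊆ (t.2.1 + 1).primeFactors ∪ (t.2.2 + 1).primeFactors) ∨
  (BigRel (K ^ 2) (t.1 + 1) (t.2.1 + 1) (t.2.2 + 1) ∧ Indep (t.1 + 1) (t.2.1 + 1) ∧
    Indep (t.1 + 1) (t.2.2 + 1) ∧ t.1.primeFactors ⊆ t.2.1.primeFactors ∪ t.2.2.primeFactors)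

theorem goodU_cases {N K : ℕ} (hK : 1 ≤ K) {t : ℕ × ℕ × ℕ} (ht : t ∈ box N) (hg : GoodU K t) :
    CaseU N K t ∨ CaseV N K t := by
  obtain ⟨X, Y, Z⟩ := t
  obtain ⟨⟨hX, hXN⟩, ⟨hY, hYN⟩, hZ, hZN⟩ := mem_box.1 ht
  simp only at hX hXN hY hYN hZ hZN
  rcases hg with ⟨⟨α, β, γ, hα, hβ, hγ, hgc, hbig, he⟩, i1, i2, hc⟩ | ⟨⟨α, β, γ, hα, hβ, hγ, hgc, hbig, he⟩, i1, i2, hc⟩
  · left
    simp only at he i1 i2 hc
    have p1 : X.primeFactors = Y.primeFactors ∪ Z.primeFactors :=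
      pf_eq (by omega) (by omega) (by omega) (by omega) (by omega) he
    have sY : Y.primeFactors ⊆ X.primeFactors := by rw [p1]; exact subset_union_left
    have sZ : Z.primeFactors ⊆ X.primeFactors := by rw [p1]; exact subset_union_right
    have mY : Y ∈ FN (N + 1) X := mem_FN.2 ⟨⟨by omega, by omega⟩, sY⟩
    have mZ : Z ∈ FN (N + 1) X := mem_FN.2 ⟨⟨by omega, by omega⟩, sZ⟩
    obtain ⟨q, q1, q2, q3, q4⟩ := largeG (W := N + 1) (xs := X + 1) hK hX (by omega) hY (by omega) hZ (by omega)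
      hα hβ hγ hgc hbig he i1 i2 (by omega) (by omega) (by
        intro p hp
        refine ⟨sq_succ (Nat.dvd_of_mem_primeFactors hp), ?_⟩
        rcases mem_union.1 (hc hp) with h | h
        · exact Or.inl (sq_succ (Nat.dvd_of_mem_primeFactors h))
        · exact Or.inr (sq_succ (Nat.dvd_of_mem_primeFactors h)))
    exact ⟨mem_biUnion.2 ⟨q, mem_filter.2 ⟨q1, q2, q3⟩, q4⟩, mY, mZ⟩
  · right
    simp only at he i1 i2 hc
    have p1 : (X + 1).primeFactors = (Y + 1).primeFactors ∪ (Z + 1).primeFactors :=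
      pf_eq (by omega) (by omega) (by omega) (by omega) (by omega) he
    have sY : (Y + 1).primeFactors ⊆ (X + 1).primeFactors := by rw [p1]; exact subset_union_left
    have sZ : (Z + 1).primeFactors ⊆ (X + 1).primeFactors := by rw [p1]; exact subset_union_right
    have mY : Y + 1 ∈ FN (N + 1) (X + 1) := mem_FN.2 ⟨⟨by omega, by omega⟩, sY⟩
    have mZ : Z + 1 ∈ FN (N + 1) (X + 1) := mem_FN.2 ⟨⟨by omega, by omega⟩, sZ⟩
    obtain ⟨q, q1, q2, q3, q4⟩ := largeG (W := N + 1) (xs := X) hK (by omega : 2 ≤ X + 1) (by omega)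
      (by omega : 2 ≤ Y + 1) (by omega) (by omega : 2 ≤ Z + 1) (by omega)
      hα hβ hγ hgc hbig he i1 i2 (by omega) (by omega) (by
        intro p hp
        refine ⟨sq_pred (Nat.dvd_of_mem_primeFactors hp), ?_⟩
        rcases mem_union.1 (hc hp) with h | h
        · exact Or.inl (sq_pred (Nat.dvd_of_mem_primeFactors h))
        · exact Or.inr (sq_pred (Nat.dvd_of_mem_primeFactors h)))
    exact ⟨mem_biUnion.2 ⟨q, mem_filter.2 ⟨q1, q2, q3⟩, q4⟩, mY, mZ⟩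

/-- **The count for large exponents.** -/
theorem countU (ε : ℝ) (hε : 0 < ε) : ∃ K : ℕ, ∃ C : ℝ, 0 < C ∧ ∀ (N : ℕ) (T : Finset (ℕ × ℕ × ℕ)),
    T ⊆ box N → (∀ t ∈ T, GoodU K (t.1, t.2.1, t.2.2) ∨ GoodU K (t.2.1, t.1, t.2.2) ∨
      GoodU K (t.2.2, t.1, t.2.1)) → (T.card : ℝ) ≤ C * (N : ℝ) ^ ε := by
  classical
  set K : ℕ := ⌈6 / ε⌉₊ + 1 with hK
  have hKε : (3 : ℝ) / ((K : ℝ) + 1) ≤ ε / 2 := by
    have h1 : 6 / ε ≤ (K : ℝ) := by
      rw [hK]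
      push_cast
      linarith [Nat.le_ceil (6 / ε)]
    have h2 : 6 / ε * ε = 6 := div_mul_cancel₀ _ hε.ne'
    rw [div_le_iff₀ (by positivity)]
    nlinarith
  obtain ⟨C, hC, h⟩ := arrU K (ε / 2) (by linarith)
  refine ⟨K, 3 * (C * (2 : ℝ) ^ ε), by positivity, fun N T hT hg => ?_⟩
  rcases Nat.eq_zero_or_pos N with rfl | hN
  · have h0 : T = ∅ := by
      rw [← Finset.subset_empty]
      intro t ht
      have := (mem_box.1 (hT ht)).1
      omega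
    rw [h0]
    simp only [Finset.card_empty, Nat.cast_zero]
    positivity
  set U : Finset (ℕ × ℕ × ℕ) := (box N).filter fun t => GoodU K t with hU
  have hUc : (U.card : ℝ) ≤ C * ((N + 1 : ℕ) : ℝ) ^ (((3 : ℝ) / ((K : ℝ) + 1)) + ε / 2) := by
    refine h N U (Finset.filter_subset _ _) (fun t ht => ?_)
    have ht2 := mem_filter.1 ht
    exact goodU_cases (by omega) ht2.1 ht2.2
  have hsub : T ⊆ U.image (fun t => (t.1, t.2.1, t.2.2)) ∪ U.image (fun t => (t.2.1, t.1, t.2.2)) ∪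
      U.image (fun t => (t.2.1, t.2.2, t.1)) := by
    rintro ⟨a, b, c⟩ ht
    obtain ⟨ha, hb, hc⟩ := mem_box.1 (hT ht)
    simp only at ha hb hc
    have hg' := hg _ ht
    simp only [mem_union, mem_image]
    rcases hg' with h | h | h
    · exact Or.inl (Or.inl ⟨(a, b, c), mem_filter.2 ⟨mem_box.2 ⟨ha, hb, hc⟩, h⟩, rfl⟩)
    · exact Or.inl (Or.inr ⟨(b, a, c), mem_filter.2 ⟨mem_box.2 ⟨hb, ha, hc⟩, h⟩, rfl⟩)
    · exact Or.inr ⟨(c, a, b), mem_filter.2 ⟨mem_box.2 ⟨hc, ha, hb⟩, h⟩, rfl⟩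
  have hnat : T.card ≤ 3 * U.card := by
    refine (Finset.card_le_card hsub).trans ?_
    have e : ∀ f : ℕ × ℕ × ℕ → ℕ × ℕ × ℕ, (U.image f).card ≤ U.card := fun f => Finset.card_image_le
    have e1 := e (fun t => (t.1, t.2.1, t.2.2))
    have e2 := e (fun t => (t.2.1, t.1, t.2.2))
    have e3 := e (fun t => (t.2.1, t.2.2, t.1))
    refine (Finset.card_union_le _ _).trans ?_
    have f2 := Finset.card_union_le (U.image (fun t => (t.1, t.2.1, t.2.2))) (U.image (fun t => (t.2.1, t.1, t.2.2)))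
    omega
  have hreal : (T.card : ℝ) ≤ 3 * (U.card : ℝ) := by exact_mod_cast hnat
  have hN1 : (1 : ℝ) ≤ ((N + 1 : ℕ) : ℝ) := by exact_mod_cast (by omega : 1 ≤ N + 1)
  have e3 : ((N + 1 : ℕ) : ℝ) ^ (((3 : ℝ) / ((K : ℝ) + 1)) + ε / 2) ≤ ((N + 1 : ℕ) : ℝ) ^ ε :=
    Real.rpow_le_rpow_of_exponent_le hN1 (by linarith)
  have hpow : ((N + 1 : ℕ) : ℝ) ^ ε ≤ (2 : ℝ) ^ ε * (N : ℝ) ^ ε := by
    rw [← Real.mul_rpow (by norm_num) (Nat.cast_nonneg N)]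
    refine Real.rpow_le_rpow (Nat.cast_nonneg _) ?_ hε.le
    have : (1 : ℝ) ≤ N := by exact_mod_cast hN
    push_cast
    linarith
  calc (T.card : ℝ) ≤ 3 * (U.card : ℝ) := hreal
    _ ≤ 3 * (C * ((N + 1 : ℕ) : ℝ) ^ (((3 : ℝ) / ((K : ℝ) + 1)) + ε / 2)) := by linarith
    _ ≤ 3 * (C * ((2 : ℝ) ^ ε * (N : ℝ) ^ ε)) := by
        have := mul_le_mul_of_nonneg_left (e3.trans hpow) hC.le
        linarith
    _ = 3 * (C * (2 : ℝ) ^ ε) * (N : ℝ) ^ ε := by ring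

end Pool.Agent.MD50
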