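import Mathlib
import Pool.Agent.helper50.MD.Gen2

/-!
# Triples with a given entry
-/

set_option autoImplicit false

namespace Pool.Agent.MD50

open Finset

/-- a relation in which the exponents of `y` and `z` are at most `B` -/
def BRel (B x y z : ℕ) : Prop :=
  ∃ α β γ : ℕ, 1 ≤ α ∧ 1 ≤ β ∧ 1 ≤ γ ∧ β ≤ B ∧ γ ≤ B ∧ x ^ α = y ^ β * z ^ γ

theorem BRel.symm {B x y z : ℕ} (h : BRel B x y z) : BRel B x z y := by
  obtain ⟨α, β, γ, h1, h2, h3, h4, h5, h6⟩ := h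
  exact ⟨α, γ, β, h1, h3, h2, h5, h4, by rw [h6, mul_comm]⟩

theorem BRel.rel {B x y z : ℕ} (h : BRel B x y z) : Rel x y z := by
  obtain ⟨α, β, γ, h1, h2, h3, -, -, h6⟩ := h
  exact ⟨α, β, γ, h1, h2, h3, h6⟩

/-- the arrangements counted -/
def GoodE (B : ℕ) (t : ℕ × ℕ × ℕ) : Prop :=
  BRel B t.1 t.2.1 t.2.2 ∧
    (Rel (t.1 + 1) (t.2.1 + 1) (t.2.2 + 1) ∨ Rel (t.2.1 + 1) (t.1 + 1) (t.2.2 + 1))

/-- one of the entries is `m` -/
def HasEntry (m : ℕ) (t : ℕ × ℕ × ℕ) : Prop := t.1 = m ∨ t.2.1 = m ∨ t.2.2 = m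

def CaseEnt (N M m : ℕ) (t : ℕ × ℕ × ℕ) : Prop :=
  (t.1 = m ∧ t.2.1 ∈ FN (N + 1) m ∧ t.2.2 ∈ FN (N + 1) m) ∨
  (t.2.1 = m ∧ t.2.2 + 1 ∈ FN (N + 1) (m ^ M - 1) ∧ t.1 ∈ FN (N + 1) (m * t.2.2)) ∨
  (t.2.2 = m ∧ t.2.1 + 1 ∈ FN (N + 1) (m ^ M - 1) ∧ t.1 ∈ FN (N + 1) (t.2.1 * m)) ∨
  (t.2.1 = m ∧ t.1 + 1 ∈ FN (N + 1) (m + 1) ∧ t.2.2 + 1 ∈ FN (N + 1) (m + 1)) ∨
  (t.2.2 = m ∧ t.1 + 1 ∈ FN (N + 1) (m ^ M - 1) ∧ t.2.1 ∈ FN (N + 1) t.1)

theorem goodE_cases {N B m : ℕ} {t : ℕ × ℕ × ℕ} (ht : t ∈ box N) (hg : GoodE B t) (hm : HasEntry m t) :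
    (t.1 = m ∧ t.2.1 ∈ FN (N + 1) m ∧ t.2.2 ∈ FN (N + 1) m) ∨
    (t.2.1 = m ∧ t.2.2 + 1 ∈ FN (N + 1) (m ^ (2 * B.factorial) - 1) ∧ t.1 ∈ FN (N + 1) (m * t.2.2)) ∨
    (t.2.2 = m ∧ t.2.1 + 1 ∈ FN (N + 1) (m ^ (2 * B.factorial) - 1) ∧ t.1 ∈ FN (N + 1) (t.2.1 * m)) ∨
    (t.2.1 = m ∧ t.1 + 1 ∈ FN (N + 1) (m + 1) ∧ t.2.2 + 1 ∈ FN (N + 1) (m + 1)) ∨
    (t.2.2 = m ∧ t.1 + 1 ∈ FN (N + 1) (m ^ (2 * B.factorial) - 1) ∧ t.2.1 ∈ FN (N + 1) t.1) := by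
  obtain ⟨X, Y, Z⟩ := t
  obtain ⟨⟨hX, hXN⟩, ⟨hY, hYN⟩, hZ, hZN⟩ := mem_box.1 ht
  obtain ⟨h1, h2⟩ := hg
  simp only [HasEntry] at hX hXN hY hYN hZ hZN h1 h2 hm ⊢
  have p1 := h1.rel.pf (by omega) (by omega)
  have sY : Y.primeFactors ⊆ X.primeFactors := by rw [p1]; exact subset_union_left
  have sZ : Z.primeFactors ⊆ X.primeFactors := by rw [p1]; exact subset_union_right
  have mX : X ∈ FN (N + 1) (Y * Z) :=
    mem_FN.2 ⟨⟨by omega, by omega⟩, by rw [Nat.primeFactors_mul (by omega) (by omega), p1]⟩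
  have mY : Y ∈ FN (N + 1) X := mem_FN.2 ⟨⟨by omega, by omega⟩, sY⟩
  have mZ : Z ∈ FN (N + 1) X := mem_FN.2 ⟨⟨by omega, by omega⟩, sZ⟩
  obtain ⟨α, β, γ, hα, hβ, hγ, hβB, hγB, he⟩ := h1
  have he' : X ^ α = Z ^ γ * Y ^ β := by rw [he, mul_comm]
  rcases hm with rfl | rfl | rfl
  · exact Or.inl ⟨rfl, mY, mZ⟩
  · rcases h2 with h2 | h2
    · have p2 := h2.pf (by omega) (by omega)
      have sZ' : (Z + 1).primeFactors ⊆ (X + 1).primeFactors := by rw [p2]; exact subset_union_right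
      refine Or.inr (Or.inl ⟨rfl, mem_FN.2 ⟨⟨by omega, by omega⟩, third hY hβ hβB he fun p hp =>
        ⟨sq_succ (Nat.dvd_of_mem_primeFactors (sZ' hp)), sq_succ (Nat.dvd_of_mem_primeFactors hp)⟩⟩, mX⟩)
    · have p2 := h2.pf (by omega) (by omega)
      have s1 : (X + 1).primeFactors ⊆ (Y + 1).primeFactors := by rw [p2]; exact subset_union_left
      have s2 : (Z + 1).primeFactors ⊆ (Y + 1).primeFactors := by rw [p2]; exact subset_union_right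
      exact Or.inr (Or.inr (Or.inr (Or.inl ⟨rfl, mem_FN.2 ⟨⟨by omega, by omega⟩, s1⟩,
        mem_FN.2 ⟨⟨by omega, by omega⟩, s2⟩⟩)))
  · rcases h2 with h2 | h2
    · have p2 := h2.pf (by omega) (by omega)
      have sY' : (Y + 1).primeFactors ⊆ (X + 1).primeFactors := by rw [p2]; exact subset_union_left
      refine Or.inr (Or.inr (Or.inl ⟨rfl, mem_FN.2 ⟨⟨by omega, by omega⟩, third hZ hγ hγB he' fun p hp =>
        ⟨sq_succ (Nat.dvd_of_mem_primeFactors (sY' hp)), sq_succ (Nat.dvd_of_mem_primeFactors hp)⟩⟩, mX⟩))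
    · have p2 := h2.pf (by omega) (by omega)
      have s1 : (X + 1).primeFactors ⊆ (Y + 1).primeFactors := by rw [p2]; exact subset_union_left
      exact Or.inr (Or.inr (Or.inr (Or.inr ⟨rfl, mem_FN.2 ⟨⟨by omega, by omega⟩, third hZ hγ hγB he' fun p hp =>
        ⟨sq_succ (Nat.dvd_of_mem_primeFactors hp), sq_succ (Nat.dvd_of_mem_primeFactors (s1 hp))⟩⟩, mY⟩)))

/-- counting through two coordinates -/
theorem cnt3 {T : Finset (ℕ × ℕ × ℕ)} (g h : ℕ × ℕ × ℕ → ℕ)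
    (A : Finset ℕ) (F : ℕ → Finset ℕ) (a : ℝ) (ha0 : 0 ≤ a)
    (ha : ∀ t ∈ T, (A.card : ℝ) ≤ a)
    (hb : ∀ t ∈ T, ((F (g t)).card : ℝ) ≤ a)
    (hinj : ∀ t ∈ T, ∀ t' ∈ T, g t = g t' → h t = h t' → t = t')
    (h2 : ∀ t ∈ T, g t ∈ A) (h3 : ∀ t ∈ T, h t ∈ F (g t)) :
    (T.card : ℝ) ≤ a * a := by
  have := cnt2 (σ := Unit) (T := T) (fun _ => ()) g h {()} (fun _ => A) (fun _ => F) a a ha0 ha0
    ha hb (fun t ht t' ht' _ e2 e3 => hinj t ht t' ht' e2 e3) (fun _ _ => Finset.mem_singleton_self _) h2 h3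
  simpa using this

theorem arrE (M : ℕ) (hM : 1 ≤ M) (ε : ℝ) (hε : 0 < ε) : ∃ C : ℝ, 0 < C ∧ ∀ (N m : ℕ) (T : Finset (ℕ × ℕ × ℕ)),
    T ⊆ box N → (∀ t ∈ T, CaseEnt N M m t) → (T.card : ℝ) ≤ C * ((N + 1 : ℕ) : ℝ) ^ ε := by
  classical
  obtain ⟨K1, hK1, hF⟩ := FN_le' (ε / 2) (by linarith) (M + 2)
  refine ⟨5 * (K1 * K1), by positivity, fun N m T hT hcase => ?_⟩
  set W : ℕ := N + 1 with hW
  have hW1 : 1 ≤ W := by omega
  have hWr : (1 : ℝ) ≤ W := by exact_mod_cast hW1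
  set a : ℝ := K1 * (W : ℝ) ^ (ε / 2) with ha
  have ha0 : 0 ≤ a := by positivity
  have bx : ∀ t ∈ T, (2 ≤ t.1 ∧ t.1 ≤ N) ∧ (2 ≤ t.2.1 ∧ t.2.1 ≤ N) ∧ 2 ≤ t.2.2 ∧ t.2.2 ≤ N :=
    fun t ht => mem_box.1 (hT ht)
  have hFN : ∀ m : ℕ, (1 ≤ m ∧ m ≤ (N + 1) ^ (M + 2)) → ((FN W m).card : ℝ) ≤ a :=
    fun m hm => hF W m hW1 hm.1 hm.2
  set T1 := T.filter fun t => t.1 = m ∧ t.2.1 ∈ FN (N + 1) m ∧ t.2.2 ∈ FN (N + 1) m with hT1
  set T2 := T.filter fun t => t.2.1 = m ∧ t.2.2 + 1 ∈ FN (N + 1) (m ^ M - 1) ∧ t.1 ∈ FN (N + 1) (m * t.2.2) with hT2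
  set T3 := T.filter fun t => t.2.2 = m ∧ t.2.1 + 1 ∈ FN (N + 1) (m ^ M - 1) ∧ t.1 ∈ FN (N + 1) (t.2.1 * m) with hT3
  set T4 := T.filter fun t => t.2.1 = m ∧ t.1 + 1 ∈ FN (N + 1) (m + 1) ∧ t.2.2 + 1 ∈ FN (N + 1) (m + 1) with hT4
  set T5 := T.filter fun t => t.2.2 = m ∧ t.1 + 1 ∈ FN (N + 1) (m ^ M - 1) ∧ t.2.1 ∈ FN (N + 1) t.1 with hT5
  have c1 : (T1.card : ℝ) ≤ a * a := by
    refine cnt3 (fun t => t.2.1) (fun t => t.2.2) (FN W m) (fun _ => FN W m) a ha0 ?_ ?_ ?_ ?_ ?_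
    · intro t ht
      have ht' := mem_filter.1 ht
      obtain ⟨h1, -, -⟩ := bx t ht'.1
      exact hFN _ (one_bd (by rw [← ht'.2.1]; omega) (by rw [← ht'.2.1]; omega))
    · intro t ht
      have ht' := mem_filter.1 ht
      obtain ⟨h1, -, -⟩ := bx t ht'.1
      exact hFN _ (one_bd (by rw [← ht'.2.1]; omega) (by rw [← ht'.2.1]; omega))
    · intro t ht t' ht' e1 e2
      have i1 := (mem_filter.1 ht).2.1
      have i2 := (mem_filter.1 ht').2.1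
      exact Prod.ext (i1.trans i2.symm) (Prod.ext e1 e2)
    · exact fun t ht => (mem_filter.1 ht).2.2.1
    · exact fun t ht => (mem_filter.1 ht).2.2.2
  have c2 : (T2.card : ℝ) ≤ a * a := by
    refine cnt3 (fun t => t.2.2 + 1) (fun t => t.1) (FN W (m ^ M - 1)) (fun z => FN W (m * (z - 1))) a ha0 ?_ ?_ ?_ ?_ ?_
    · intro t ht
      have ht' := mem_filter.1 ht
      obtain ⟨-, h2, -⟩ := bx t ht'.1
      exact hFN _ (pow_sub_bd (by rw [← ht'.2.1]; omega) hM (by rw [← ht'.2.1]; omega))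
    · intro t ht
      have ht' := mem_filter.1 ht
      obtain ⟨-, h2, h3⟩ := bx t ht'.1
      exact hFN _ (mul_bd (by rw [← ht'.2.1]; omega) (by omega) (by rw [← ht'.2.1]; omega) (by omega))
    · intro t ht t' ht' e1 e2
      have i1 := (mem_filter.1 ht).2.1
      have i2 := (mem_filter.1 ht').2.1
      exact Prod.ext e2 (Prod.ext (i1.trans i2.symm) (by omega))
    · exact fun t ht => (mem_filter.1 ht).2.2.1
    · exact fun t ht => (mem_filter.1 ht).2.2.2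
  have c3 : (T3.card : ℝ) ≤ a * a := by
    refine cnt3 (fun t => t.2.1 + 1) (fun t => t.1) (FN W (m ^ M - 1)) (fun y => FN W ((y - 1) * m)) a ha0 ?_ ?_ ?_ ?_ ?_
    · intro t ht
      have ht' := mem_filter.1 ht
      obtain ⟨-, -, h3⟩ := bx t ht'.1
      exact hFN _ (pow_sub_bd (by rw [← ht'.2.1]; omega) hM (by rw [← ht'.2.1]; omega))
    · intro t ht
      have ht' := mem_filter.1 ht
      obtain ⟨-, h2, h3⟩ := bx t ht'.1
      exact hFN _ (mul_bd (by omega) (by rw [← ht'.2.1]; omega) (by omega) (by rw [← ht'.2.1]; omega))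
    · intro t ht t' ht' e1 e2
      have i1 := (mem_filter.1 ht).2.1
      have i2 := (mem_filter.1 ht').2.1
      exact Prod.ext e2 (Prod.ext (by omega) (i1.trans i2.symm))
    · exact fun t ht => (mem_filter.1 ht).2.2.1
    · exact fun t ht => (mem_filter.1 ht).2.2.2
  have c4 : (T4.card : ℝ) ≤ a * a := by
    refine cnt3 (fun t => t.1 + 1) (fun t => t.2.2 + 1) (FN W (m + 1)) (fun _ => FN W (m + 1)) a ha0 ?_ ?_ ?_ ?_ ?_
    · intro t ht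
      have ht' := mem_filter.1 ht
      obtain ⟨-, h2, -⟩ := bx t ht'.1
      exact hFN _ (one_bd (by omega) (by rw [← ht'.2.1]; omega))
    · intro t ht
      have ht' := mem_filter.1 ht
      obtain ⟨-, h2, -⟩ := bx t ht'.1
      exact hFN _ (one_bd (by omega) (by rw [← ht'.2.1]; omega))
    · intro t ht t' ht' e1 e2
      have i1 := (mem_filter.1 ht).2.1
      have i2 := (mem_filter.1 ht').2.1
      exact Prod.ext (by omega) (Prod.ext (i1.trans i2.symm) (by omega))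
    · exact fun t ht => (mem_filter.1 ht).2.2.1
    · exact fun t ht => (mem_filter.1 ht).2.2.2
  have c5 : (T5.card : ℝ) ≤ a * a := by
    refine cnt3 (fun t => t.1 + 1) (fun t => t.2.1) (FN W (m ^ M - 1)) (fun x => FN W (x - 1)) a ha0 ?_ ?_ ?_ ?_ ?_
    · intro t ht
      have ht' := mem_filter.1 ht
      obtain ⟨-, -, h3⟩ := bx t ht'.1
      exact hFN _ (pow_sub_bd (by rw [← ht'.2.1]; omega) hM (by rw [← ht'.2.1]; omega))
    · intro t ht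
      have ht' := mem_filter.1 ht
      obtain ⟨h1, -, -⟩ := bx t ht'.1
      exact hFN _ (one_bd (by omega) (by omega))
    · intro t ht t' ht' e1 e2
      have i1 := (mem_filter.1 ht).2.1
      have i2 := (mem_filter.1 ht').2.1
      exact Prod.ext (by omega) (Prod.ext e2 (i1.trans i2.symm))
    · exact fun t ht => (mem_filter.1 ht).2.2.1
    · exact fun t ht => (mem_filter.1 ht).2.2.2
  have hsub : T ⊆ T1 ∪ T2 ∪ T3 ∪ T4 ∪ T5 := by
    intro t ht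
    rw [hT1, hT2, hT3, hT4, hT5]
    simp only [mem_union, mem_filter, ht, true_and]
    rcases hcase t ht with h | h | h | h | h
    · exact Or.inl (Or.inl (Or.inl (Or.inl h)))
    · exact Or.inl (Or.inl (Or.inl (Or.inr h)))
    · exact Or.inl (Or.inl (Or.inr h))
    · exact Or.inl (Or.inr h)
    · exact Or.inr h
  have hnat : T.card ≤ T1.card + T2.card + T3.card + T4.card + T5.card := by
    refine (Finset.card_le_card hsub).trans ?_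
    refine (Finset.card_union_le _ _).trans (Nat.add_le_add_right ?_ _)
    refine (Finset.card_union_le _ _).trans (Nat.add_le_add_right ?_ _)
    refine (Finset.card_union_le _ _).trans (Nat.add_le_add_right ?_ _)
    exact Finset.card_union_le _ _
  have hreal : (T.card : ℝ) ≤ (T1.card : ℝ) + (T2.card : ℝ) + (T3.card : ℝ) + (T4.card : ℝ) + (T5.card : ℝ) := by
    exact_mod_cast hnat
  have hfin : (T.card : ℝ) ≤ 5 * (a * a) := by linarith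
  refine hfin.trans (le_of_eq ?_)
  have hpos : (0 : ℝ) < W := by linarith
  have hexp : (W : ℝ) ^ ε = (W : ℝ) ^ (ε / 2) * (W : ℝ) ^ (ε / 2) := by
    rw [← Real.rpow_add hpos]
    congr 1
    ring
  rw [ha, hexp]
  ring

end Pool.Agent.MD50
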