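import Mathlib
import Pool.Agent.helper50.MD.Entry

/-!
# Triples with a given entry: all arrangements
-/

set_option autoImplicit false

namespace Pool.Agent.MD50

open Finset

/-- three arrangements of a relation with bounded exponents -/
def B3 (B a b c : ℕ) : Prop := BRel B a b c ∨ BRel B b a c ∨ BRel B c a b

/-- the six permutations -/
def AnyE (B a b c : ℕ) : Prop :=
  GoodE B (a, b, c) ∨ GoodE B (a, c, b) ∨ GoodE B (b, a, c) ∨ GoodE B (b, c, a) ∨ GoodE B (c, a, b) ∨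
    GoodE B (c, b, a)

theorem arrangeE {B a b c : ℕ} (h1 : B3 B a b c) (h2 : R3 (a + 1) (b + 1) (c + 1)) : AnyE B a b c := by
  rcases h1 with h1 | h1 | h1 <;> rcases h2 with h2 | h2 | h2
  · exact Or.inl ⟨h1, Or.inl h2⟩
  · exact Or.inl ⟨h1, Or.inr h2⟩
  · exact Or.inr (Or.inl ⟨h1.symm, Or.inr h2⟩)
  · exact Or.inr (Or.inr (Or.inl ⟨h1, Or.inr h2⟩))
  · exact Or.inr (Or.inr (Or.inl ⟨h1, Or.inl h2⟩))
  · exact Or.inr (Or.inr (Or.inr (Or.inl ⟨h1.symm, Or.inr h2.symm⟩)))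
  · exact Or.inr (Or.inr (Or.inr (Or.inr (Or.inl ⟨h1, Or.inr h2.symm⟩))))
  · exact Or.inr (Or.inr (Or.inr (Or.inr (Or.inr ⟨h1.symm, Or.inr h2.symm⟩))))
  · exact Or.inr (Or.inr (Or.inr (Or.inr (Or.inl ⟨h1, Or.inl h2⟩))))

theorem countE (B : ℕ) (ε : ℝ) (hε : 0 < ε) : ∃ C : ℝ, 0 < C ∧ ∀ (N m : ℕ) (T : Finset (ℕ × ℕ × ℕ)),
    T ⊆ box N → (∀ t ∈ T, AnyE B t.1 t.2.1 t.2.2 ∧ HasEntry m t) → (T.card : ℝ) ≤ C * (N : ℝ) ^ ε := by
  classical
  have hM : 1 ≤ 2 * B.factorial := by have := Nat.factorial_pos B; omega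
  obtain ⟨C, hC, h⟩ := arrE (2 * B.factorial) hM ε hε
  refine ⟨6 * (C * (2 : ℝ) ^ ε), by positivity, fun N m T hT hg => ?_⟩
  rcases Nat.eq_zero_or_pos N with rfl | hN
  · have h0 : T = ∅ := by
      rw [← Finset.subset_empty]
      intro t ht
      have := (mem_box.1 (hT ht)).1
      omega
    rw [h0]
    simp only [Finset.card_empty, Nat.cast_zero]
    positivity
  set U : Finset (ℕ × ℕ × ℕ) := (box N).filter fun t => GoodE B t ∧ HasEntry m t with hU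
  have hUc : (U.card : ℝ) ≤ C * ((N + 1 : ℕ) : ℝ) ^ ε := by
    refine h N m U (Finset.filter_subset _ _) (fun t ht => ?_)
    have ht' := mem_filter.1 ht
    exact goodE_cases ht'.1 ht'.2.1 ht'.2.2
  have hsub : T ⊆ U.image (fun t => (t.1, t.2.1, t.2.2)) ∪ U.image (fun t => (t.1, t.2.2, t.2.1)) ∪
      U.image (fun t => (t.2.1, t.1, t.2.2)) ∪ U.image (fun t => (t.2.2, t.1, t.2.1)) ∪
      U.image (fun t => (t.2.1, t.2.2, t.1)) ∪ U.image (fun t => (t.2.2, t.2.1, t.1)) := by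
    rintro ⟨a, b, c⟩ ht
    obtain ⟨ha, hb, hc⟩ := mem_box.1 (hT ht)
    simp only at ha hb hc
    obtain ⟨hg', he⟩ := hg _ ht
    have e1 : HasEntry m (a, c, b) := by rcases he with h | h | h <;> simp only [HasEntry] at h ⊢ <;> tauto
    have e2 : HasEntry m (b, a, c) := by rcases he with h | h | h <;> simp only [HasEntry] at h ⊢ <;> tauto
    have e3 : HasEntry m (b, c, a) := by rcases he with h | h | h <;> simp only [HasEntry] at h ⊢ <;> tauto
    have e4 : HasEntry m (c, a, b) := by rcases he with h | h | h <;> simp only [HasEntry] at h ⊢ <;> tauto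
    have e5 : HasEntry m (c, b, a) := by rcases he with h | h | h <;> simp only [HasEntry] at h ⊢ <;> tauto
    simp only [mem_union, mem_image]
    rcases hg' with h | h | h | h | h | h
    · exact Or.inl (Or.inl (Or.inl (Or.inl (Or.inl ⟨(a, b, c), mem_filter.2 ⟨mem_box.2 ⟨ha, hb, hc⟩, h, he⟩, rfl⟩))))
    · exact Or.inl (Or.inl (Or.inl (Or.inl (Or.inr ⟨(a, c, b), mem_filter.2 ⟨mem_box.2 ⟨ha, hc, hb⟩, h, e1⟩, rfl⟩))))
    · exact Or.inl (Or.inl (Or.inl (Or.inr ⟨(b, a, c), mem_filter.2 ⟨mem_box.2 ⟨hb, ha, hc⟩, h, e2⟩, rfl⟩)))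
    · exact Or.inl (Or.inl (Or.inr ⟨(b, c, a), mem_filter.2 ⟨mem_box.2 ⟨hb, hc, ha⟩, h, e3⟩, rfl⟩))
    · exact Or.inl (Or.inr ⟨(c, a, b), mem_filter.2 ⟨mem_box.2 ⟨hc, ha, hb⟩, h, e4⟩, rfl⟩)
    · exact Or.inr ⟨(c, b, a), mem_filter.2 ⟨mem_box.2 ⟨hc, hb, ha⟩, h, e5⟩, rfl⟩
  have hnat : T.card ≤ 6 * U.card := by
    refine (Finset.card_le_card hsub).trans ?_
    have e : ∀ f : ℕ × ℕ × ℕ → ℕ × ℕ × ℕ, (U.image f).card ≤ U.card := fun f => Finset.card_image_le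
    have e1 := e (fun t => (t.1, t.2.1, t.2.2))
    have e2 := e (fun t => (t.1, t.2.2, t.2.1))
    have e3 := e (fun t => (t.2.1, t.1, t.2.2))
    have e4 := e (fun t => (t.2.2, t.1, t.2.1))
    have e5 := e (fun t => (t.2.1, t.2.2, t.1))
    have e6 := e (fun t => (t.2.2, t.2.1, t.1))
    refine (Finset.card_union_le _ _).trans ?_
    have f5 := Finset.card_union_le (U.image (fun t => (t.1, t.2.1, t.2.2)) ∪ U.image (fun t => (t.1, t.2.2, t.2.1)) ∪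
      U.image (fun t => (t.2.1, t.1, t.2.2)) ∪ U.image (fun t => (t.2.2, t.1, t.2.1))) (U.image (fun t => (t.2.1, t.2.2, t.1)))
    have f4 := Finset.card_union_le (U.image (fun t => (t.1, t.2.1, t.2.2)) ∪ U.image (fun t => (t.1, t.2.2, t.2.1)) ∪
      U.image (fun t => (t.2.1, t.1, t.2.2))) (U.image (fun t => (t.2.2, t.1, t.2.1)))
    have f3 := Finset.card_union_le (U.image (fun t => (t.1, t.2.1, t.2.2)) ∪ U.image (fun t => (t.1, t.2.2, t.2.1)))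
      (U.image (fun t => (t.2.1, t.1, t.2.2)))
    have f2 := Finset.card_union_le (U.image (fun t => (t.1, t.2.1, t.2.2))) (U.image (fun t => (t.1, t.2.2, t.2.1)))
    omega
  have hreal : (T.card : ℝ) ≤ 6 * (U.card : ℝ) := by exact_mod_cast hnat
  have hpow : ((N + 1 : ℕ) : ℝ) ^ ε ≤ (2 : ℝ) ^ ε * (N : ℝ) ^ ε := by
    rw [← Real.mul_rpow (by norm_num) (Nat.cast_nonneg N)]
    refine Real.rpow_le_rpow (Nat.cast_nonneg _) ?_ hε.le
    have : (1 : ℝ) ≤ N := by exact_mod_cast hN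
    push_cast
    linarith
  calc (T.card : ℝ) ≤ 6 * (U.card : ℝ) := hreal
    _ ≤ 6 * (C * ((N + 1 : ℕ) : ℝ) ^ ε) := by linarith
    _ ≤ 6 * (C * ((2 : ℝ) ^ ε * (N : ℝ) ^ ε)) := by
        have := mul_le_mul_of_nonneg_left hpow hC.le
        linarith
    _ = 6 * (C * (2 : ℝ) ^ ε) * (N : ℝ) ^ ε := by ring

end Pool.Agent.MD50
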